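import Mathlib
import Pool.Agent.Helper18.KS.Ave

/-!
# A strict improvement of the Brightwell-Felsner-Trotter bound: definitions

`D x y σ = σ y - σ x`, `gp r x y k = Pr[D = k]`, `mn r x y = E[D]`,
`mneg r x y = E[max(-D, 0)]`, `F r x y z k l = Pr[D x y = k, D y z = l]`.
-/

set_option autoImplicit false

namespace Pool.Agent.BFT

open Finset Pool.Agent.Helper1.Balance Pool.Agent.Helper8.KS Pool.Agent.Helper18.KSC

variable {n : ℕ}

/-- incomparable -/
def Inc (r : Fin n → Fin n → Prop) (x y : Fin n) : Prop := ¬ r x y ∧ ¬ r y x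

/-- signed distance from `x` to `y` -/
def D (x y : Fin n) (σ : Equiv.Perm (Fin n)) : ℤ := ((σ y : ℕ) : ℤ) - ((σ x : ℕ) : ℤ)

/-- probability that the signed distance from `x` to `y` is `k` -/
noncomputable def gp (r : Fin n → Fin n → Prop) (x y : Fin n) (k : ℤ) : ℝ :=
  Pr r (fun σ => D x y σ = k)

/-- mean signed distance from `x` to `y` -/
noncomputable def mn (r : Fin n → Fin n → Prop) (x y : Fin n) : ℝ :=
  Ex r (fun σ => ((D x y σ : ℤ) : ℝ))

/-- mean of the negative part of the signed distance from `x` to `y` -/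
noncomputable def mneg (r : Fin n → Fin n → Prop) (x y : Fin n) : ℝ :=
  Ex r (fun σ => max (-((D x y σ : ℤ) : ℝ)) 0)

/-- joint law of the two gaps -/
noncomputable def F (r : Fin n → Fin n → Prop) (x y z : Fin n) (k l : ℤ) : ℝ :=
  Pr r (fun σ => D x y σ = k ∧ D y z σ = l)

theorem Inc.ne {r : Fin n → Fin n → Prop} (hr : IsPoset r) {x y : Fin n} (h : Inc r x y) :
    x ≠ y := by
  rintro rfl
  exact h.1 (hr.1 x)

theorem Inc.symm {r : Fin n → Fin n → Prop} {x y : Fin n} (h : Inc r x y) : Inc r y x :=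
  ⟨h.2, h.1⟩

theorem mn_eq_ht (r : Fin n → Fin n → Prop) (x y : Fin n) : mn r x y = ht r y - ht r x := by
  unfold mn ht
  rw [← Ex_sub]
  congr 1
  funext σ
  unfold D pos
  push_cast
  ring

theorem mn_add (r : Fin n → Fin n → Prop) (x y z : Fin n) :
    mn r x z = mn r x y + mn r y z := by
  rw [mn_eq_ht, mn_eq_ht, mn_eq_ht]
  ring

theorem mem_LEs {r : Fin n → Fin n → Prop} {σ : Equiv.Perm (Fin n)} :
    σ ∈ LEs r ↔ ∀ a b, r a b → σ a ≤ σ b := by
  classical
  simp [LEs]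

open Classical in
/-- probabilities as numbers of linear extensions -/
theorem Pr_eq_card (r : Fin n → Fin n → Prop) (p : Equiv.Perm (Fin n) → Prop) :
    Pr r p = (((LEs r).filter p).card : ℝ) / ((LEs r).card : ℝ) := by
  unfold Pr Ex
  rw [Finset.sum_boole]

theorem prob_eq_Pr (r : Fin n → Fin n → Prop) (x y : Fin n) :
    prob r x y = Pr r (fun σ => σ x < σ y) := by
  classical
  rw [Pr_eq_card]
  unfold prob LEs
  rw [Nat.card_eq_fintype_card, Nat.card_eq_fintype_card, Fintype.card_subtype,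
    Fintype.card_subtype, Finset.filter_filter]
  congr 2
  congr 1
  ext σ
  simp

/-- comparison of probabilities by an injection -/
theorem Pr_le_of_inj (r : Fin n → Fin n → Prop) (p q : Equiv.Perm (Fin n) → Prop)
    (f : Equiv.Perm (Fin n) → Equiv.Perm (Fin n))
    (h1 : ∀ σ ∈ LEs r, p σ → f σ ∈ LEs r ∧ q (f σ))
    (h2 : ∀ σ ∈ LEs r, p σ → ∀ τ ∈ LEs r, p τ → f σ = f τ → σ = τ) : Pr r p ≤ Pr r q := by
  classical
  rw [Pr_eq_card, Pr_eq_card]
  refine div_le_div_of_nonneg_right ?_ (Nat.cast_nonneg _)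
  have : ((LEs r).filter p).card ≤ ((LEs r).filter q).card := by
    refine Finset.card_le_card_of_injOn f ?_ ?_
    · intro σ hσ
      rw [Finset.mem_coe, Finset.mem_filter] at hσ
      rw [Finset.mem_coe, Finset.mem_filter]
      exact h1 σ hσ.1 hσ.2
    · intro σ hσ τ hτ h
      rw [Finset.mem_coe, Finset.mem_filter] at hσ hτ
      exact h2 σ hσ.1 hσ.2 τ hτ.1 hτ.2 h
  exact_mod_cast this

/-- comparison of probabilities, two sets against one -/
theorem Pr_add_le_of_inj (r : Fin n → Fin n → Prop) (p p' q : Equiv.Perm (Fin n) → Prop)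
    (f f' : Equiv.Perm (Fin n) → Equiv.Perm (Fin n))
    (h1 : ∀ σ ∈ LEs r, p σ → f σ ∈ LEs r ∧ q (f σ))
    (h2 : ∀ σ ∈ LEs r, p σ → ∀ τ ∈ LEs r, p τ → f σ = f τ → σ = τ)
    (h1' : ∀ σ ∈ LEs r, p' σ → f' σ ∈ LEs r ∧ q (f' σ))
    (h2' : ∀ σ ∈ LEs r, p' σ → ∀ τ ∈ LEs r, p' τ → f' σ = f' τ → σ = τ)
    (h3 : ∀ σ ∈ LEs r, p σ → ∀ τ ∈ LEs r, p' τ → f σ ≠ f' τ) :
    Pr r p + Pr r p' ≤ Pr r q := by
  classical
  rw [Pr_eq_card, Pr_eq_card, Pr_eq_card, ← add_div]
  refine div_le_div_of_nonneg_right ?_ (Nat.cast_nonneg _)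
  have hi : ∀ (p : Equiv.Perm (Fin n) → Prop) (f : Equiv.Perm (Fin n) → Equiv.Perm (Fin n)),
      (∀ σ ∈ LEs r, p σ → ∀ τ ∈ LEs r, p τ → f σ = f τ → σ = τ) →
      (((LEs r).filter p).image f).card = ((LEs r).filter p).card := by
    intro p f h
    refine Finset.card_image_of_injOn ?_
    intro σ hσ τ hτ hh
    rw [Finset.mem_coe, Finset.mem_filter] at hσ hτ
    exact h σ hσ.1 hσ.2 τ hτ.1 hτ.2 hh
  have : ((LEs r).filter p).card + ((LEs r).filter p').card ≤ ((LEs r).filter q).card := by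
    rw [← hi p f h2, ← hi p' f' h2', ← Finset.card_union_of_disjoint]
    · refine Finset.card_le_card ?_
      intro τ hτ
      rw [Finset.mem_union, Finset.mem_image, Finset.mem_image] at hτ
      rw [Finset.mem_filter]
      rcases hτ with ⟨σ, hσ, rfl⟩ | ⟨σ, hσ, rfl⟩
      · rw [Finset.mem_filter] at hσ
        exact h1 σ hσ.1 hσ.2
      · rw [Finset.mem_filter] at hσ
        exact h1' σ hσ.1 hσ.2
    · rw [Finset.disjoint_left]
      intro τ h4 h5
      rw [Finset.mem_image] at h4 h5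
      obtain ⟨σ, hσ, rfl⟩ := h4
      obtain ⟨σ', hσ', h6⟩ := h5
      rw [Finset.mem_filter] at hσ hσ'
      exact h3 σ hσ.1 hσ.2 σ' hσ'.1 hσ'.2 h6.symm
  exact_mod_cast this

end Pool.Agent.BFT
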