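import Mathlib

set_option autoImplicit false

/-!
# BFT, module USet (helper67)

`e r S` is the number of linear extensions of the finite set `S` for the relation `r`
(`r a b` stands for `a ≤ b`), defined by removing maximal elements. Main results:

* `e_rec`, `e_rec_min`: recursions over maximal and over minimal elements;
* `e_flip`: the dual relation has the same number of linear extensions;
* `u1`: `e(A) e(B) ≤ e(A ∩ B) e(A ∪ B)` for down-sets `A`, `B` of a set `Q`;
* `u1_up`: the same for up-sets;
* `e_pos`.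
-/

namespace Pool.BFT

open Finset
open scoped Classical FinsetFamily

variable {V : Type*} [DecidableEq V]

/-- `w` is maximal in `S` (`r a b` stands for `a ≤ b`). -/
def Mx (r : V → V → Prop) (S : Finset V) (w : V) : Prop := ∀ b ∈ S, r w b → b = w

/-- `w` is minimal in `S`. -/
def Mn (r : V → V → Prop) (S : Finset V) (w : V) : Prop := ∀ b ∈ S, r b w → b = w

/-- `A` is a down-set of `Q`. -/
def Dn (r : V → V → Prop) (Q A : Finset V) : Prop :=
  A ⊆ Q ∧ ∀ a ∈ A, ∀ b ∈ Q, r b a → b ∈ A

/-- `A` is an up-set of `Q`. -/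
def Upp (r : V → V → Prop) (Q A : Finset V) : Prop :=
  A ⊆ Q ∧ ∀ a ∈ A, ∀ b ∈ Q, r a b → b ∈ A

/-- Auxiliary: number of linear extensions of a set with `k` elements. -/
noncomputable def eAux (r : V → V → Prop) : ℕ → Finset V → ℕ
  | 0, _ => 1
  | k + 1, S => ∑ w ∈ S.filter (Mx r S), eAux r k (S.erase w)

/-- The number of linear extensions of the finite set `S`. -/
noncomputable def e (r : V → V → Prop) (S : Finset V) : ℕ := eAux r S.card S

theorem e_empty (r : V → V → Prop) : e r ∅ = 1 := rfl

theorem e_rec (r : V → V → Prop) {S : Finset V} (hS : S.Nonempty) :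
    e r S = ∑ w ∈ S.filter (Mx r S), e r (S.erase w) := by
  obtain ⟨k, hk⟩ : ∃ k, S.card = k + 1 := ⟨S.card - 1, by have := hS.card_pos; omega⟩
  unfold e
  rw [hk]
  refine Finset.sum_congr rfl fun w hw => ?_
  have : (S.erase w).card = k := by
    rw [Finset.card_erase_of_mem (Finset.mem_filter.1 hw).1, hk]; rfl
  rw [this]

theorem e_singleton (r : V → V → Prop) (a : V) : e r {a} = 1 := by
  rw [e_rec r (Finset.singleton_nonempty a)]
  have : ({a} : Finset V).filter (Mx r {a}) = {a} := by
    ext w
    simp only [Finset.mem_filter, Finset.mem_singleton]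
    constructor
    · exact fun h => h.1
    · rintro rfl
      refine ⟨rfl, fun b hb _ => ?_⟩
      simpa using hb
  rw [this, Finset.sum_singleton]
  simp [e_empty]

/-- The pairs (remove a maximal element, then a minimal one) commute. -/
theorem e_rec_min (r : V → V → Prop) : ∀ (k : ℕ) (S : Finset V), S.card = k + 1 →
    e r S = ∑ v ∈ S.filter (Mn r S), e r (S.erase v) := by
  intro k
  induction k with
  | zero =>
    intro S hS
    obtain ⟨a, rfl⟩ := Finset.card_eq_one.1 hS
    rw [e_singleton]
    have : ({a} : Finset V).filter (Mn r {a}) = {a} := by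
      ext w
      simp only [Finset.mem_filter, Finset.mem_singleton]
      constructor
      · exact fun h => h.1
      · rintro rfl
        refine ⟨rfl, fun b hb _ => ?_⟩
        simpa using hb
    rw [this, Finset.sum_singleton]
    simp [e_empty]
  | succ k ih =>
    intro S hS
    have hne : S.Nonempty := Finset.card_pos.1 (by omega)
    rw [e_rec r hne]
    have h1 : ∀ w ∈ S.filter (Mx r S), e r (S.erase w) =
        ∑ v ∈ (S.erase w).filter (Mn r (S.erase w)), e r ((S.erase w).erase v) := by
      intro w hw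
      refine ih _ ?_
      rw [Finset.card_erase_of_mem (Finset.mem_filter.1 hw).1, hS]; rfl
    have h2 : ∀ v ∈ S.filter (Mn r S), e r (S.erase v) =
        ∑ w ∈ (S.erase v).filter (Mx r (S.erase v)), e r ((S.erase v).erase w) := by
      intro v hv
      refine e_rec r ?_
      have : (S.erase v).card = k + 1 := by
        rw [Finset.card_erase_of_mem (Finset.mem_filter.1 hv).1, hS]; rfl
      exact Finset.card_pos.1 (by omega)
    rw [Finset.sum_congr rfl h1, Finset.sum_congr rfl h2]
    rw [Finset.sum_sigma', Finset.sum_sigma']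
    refine Finset.sum_bij' (fun p _ => ⟨p.2, p.1⟩) (fun p _ => ⟨p.2, p.1⟩) ?_ ?_ ?_ ?_ ?_
    · rintro ⟨w, v⟩ h
      simp only [Finset.mem_sigma, Finset.mem_filter, Finset.mem_erase] at h ⊢
      obtain ⟨⟨hwS, hw⟩, ⟨hvw, hvS⟩, hv⟩ := h
      refine ⟨⟨hvS, fun b hb hbv => ?_⟩, ⟨Ne.symm hvw, hwS⟩, fun b hb hwb => ?_⟩
      · by_cases hbw : b = w
        · subst hbw
          exact absurd (hw v hvS hbv) hvw
        · exact hv b (Finset.mem_erase.2 ⟨hbw, hb⟩) hbv
      · exact hw b (Finset.mem_erase.1 hb).2 hwb
    · rintro ⟨v, w⟩ h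
      simp only [Finset.mem_sigma, Finset.mem_filter, Finset.mem_erase] at h ⊢
      obtain ⟨⟨hvS, hv⟩, ⟨hwv, hwS⟩, hw⟩ := h
      refine ⟨⟨hwS, fun b hb hwb => ?_⟩, ⟨Ne.symm hwv, hvS⟩, fun b hb hbv => ?_⟩
      · by_cases hbv : b = v
        · subst hbv
          exact absurd (hv w hwS hwb) hwv
        · exact hw b (Finset.mem_erase.2 ⟨hbv, hb⟩) hwb
      · exact hv b (Finset.mem_erase.1 hb).2 hbv
    · rintro ⟨w, v⟩ _; rfl
    · rintro ⟨v, w⟩ _; rfl
    · rintro ⟨w, v⟩ _
      simp only
      rw [Finset.erase_right_comm]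

theorem e_rec_min' (r : V → V → Prop) {S : Finset V} (hS : S.Nonempty) :
    e r S = ∑ v ∈ S.filter (Mn r S), e r (S.erase v) :=
  e_rec_min r (S.card - 1) S (by have := hS.card_pos; omega)

theorem e_flip (r : V → V → Prop) : ∀ (k : ℕ) (S : Finset V), S.card = k →
    e (fun a b => r b a) S = e r S := by
  intro k
  induction k with
  | zero =>
    intro S hS
    rw [Finset.card_eq_zero.1 hS, e_empty, e_empty]
  | succ k ih =>
    intro S hS
    have hne : S.Nonempty := Finset.card_pos.1 (by omega)
    rw [e_rec _ hne, e_rec_min' r hne]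
    refine Finset.sum_congr rfl fun w hw => ?_
    refine ih _ ?_
    rw [Finset.card_erase_of_mem (Finset.mem_filter.1 hw).1, hS]; rfl

theorem e_flip' (r : V → V → Prop) (S : Finset V) : e (fun a b => r b a) S = e r S :=
  e_flip r _ S rfl

/-! ### Multichains and strict chains of down-sets -/

/-- Number of multichains `∅ = D₀ ⊆ D₁ ⊆ ... ⊆ D_N = A` of down-sets. -/
noncomputable def Om (r : V → V → Prop) (Q : Finset V) : ℕ → Finset V → ℕ
  | 0, A => if A = ∅ then 1 else 0
  | N + 1, A => ∑ D ∈ A.powerset.filter (Dn r Q), Om r Q N D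

/-- Number of strict chains `∅ = D₀ ⊂ D₁ ⊂ ... ⊂ D_k = A` of down-sets. -/
noncomputable def sch (r : V → V → Prop) (Q : Finset V) : ℕ → Finset V → ℕ
  | 0, A => if A = ∅ then 1 else 0
  | k + 1, A => ∑ D ∈ A.ssubsets.filter (Dn r Q), sch r Q k D

theorem sch_eq_zero (r : V → V → Prop) (Q : Finset V) : ∀ (k : ℕ) (A : Finset V),
    A.card < k → sch r Q k A = 0 := by
  intro k
  induction k with
  | zero => intro A h; omega
  | succ k ih =>
    intro A h
    rw [sch]
    refine Finset.sum_eq_zero fun D hD => ih D ?_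
    have := Finset.card_lt_card (Finset.mem_ssubsets.1 (Finset.mem_filter.1 hD).1)
    omega

theorem Om_eq (r : V → V → Prop) (Q : Finset V) (M : ℕ) : ∀ (N : ℕ) (A : Finset V),
    Dn r Q A → A.card ≤ M →
    Om r Q N A = ∑ k ∈ Finset.range (M + 1), N.choose k * sch r Q k A := by
  intro N
  induction N with
  | zero =>
    intro A _ _
    rw [Finset.sum_eq_single 0]
    · simp [Om, sch]
    · intro b _ hb
      obtain ⟨c, rfl⟩ := Nat.exists_eq_succ_of_ne_zero hb
      simp
    · intro h; simp at h
  | succ N ih =>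
    intro A hA hM
    rw [Om]
    have hsplit : A.powerset.filter (Dn r Q) = insert A (A.ssubsets.filter (Dn r Q)) := by
      ext D
      simp only [Finset.mem_filter, Finset.mem_powerset, Finset.mem_insert, Finset.mem_ssubsets]
      constructor
      · rintro ⟨h1, h2⟩
        rcases eq_or_ne D A with h | h
        · exact Or.inl h
        · exact Or.inr ⟨lt_of_le_of_ne h1 h, h2⟩
      · rintro (h | ⟨h1, h2⟩)
        · subst h; exact ⟨subset_rfl, hA⟩
        · exact ⟨h1.le, h2⟩
    rw [hsplit, Finset.sum_insert (by simp)]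
    rw [ih A hA hM]
    have h1 : ∑ D ∈ A.ssubsets.filter (Dn r Q), Om r Q N D =
        ∑ k ∈ Finset.range (M + 1), N.choose k * sch r Q (k + 1) A := by
      rw [Finset.sum_congr rfl (fun D hD => ih D (Finset.mem_filter.1 hD).2
        ((Finset.card_lt_card (Finset.mem_ssubsets.1 (Finset.mem_filter.1 hD).1)).le.trans hM))]
      rw [Finset.sum_comm]
      refine Finset.sum_congr rfl fun k _ => ?_
      rw [← Finset.mul_sum, sch]
    rw [h1, Finset.sum_range_succ (fun k => N.choose k * sch r Q (k + 1) A) M,
      sch_eq_zero r Q (M + 1) A (by omega), mul_zero, add_zero]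
    rw [Finset.sum_range_succ' (fun k => N.choose k * sch r Q k A) M,
      Finset.sum_range_succ' (fun k => (N + 1).choose k * sch r Q k A) M]
    simp only [Nat.choose_zero_right]
    have h2 : ∑ k ∈ Finset.range M, (N + 1).choose (k + 1) * sch r Q (k + 1) A =
        ∑ k ∈ Finset.range M, N.choose (k + 1) * sch r Q (k + 1) A +
        ∑ k ∈ Finset.range M, N.choose k * sch r Q (k + 1) A := by
      rw [← Finset.sum_add_distrib]
      refine Finset.sum_congr rfl fun k _ => ?_
      rw [Nat.choose_succ_succ]
      ring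
    rw [h2]
    ring

theorem sch_card (r : V → V → Prop) (Q : Finset V) : ∀ (k : ℕ) (A : Finset V),
    A.card = k → Dn r Q A → sch r Q k A = eAux r k A := by
  intro k
  induction k with
  | zero =>
    intro A hA _
    simp [sch, eAux, Finset.card_eq_zero.1 hA]
  | succ k ih =>
    intro A hA hD
    rw [sch, eAux]
    have hinj : Set.InjOn (fun w => A.erase w) (A.filter (Mx r A) : Set V) := by
      intro a ha b hb hab
      have ha' := Finset.mem_filter.1 (Finset.mem_coe.1 ha)
      have hab' : A.erase a = A.erase b := hab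
      by_contra hne
      have : a ∈ A.erase b := Finset.mem_erase.2 ⟨hne, ha'.1⟩
      rw [← hab'] at this
      exact absurd rfl (Finset.mem_erase.1 this).1
    have hDw : ∀ w ∈ A.filter (Mx r A), Dn r Q (A.erase w) := by
      intro w hw
      obtain ⟨hwA, hw⟩ := Finset.mem_filter.1 hw
      refine ⟨(Finset.erase_subset _ _).trans hD.1, fun a ha b hb hba => ?_⟩
      refine Finset.mem_erase.2 ⟨?_, hD.2 a (Finset.mem_erase.1 ha).2 b hb hba⟩
      rintro rfl
      exact (Finset.mem_erase.1 ha).1 (hw a (Finset.mem_erase.1 ha).2 hba)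
    have hsub : (A.filter (Mx r A)).image (fun w => A.erase w) ⊆
        A.ssubsets.filter (Dn r Q) := by
      intro D hDD
      obtain ⟨w, hw, rfl⟩ := Finset.mem_image.1 hDD
      exact Finset.mem_filter.2 ⟨Finset.mem_ssubsets.2
        (Finset.erase_ssubset (Finset.mem_filter.1 hw).1), hDw w hw⟩
    rw [← Finset.sum_subset hsub, Finset.sum_image hinj]
    · refine Finset.sum_congr rfl fun w hw => ih _ ?_ (hDw w hw)
      rw [Finset.card_erase_of_mem (Finset.mem_filter.1 hw).1, hA]; rfl
    · intro D hDD hnot
      obtain ⟨h1, h2⟩ := Finset.mem_filter.1 hDD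
      have h1' := Finset.mem_ssubsets.1 h1
      apply sch_eq_zero
      by_contra hk
      have hlt := Finset.card_lt_card h1'
      have hcard : D.card + 1 = A.card := by omega
      obtain ⟨w, hwA, hwD⟩ := Finset.exists_of_ssubset h1'
      have hDe : D = A.erase w := by
        refine Finset.eq_of_subset_of_card_le (fun a ha => ?_) ?_
        · refine Finset.mem_erase.2 ⟨?_, h1'.1 ha⟩
          rintro rfl; exact hwD ha
        · rw [Finset.card_erase_of_mem hwA]; omega
      apply hnot
      refine Finset.mem_image.2 ⟨w, Finset.mem_filter.2 ⟨hwA, fun b hb hwb => ?_⟩, hDe.symm⟩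
      by_contra hbw
      have hbD : b ∈ D := by rw [hDe]; exact Finset.mem_erase.2 ⟨hbw, hb⟩
      exact hwD (h2.2 b hbD w (hD.1 hwA) hwb)

theorem Om_u1 (r : V → V → Prop) (Q : Finset V) : ∀ (N : ℕ) (A B : Finset V),
    Dn r Q A → Dn r Q B →
    Om r Q N A * Om r Q N B ≤ Om r Q N (A ∩ B) * Om r Q N (A ∪ B) := by
  intro N
  induction N with
  | zero =>
    intro A B _ _
    by_cases hA : A = ∅
    · by_cases hB : B = ∅
      · simp [Om, hA, hB]
      · simp [Om, hB]
    · simp [Om, hA]
  | succ N ih =>
    intro A B hA hB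
    have hform : ∀ C : Finset V, C ⊆ Q → Om r Q (N + 1) C =
        ∑ D ∈ Q.powerset, (if D ⊆ C ∧ Dn r Q D then Om r Q N D else 0) := by
      intro C hC
      rw [Om, ← Finset.sum_filter]
      refine Finset.sum_congr ?_ fun _ _ => rfl
      ext D
      simp only [Finset.mem_filter, Finset.mem_powerset]
      constructor
      · rintro ⟨h1, h2⟩; exact ⟨h1.trans hC, h1, h2⟩
      · rintro ⟨_, h1, h2⟩; exact ⟨h1, h2⟩
    have hAB : A ∩ B ⊆ Q := Finset.inter_subset_left.trans hA.1
    have hAB' : A ∪ B ⊆ Q := Finset.union_subset hA.1 hB.1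
    rw [hform A hA.1, hform B hB.1, hform _ hAB, hform _ hAB']
    have key := Finset.four_functions_theorem (β := ℕ) Q
      (f₁ := fun D => if D ⊆ A ∧ Dn r Q D then Om r Q N D else 0)
      (f₂ := fun D => if D ⊆ B ∧ Dn r Q D then Om r Q N D else 0)
      (f₃ := fun D => if D ⊆ A ∩ B ∧ Dn r Q D then Om r Q N D else 0)
      (f₄ := fun D => if D ⊆ A ∪ B ∧ Dn r Q D then Om r Q N D else 0)
      (fun _ => Nat.zero_le _) (fun _ => Nat.zero_le _) (fun _ => Nat.zero_le _)
      (fun _ => Nat.zero_le _) ?_ (𝒜 := Q.powerset) (ℬ := Q.powerset) subset_rfl subset_rfl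
    · simpa only [Finset.powerset_sups_powerset_self, Finset.powerset_infs_powerset_self] using key
    · intro s _ t _
      by_cases hs : s ⊆ A ∧ Dn r Q s
      · by_cases ht : t ⊆ B ∧ Dn r Q t
        · have hi : s ∩ t ⊆ A ∩ B ∧ Dn r Q (s ∩ t) := by
            refine ⟨Finset.inter_subset_inter hs.1 ht.1,
              Finset.inter_subset_left.trans hs.2.1, fun a ha b hb hba => ?_⟩
            rw [Finset.mem_inter] at ha ⊢
            exact ⟨hs.2.2 a ha.1 b hb hba, ht.2.2 a ha.2 b hb hba⟩
          have hu : s ∪ t ⊆ A ∪ B ∧ Dn r Q (s ∪ t) := by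
            refine ⟨Finset.union_subset_union hs.1 ht.1,
              Finset.union_subset hs.2.1 ht.2.1, fun a ha b hb hba => ?_⟩
            rw [Finset.mem_union] at ha ⊢
            rcases ha with ha | ha
            · exact Or.inl (hs.2.2 a ha b hb hba)
            · exact Or.inr (ht.2.2 a ha b hb hba)
          rw [if_pos hs, if_pos ht, if_pos hi, if_pos hu]
          exact ih s t hs.2 ht.2
        · rw [if_neg ht, mul_zero]; exact Nat.zero_le _
      · rw [if_neg hs, zero_mul]; exact Nat.zero_le _

/-! ### The limit -/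

theorem tendsto_choose_div (k a : ℕ) (hka : k ≤ a) :
    Filter.Tendsto (fun N : ℕ => ((N.choose k : ℕ) : ℝ) / (N : ℝ) ^ a) Filter.atTop
      (nhds (if k = a then 1 / (a.factorial : ℝ) else 0)) := by
  have h1 : Filter.Tendsto (fun N : ℕ => ((N.choose k : ℕ) : ℝ) / ((N : ℝ) ^ k / (k.factorial : ℝ)))
      Filter.atTop (nhds 1) := by
    have h := isEquivalent_choose k
    refine (Asymptotics.isEquivalent_iff_tendsto_one ?_).1 h
    filter_upwards [Filter.eventually_gt_atTop 0] with N hN
    have : (0 : ℝ) < N := by exact_mod_cast hN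
    positivity
  have h2 : Filter.Tendsto (fun N : ℕ => ((N : ℝ) ^ k / (k.factorial : ℝ)) / (N : ℝ) ^ a)
      Filter.atTop (nhds (if k = a then 1 / (a.factorial : ℝ) else 0)) := by
    split_ifs with h
    · subst h
      refine Filter.Tendsto.congr' ?_ tendsto_const_nhds
      filter_upwards [Filter.eventually_gt_atTop 0] with N hN
      have : (0 : ℝ) < N := by exact_mod_cast hN
      field_simp
    · have hlt : k < a := lt_of_le_of_ne hka h
      have h3 : Filter.Tendsto (fun N : ℕ => (1 / (k.factorial : ℝ)) * (((N : ℝ) ^ (a - k))⁻¹))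
          Filter.atTop (nhds ((1 / (k.factorial : ℝ)) * 0)) := by
        refine Filter.Tendsto.const_mul _ ?_
        refine Filter.Tendsto.inv_tendsto_atTop ?_
        refine (Filter.tendsto_pow_atTop (by omega)).comp tendsto_natCast_atTop_atTop
      rw [mul_zero] at h3
      refine Filter.Tendsto.congr' ?_ h3
      filter_upwards [Filter.eventually_gt_atTop 0] with N hN
      have hN' : (0 : ℝ) < N := by exact_mod_cast hN
      have : (N : ℝ) ^ a = (N : ℝ) ^ (a - k) * (N : ℝ) ^ k := by
        rw [← pow_add]; congr 1; omega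
      rw [this]
      field_simp
  have h3 := h1.mul h2
  rw [one_mul] at h3
  refine Filter.Tendsto.congr' ?_ h3
  filter_upwards [Filter.eventually_gt_atTop 0] with N hN
  have hN' : (0 : ℝ) < N := by exact_mod_cast hN
  field_simp

theorem tendsto_Om (r : V → V → Prop) (Q A : Finset V) (hA : Dn r Q A) :
    Filter.Tendsto (fun N : ℕ => ((Om r Q N A : ℕ) : ℝ) / (N : ℝ) ^ A.card) Filter.atTop
      (nhds ((e r A : ℝ) / (A.card.factorial : ℝ))) := by
  have h : ∀ k ∈ Finset.range (A.card + 1), Filter.Tendsto
      (fun N : ℕ => ((N.choose k : ℕ) : ℝ) / (N : ℝ) ^ A.card * (sch r Q k A : ℝ)) Filter.atTop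
      (nhds ((if k = A.card then 1 / (A.card.factorial : ℝ) else 0) * (sch r Q k A : ℝ))) :=
    fun k hk => (tendsto_choose_div k A.card (by
      have := Finset.mem_range.1 hk; omega)).mul_const _
  have h2 := tendsto_finsetSum _ h
  have h3 : ∑ k ∈ Finset.range (A.card + 1),
      ((if k = A.card then 1 / (A.card.factorial : ℝ) else 0) * (sch r Q k A : ℝ)) =
      (e r A : ℝ) / (A.card.factorial : ℝ) := by
    rw [Finset.sum_eq_single A.card]
    · rw [if_pos rfl, sch_card r Q A.card A rfl hA]
      unfold e
      ring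
    · intro b _ hb; rw [if_neg hb, zero_mul]
    · intro hb; simp at hb
  rw [h3] at h2
  refine h2.congr fun N => ?_
  rw [Om_eq r Q A.card N A hA le_rfl]
  push_cast
  rw [Finset.sum_div]
  refine Finset.sum_congr rfl fun k _ => ?_
  ring

theorem fact_ineq (i b m : ℕ) (hib : i ≤ b) :
    (i + m).factorial * b.factorial ≤ i.factorial * (b + m).factorial := by
  induction m with
  | zero => simp
  | succ m ih =>
    rw [← Nat.add_assoc, ← Nat.add_assoc, Nat.factorial_succ, Nat.factorial_succ]
    calc (i + m + 1) * (i + m).factorial * b.factorial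
        = (i + m + 1) * ((i + m).factorial * b.factorial) := by ring
      _ ≤ (b + m + 1) * (i.factorial * (b + m).factorial) :=
          Nat.mul_le_mul (by omega) ih
      _ = i.factorial * ((b + m + 1) * (b + m).factorial) := by ring

/-- **(U1)** for down-sets. -/
theorem u1 (r : V → V → Prop) (Q A B : Finset V) (hA : Dn r Q A) (hB : Dn r Q B) :
    e r A * e r B ≤ e r (A ∩ B) * e r (A ∪ B) := by
  have hi : Dn r Q (A ∩ B) := by
    refine ⟨Finset.inter_subset_left.trans hA.1, fun a ha b hb hba => ?_⟩
    rw [Finset.mem_inter] at ha ⊢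
    exact ⟨hA.2 a ha.1 b hb hba, hB.2 a ha.2 b hb hba⟩
  have hu : Dn r Q (A ∪ B) := by
    refine ⟨Finset.union_subset hA.1 hB.1, fun a ha b hb hba => ?_⟩
    rw [Finset.mem_union] at ha ⊢
    rcases ha with ha | ha
    · exact Or.inl (hA.2 a ha b hb hba)
    · exact Or.inr (hB.2 a ha b hb hba)
  have hcard : (A ∪ B).card + (A ∩ B).card = A.card + B.card := Finset.card_union_add_card_inter A B
  have hleA : (A ∩ B).card ≤ A.card := Finset.card_le_card Finset.inter_subset_left
  have hleB : (A ∩ B).card ≤ B.card := Finset.card_le_card Finset.inter_subset_right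
  have hlim1 := (tendsto_Om r Q A hA).mul (tendsto_Om r Q B hB)
  have hlim2 := (tendsto_Om r Q _ hi).mul (tendsto_Om r Q _ hu)
  have hle : (e r A : ℝ) / (A.card.factorial : ℝ) * ((e r B : ℝ) / (B.card.factorial : ℝ)) ≤
      (e r (A ∩ B) : ℝ) / ((A ∩ B).card.factorial : ℝ) *
      ((e r (A ∪ B) : ℝ) / ((A ∪ B).card.factorial : ℝ)) := by
    refine le_of_tendsto_of_tendsto hlim1 hlim2 ?_
    filter_upwards [Filter.eventually_gt_atTop 0] with N hN
    have hN' : (0 : ℝ) < N := by exact_mod_cast hN
    have h := Om_u1 r Q N A B hA hB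
    have h' : ((Om r Q N A : ℕ) : ℝ) * ((Om r Q N B : ℕ) : ℝ) ≤
        ((Om r Q N (A ∩ B) : ℕ) : ℝ) * ((Om r Q N (A ∪ B) : ℕ) : ℝ) := by exact_mod_cast h
    rw [div_mul_div_comm, div_mul_div_comm, ← pow_add, ← pow_add]
    have : (A ∩ B).card + (A ∪ B).card = A.card + B.card := by omega
    rw [this]
    exact div_le_div_of_nonneg_right h' (by positivity)
  have hf : A.card.factorial * B.card.factorial ≤
      (A ∩ B).card.factorial * (A ∪ B).card.factorial := by
    have := fact_ineq (A ∩ B).card B.card (A.card - (A ∩ B).card) hleB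
    have e1 : (A ∩ B).card + (A.card - (A ∩ B).card) = A.card := by omega
    have e2 : B.card + (A.card - (A ∩ B).card) = (A ∪ B).card := by omega
    rwa [e1, e2] at this
  rw [div_mul_div_comm, div_mul_div_comm, div_le_div_iff₀ (by positivity) (by positivity)] at hle
  have hle' : e r A * e r B * ((A ∩ B).card.factorial * (A ∪ B).card.factorial) ≤
      e r (A ∩ B) * e r (A ∪ B) * (A.card.factorial * B.card.factorial) := by exact_mod_cast hle
  have hpos : 0 < (A ∩ B).card.factorial * (A ∪ B).card.factorial := by positivity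
  refine Nat.le_of_mul_le_mul_right (hle'.trans (Nat.mul_le_mul_left _ hf)) hpos

/-- **(U1)** for up-sets. -/
theorem u1_up (r : V → V → Prop) (Q A B : Finset V) (hA : Upp r Q A) (hB : Upp r Q B) :
    e r A * e r B ≤ e r (A ∩ B) * e r (A ∪ B) := by
  have h := u1 (fun a b => r b a) Q A B hA hB
  simp only [e_flip' r] at h
  exact h

/-- Positivity. -/
theorem e_pos (r : V → V → Prop) (htr : ∀ a b c, r a b → r b c → r a c)
    (has : ∀ a b, r a b → r b a → a = b) : ∀ (k : ℕ) (S : Finset V), S.card = k → 0 < e r S := by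
  intro k
  induction k with
  | zero => intro S hS; rw [Finset.card_eq_zero.1 hS, e_empty]; exact one_pos
  | succ k ih =>
    intro S hS
    have hne : S.Nonempty := Finset.card_pos.1 (by omega)
    rw [e_rec r hne]
    -- a maximal element exists
    have hmax : ∃ w ∈ S, Mx r S w := by
      have : ∀ (T : Finset V), T.Nonempty → ∃ w ∈ T, Mx r T w := by
        intro T
        induction T using Finset.induction_on with
        | empty => intro h; exact absurd h (by simp)
        | insert a T haT ihT =>
          intro _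
          rcases T.eq_empty_or_nonempty with rfl | hT
          · refine ⟨a, by simp, fun b hb _ => ?_⟩
            simpa using hb
          · obtain ⟨w, hwT, hw⟩ := ihT hT
            by_cases hwa : r w a
            · refine ⟨a, by simp, fun b hb hab => ?_⟩
              rcases Finset.mem_insert.1 hb with rfl | hb
              · rfl
              · have h1 := hw b hb (htr _ _ _ hwa hab)
                subst h1
                exact (has _ _ hwa hab)
            · refine ⟨w, Finset.mem_insert_of_mem hwT, fun b hb hwb => ?_⟩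
              rcases Finset.mem_insert.1 hb with rfl | hb
              · exact absurd hwb hwa
              · exact hw b hb hwb
      exact this S hne
    obtain ⟨w, hwS, hw⟩ := hmax
    refine lt_of_lt_of_le (ih (S.erase w) ?_) (Finset.single_le_sum
      (f := fun w => e r (S.erase w)) (fun _ _ => Nat.zero_le _)
      (Finset.mem_filter.2 ⟨hwS, hw⟩))
    rw [Finset.card_erase_of_mem hwS, hS]; rfl

theorem e_pos' (r : V → V → Prop) (htr : ∀ a b c, r a b → r b c → r a c)
    (has : ∀ a b, r a b → r b a → a = b) (S : Finset V) : 0 < e r S :=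
  e_pos r htr has _ S rfl

end Pool.BFT
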