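import Mathlib
import Pool.Agent.BFT.Defs
import Pool.Agent.BFT.USet

set_option autoImplicit false

/-!
# BFT: linear extensions as lists (helper67)

`LL r S` is the finite set of the linear extensions of `S`, as lists. `peel` removes the last
element, `presuf` cuts the lists at a given element, `card_LEs` is the bridge with permutations.
-/

namespace Pool.BFT

open Finset
open scoped Classical

variable {V : Type*} [DecidableEq V]

/-- The linear extensions of `S`, as lists. -/
noncomputable def LL (r : V → V → Prop) (S : Finset V) : Finset (List V) :=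
  S.toList.permutations.toFinset.filter (fun l => l.Pairwise (fun a b => ¬ r b a))

theorem mem_LL {r : V → V → Prop} {S : Finset V} {l : List V} :
    l ∈ LL r S ↔ l.Nodup ∧ l.toFinset = S ∧ l.Pairwise (fun a b => ¬ r b a) := by
  unfold LL
  rw [Finset.mem_filter, List.mem_toFinset, List.mem_permutations]
  constructor
  · rintro ⟨h1, h2⟩
    refine ⟨(h1.nodup_iff).2 S.nodup_toList, ?_, h2⟩
    rw [List.toFinset_eq_of_perm _ _ h1, Finset.toList_toFinset]
  · rintro ⟨h1, h2, h3⟩
    refine ⟨?_, h3⟩
    refine List.perm_of_nodup_nodup_toFinset_eq h1 S.nodup_toList ?_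
    rw [h2, Finset.toList_toFinset]

theorem mem_of_LL {r : V → V → Prop} {S : Finset V} {l : List V} (h : l ∈ LL r S) (a : V) :
    a ∈ l ↔ a ∈ S := by
  rw [← (mem_LL.1 h).2.1, List.mem_toFinset]

theorem LL_empty (r : V → V → Prop) : LL r ∅ = {[]} := by
  ext l
  rw [mem_LL, Finset.mem_singleton, List.toFinset_eq_empty_iff]
  constructor
  · exact fun h => h.2.1
  · rintro rfl
    simp

theorem concat_mem {r : V → V → Prop} {S : Finset V} {l : List V} {w : V} :
    l ++ [w] ∈ LL r S ↔ w ∈ S ∧ Mx r S w ∧ l ∈ LL r (S.erase w) := by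
  rw [mem_LL, mem_LL, List.nodup_append, List.pairwise_append, List.toFinset_append]
  constructor
  · rintro ⟨⟨h1, -, h2⟩, h3, h4, -, h5⟩
    have hwl : w ∉ l := fun h => h2 w h w (by simp) rfl
    have hwS : w ∈ S := by rw [← h3]; simp
    have hS : S.erase w = l.toFinset := by
      ext a
      rw [Finset.mem_erase, ← h3, Finset.mem_union, List.mem_toFinset]
      constructor
      · rintro ⟨h6, h7 | h7⟩
        · exact h7
        · exact absurd (by simpa using h7) h6
      · intro h
        exact ⟨fun h' => hwl (h' ▸ h), Or.inl h⟩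
    refine ⟨hwS, fun b hb hwb => ?_, h1, hS.symm, h4⟩
    by_contra hbw
    have : b ∈ l := by
      rw [← List.mem_toFinset, ← hS]
      exact Finset.mem_erase.2 ⟨hbw, hb⟩
    exact h5 b this w (by simp) hwb
  · rintro ⟨hwS, hMx, h1, h2, h3⟩
    have hmem : ∀ b, b ∈ l ↔ b ∈ S.erase w := fun b => by rw [← h2, List.mem_toFinset]
    refine ⟨⟨h1, by simp, ?_⟩, ?_, h3, by simp, ?_⟩
    · intro a ha b hb
      have hb' : b = w := by simpa using hb
      subst hb'
      exact (Finset.mem_erase.1 ((hmem a).1 ha)).1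
    · rw [h2]
      ext a
      simp only [List.toFinset_cons, List.toFinset_nil, Finset.mem_union, Finset.mem_erase,
        Finset.mem_insert, Finset.notMem_empty, or_false]
      constructor
      · rintro (h | h)
        · exact h.2
        · exact h ▸ hwS
      · intro h
        by_cases haw : a = w
        · exact Or.inr haw
        · exact Or.inl ⟨haw, h⟩
    · intro a ha b hb hba
      have hb' : b = w := by simpa using hb
      subst hb'
      have := Finset.mem_erase.1 ((hmem a).1 ha)
      exact this.1 (hMx a this.2 hba)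

/-- Removing the last element. -/
theorem peel (r : V → V → Prop) {S : Finset V} (hS : S.Nonempty) (p : List V → Prop) :
    ((LL r S).filter p).card =
      ∑ w ∈ S.filter (Mx r S), ((LL r (S.erase w)).filter (fun l => p (l ++ [w]))).card := by
  have h : (LL r S).filter p = (S.filter (Mx r S)).biUnion (fun w =>
      ((LL r (S.erase w)).filter (fun l => p (l ++ [w]))).image (fun l => l ++ [w])) := by
    ext l
    simp only [Finset.mem_filter, Finset.mem_biUnion, Finset.mem_image]
    constructor
    · rintro ⟨h1, h2⟩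
      rcases List.eq_nil_or_concat l with rfl | ⟨l', w, rfl⟩
      · have := (mem_LL.1 h1).2.1
        rw [List.toFinset_nil] at this
        rw [← this] at hS
        exact absurd hS (by simp)
      · rw [List.concat_eq_append] at h1 h2
        obtain ⟨h3, h4, h5⟩ := concat_mem.1 h1
        refine ⟨w, ⟨h3, h4⟩, l', ⟨h5, h2⟩, ?_⟩
        rw [List.concat_eq_append]
    · rintro ⟨w, ⟨h3, h4⟩, l', ⟨h5, h2⟩, rfl⟩
      exact ⟨concat_mem.2 ⟨h3, h4, h5⟩, h2⟩
  rw [h, Finset.card_biUnion]
  · refine Finset.sum_congr rfl fun w _ => ?_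
    rw [Finset.card_image_of_injective _ (fun a b hab => List.append_cancel_right hab)]
  · intro a _ b _ hab
    rw [Function.onFun, Finset.disjoint_left]
    intro l hl hl'
    rw [Finset.mem_image] at hl hl'
    obtain ⟨l1, -, rfl⟩ := hl
    obtain ⟨l2, -, h2⟩ := hl'
    have := List.append_inj_right' h2 rfl
    simp at this
    exact hab this.symm

theorem card_LL (r : V → V → Prop) : ∀ (k : ℕ) (S : Finset V), S.card = k →
    (LL r S).card = e r S := by
  intro k
  induction k with
  | zero =>
    intro S hS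
    rw [Finset.card_eq_zero.1 hS, LL_empty, e_empty, Finset.card_singleton]
  | succ k ih =>
    intro S hS
    have hne : S.Nonempty := Finset.card_pos.1 (by omega)
    have h := peel r hne (fun _ => True)
    simp only [Finset.filter_true] at h
    rw [h, e_rec r hne]
    refine Finset.sum_congr rfl fun w hw => ih _ ?_
    rw [Finset.card_erase_of_mem (Finset.mem_filter.1 hw).1, hS]; rfl

theorem card_LL' (r : V → V → Prop) (S : Finset V) : (LL r S).card = e r S :=
  card_LL r _ S rfl

/-- Reversal. -/
theorem mem_LL_reverse {r : V → V → Prop} {S : Finset V} {l : List V} :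
    l.reverse ∈ LL r S ↔ l ∈ LL (fun a b => r b a) S := by
  rw [mem_LL, mem_LL, List.nodup_reverse, List.toFinset_reverse, List.pairwise_reverse]

theorem card_reverse (r : V → V → Prop) (S : Finset V) (p : List V → Prop) :
    ((LL r S).filter p).card =
      ((LL (fun a b => r b a) S).filter (fun l => p l.reverse)).card := by
  refine Finset.card_bij' (fun l _ => l.reverse) (fun l _ => l.reverse) ?_ ?_ ?_ ?_
  · intro l hl
    rw [Finset.mem_filter] at hl ⊢
    rw [List.reverse_reverse]
    exact ⟨mem_LL_reverse.1 (by rw [List.reverse_reverse]; exact hl.1), hl.2⟩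
  · intro l hl
    rw [Finset.mem_filter] at hl ⊢
    exact ⟨mem_LL_reverse.2 hl.1, hl.2⟩
  · intro l _; exact List.reverse_reverse l
  · intro l _; exact List.reverse_reverse l

/-- The set `A` of elements before `y` and the complement `Q \ A` are compatible. -/
def Cpt (r : V → V → Prop) (Q : Finset V) (y : V) (A : Finset V) : Prop :=
  A ⊆ Q ∧ (∀ a ∈ A, ¬ r y a) ∧ (∀ b ∈ Q \ A, ¬ r b y) ∧ ∀ a ∈ A, ∀ b ∈ Q \ A, ¬ r b a

theorem split_mem {r : V → V → Prop} {T : Finset V} {y : V} (hy : y ∈ T) {P S : List V} :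
    P ++ y :: S ∈ LL r T ↔ ∃ A, Cpt r (T.erase y) y A ∧ P ∈ LL r A ∧
      S ∈ LL r ((T.erase y) \ A) := by
  rw [mem_LL, List.nodup_append, List.pairwise_append, List.nodup_cons, List.pairwise_cons]
  constructor
  · rintro ⟨⟨h1, ⟨h2, h3⟩, h4⟩, h5, h6, ⟨h7, h8⟩, h9⟩
    have hyP : y ∉ P := fun h => h4 y h y (by simp) rfl
    have hmem : ∀ a, a ∈ T ↔ a ∈ P ∨ a = y ∨ a ∈ S := by
      intro a
      rw [← h5, List.mem_toFinset, List.mem_append, List.mem_cons]
    have hU : (T.erase y) \ P.toFinset = S.toFinset := by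
      ext a
      rw [Finset.mem_sdiff, Finset.mem_erase, hmem, List.mem_toFinset, List.mem_toFinset]
      constructor
      · rintro ⟨⟨h10, h11 | h11 | h11⟩, h12⟩
        · exact absurd h11 h12
        · exact absurd h11 h10
        · exact h11
      · intro h
        refine ⟨⟨fun h' => h2 (h' ▸ h), Or.inr (Or.inr h)⟩, fun h' => ?_⟩
        exact h4 a h' a (by simp [h]) rfl
    refine ⟨P.toFinset, ⟨?_, ?_, ?_, ?_⟩, ?_, ?_⟩
    · intro a ha
      rw [List.mem_toFinset] at ha
      exact Finset.mem_erase.2 ⟨fun h => hyP (h ▸ ha), (hmem a).2 (Or.inl ha)⟩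
    · intro a ha
      rw [List.mem_toFinset] at ha
      exact h9 a ha y (by simp)
    · intro b hb
      rw [hU, List.mem_toFinset] at hb
      exact h7 b hb
    · intro a ha b hb
      rw [List.mem_toFinset] at ha
      rw [hU, List.mem_toFinset] at hb
      exact h9 a ha b (by simp [hb])
    · exact mem_LL.2 ⟨h1, rfl, h6⟩
    · exact mem_LL.2 ⟨h3, hU.symm, h8⟩
  · rintro ⟨A, ⟨c1, c2, c3, c4⟩, hP, hS⟩
    have mP := mem_of_LL hP
    have mS := mem_of_LL hS
    obtain ⟨h1, h2, h3⟩ := mem_LL.1 hP
    obtain ⟨h4, h5, h6⟩ := mem_LL.1 hS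
    have hyA : y ∉ A := fun h => (Finset.mem_erase.1 (c1 h)).1 rfl
    have hyS : y ∉ S := fun h => by
      have := (mS y).1 h
      rw [Finset.mem_sdiff, Finset.mem_erase] at this
      exact this.1.1 rfl
    refine ⟨⟨h1, ⟨hyS, h4⟩, ?_⟩, ?_, h3, ⟨?_, h6⟩, ?_⟩
    · intro a ha b hb hab
      subst hab
      have haA := (mP a).1 ha
      rcases List.mem_cons.1 hb with h | h
      · exact hyA (h ▸ haA)
      · exact (Finset.mem_sdiff.1 ((mS a).1 h)).2 haA
    · ext a
      simp only [List.toFinset_append, List.toFinset_cons, Finset.mem_union, Finset.mem_insert,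
        h2, h5, Finset.mem_sdiff, Finset.mem_erase]
      constructor
      · rintro (h | h | h)
        · exact (Finset.mem_erase.1 (c1 h)).2
        · exact h ▸ hy
        · exact h.1.2
      · intro h
        by_cases h1 : a ∈ A
        · exact Or.inl h1
        · by_cases h2 : a = y
          · exact Or.inr (Or.inl h2)
          · exact Or.inr (Or.inr ⟨⟨h2, h⟩, h1⟩)
    · intro b hb
      exact c3 b ((mS b).1 hb)
    · intro a ha b hb
      rcases List.mem_cons.1 hb with h | h
      · subst h
        exact c2 a ((mP a).1 ha)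
      · exact c4 a ((mP a).1 ha) b ((mS b).1 h)

theorem cut_inj {y : V} : ∀ {P P' S S' : List V}, y ∉ P → y ∉ P' → P ++ y :: S = P' ++ y :: S' →
    P = P' ∧ S = S' := by
  intro P
  induction P with
  | nil =>
    intro P' S S' _ h2 h
    cases P' with
    | nil => exact ⟨rfl, by simpa using h⟩
    | cons a P' =>
      rw [List.nil_append, List.cons_append] at h
      have := (List.cons.inj h).1
      exact absurd (by simp [this]) h2
  | cons a P ih =>
    intro P' S S' h1 h2 h
    cases P' with
    | nil =>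
      rw [List.nil_append, List.cons_append] at h
      have := (List.cons.inj h).1
      exact absurd (by simp [this]) h1
    | cons b P' =>
      rw [List.cons_append, List.cons_append] at h
      obtain ⟨h3, h4⟩ := List.cons.inj h
      have h5 := ih (fun hh => h1 (List.mem_cons_of_mem _ hh))
        (fun hh => h2 (List.mem_cons_of_mem _ hh)) h4
      exact ⟨by rw [h3, h5.1], h5.2⟩

/-- Cutting at `y`. -/
theorem presuf (r : V → V → Prop) {T : Finset V} {y : V} (hy : y ∈ T) (p s : List V → Prop) :
    ((LL r T).filter (fun l => ∃ P S, l = P ++ y :: S ∧ p P ∧ s S)).card =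
      ∑ A ∈ (T.erase y).powerset.filter (Cpt r (T.erase y) y),
        ((LL r A).filter p).card * ((LL r ((T.erase y) \ A)).filter s).card := by
  have h : (LL r T).filter (fun l => ∃ P S, l = P ++ y :: S ∧ p P ∧ s S) =
      ((T.erase y).powerset.filter (Cpt r (T.erase y) y)).biUnion (fun A =>
        (((LL r A).filter p) ×ˢ ((LL r ((T.erase y) \ A)).filter s)).image
          (fun q => q.1 ++ y :: q.2)) := by
    ext l
    simp only [Finset.mem_filter, Finset.mem_biUnion, Finset.mem_image, Finset.mem_powerset,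
      Finset.mem_product, Prod.exists]
    constructor
    · rintro ⟨h1, P, S, rfl, h2, h3⟩
      obtain ⟨A, hA, hP, hS⟩ := (split_mem hy).1 h1
      exact ⟨A, ⟨hA.1, hA⟩, P, S, ⟨⟨hP, h2⟩, hS, h3⟩, rfl⟩
    · rintro ⟨A, ⟨-, hA⟩, P, S, ⟨⟨hP, h2⟩, hS, h3⟩, rfl⟩
      exact ⟨(split_mem hy).2 ⟨A, hA, hP, hS⟩, P, S, rfl, h2, h3⟩
  have hinj : ∀ A ∈ (T.erase y).powerset.filter (Cpt r (T.erase y) y), ∀ P ∈ LL r A,
      y ∉ P := by
    intro A hA P hP hyP
    have h1 := (mem_of_LL hP y).1 hyP
    have h2 := (Finset.mem_powerset.1 (Finset.mem_filter.1 hA).1) h1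
    exact (Finset.mem_erase.1 h2).1 rfl
  rw [h, Finset.card_biUnion]
  · refine Finset.sum_congr rfl fun A hA => ?_
    rw [Finset.card_image_of_injOn, Finset.card_product]
    rintro ⟨P, S⟩ hq ⟨P', S'⟩ hq' heq
    rw [Finset.mem_coe, Finset.mem_product, Finset.mem_filter, Finset.mem_filter] at hq hq'
    simp only at hq hq' heq
    obtain ⟨h1, h2⟩ := cut_inj (hinj A hA P hq.1.1) (hinj A hA P' hq'.1.1) heq
    rw [h1, h2]
  · intro A hA B hB hAB
    rw [Function.onFun, Finset.disjoint_left]
    intro l hl hl'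
    rw [Finset.mem_image] at hl hl'
    obtain ⟨⟨P, S⟩, hq, rfl⟩ := hl
    obtain ⟨⟨P', S'⟩, hq', heq⟩ := hl'
    rw [Finset.mem_product, Finset.mem_filter, Finset.mem_filter] at hq hq'
    simp only at hq hq' heq
    obtain ⟨h1, h2⟩ := cut_inj (hinj B hB P' hq'.1.1) (hinj A hA P hq.1.1) heq
    apply hAB
    rw [← (mem_LL.1 hq.1.1).2.1, ← (mem_LL.1 hq'.1.1).2.1, h1]

/-! ### The bridge with permutations -/

section Bridge

variable {n : ℕ}

/-- The list of the elements, by position. -/
def lst (σ : Equiv.Perm (Fin n)) : List (Fin n) := List.ofFn (fun i => σ.symm i)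

theorem lst_length (σ : Equiv.Perm (Fin n)) : (lst σ).length = n := by simp [lst]

theorem lst_nodup (σ : Equiv.Perm (Fin n)) : (lst σ).Nodup := by
  unfold lst
  rw [List.nodup_ofFn]
  exact σ.symm.injective

theorem idxOf_lst (σ : Equiv.Perm (Fin n)) (a : Fin n) : (lst σ).idxOf a = (σ a : ℕ) := by
  have h : (σ a : ℕ) < (lst σ).length := by rw [lst_length]; exact (σ a).isLt
  have h2 := List.Nodup.idxOf_getElem (lst_nodup σ) (σ a : ℕ) h
  have h3 : (lst σ)[(σ a : ℕ)] = a := by simp [lst]
  rw [h3] at h2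
  exact h2

theorem mem_lst (σ : Equiv.Perm (Fin n)) (a : Fin n) : a ∈ lst σ := by
  unfold lst
  rw [List.mem_ofFn]
  exact ⟨σ a, by simp⟩

theorem lst_mem {r : Fin n → Fin n → Prop} (σ : Equiv.Perm (Fin n)) :
    lst σ ∈ LL r univ ↔ σ ∈ Pool.Agent.Helper8.KS.LEs r := by
  rw [mem_LL, Pool.Agent.BFT.mem_LEs]
  constructor
  · rintro ⟨-, -, h⟩ a b hab
    unfold lst at h
    rw [List.pairwise_ofFn] at h
    by_contra hcon
    push Not at hcon
    have := h hcon
    simp only [Equiv.symm_apply_apply] at this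
    exact this hab
  · intro h
    refine ⟨lst_nodup σ, ?_, ?_⟩
    · ext a
      simp [mem_lst]
    · unfold lst
      rw [List.pairwise_ofFn]
      intro i j hij hr
      have := h _ _ hr
      simp only [Equiv.apply_symm_apply] at this
      exact absurd this (not_le.2 hij)

theorem lst_injective : Function.Injective (lst (n := n)) := by
  intro σ τ h
  have h1 := List.ofFn_injective h
  have h2 : σ.symm = τ.symm := Equiv.ext fun i => congrFun h1 i
  rw [← Equiv.symm_symm σ, h2, Equiv.symm_symm]

theorem lst_surj {r : Fin n → Fin n → Prop} {l : List (Fin n)} (hl : l ∈ LL r univ) :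
    ∃ σ : Equiv.Perm (Fin n), lst σ = l := by
  obtain ⟨h1, h2, -⟩ := mem_LL.1 hl
  have hlen : l.length = n := by
    rw [← List.toFinset_card_of_nodup h1, h2, Finset.card_univ, Fintype.card_fin]
  have hinj : Function.Injective (fun i : Fin n => l.get (i.cast hlen.symm)) := by
    intro i j hij
    have := List.nodup_iff_injective_get.1 h1 hij
    exact Fin.cast_injective _ this
  refine ⟨(Equiv.ofBijective _ (Finite.injective_iff_bijective.1 hinj)).symm, ?_⟩
  unfold lst
  apply List.ext_get
  · simp [hlen]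
  · intro i hi1 hi2
    simp

/-- Permutations and lists. -/
theorem card_LEs (r : Fin n → Fin n → Prop) (p : List (Fin n) → Prop) :
    ((Pool.Agent.Helper8.KS.LEs r).filter (fun σ => p (lst σ))).card =
      ((LL r univ).filter p).card := by
  refine Finset.card_bij (fun σ _ => lst σ) ?_ ?_ ?_
  · intro σ hσ
    rw [Finset.mem_filter] at hσ ⊢
    exact ⟨(lst_mem σ).2 hσ.1, hσ.2⟩
  · intro σ _ τ _ h
    exact lst_injective h
  · intro l hl
    rw [Finset.mem_filter] at hl
    obtain ⟨σ, rfl⟩ := lst_surj hl.1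
    exact ⟨σ, Finset.mem_filter.2 ⟨(lst_mem σ).1 hl.1, hl.2⟩, rfl⟩

end Bridge

end Pool.BFT
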