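import Mathlib
import Pool.Agent.BFT.Lists

set_option autoImplicit false

/-!
# BFT: the cross product inequality on sets (helper67)
-/

namespace Pool.BFT

open Finset
open scoped Classical FinsetFamily

variable {V : Type*} [DecidableEq V]

/-- Linear extensions of `A` followed by `x`. -/
noncomputable def E1 (r : V → V → Prop) (x : V) (A : Finset V) : ℕ :=
  if ∀ a ∈ A, ¬ r x a then e r A else 0

/-- Linear extensions of `A ∪ {x}` with `x` at the last but one place. -/
noncomputable def E2 (r : V → V → Prop) (x : V) (A : Finset V) : ℕ :=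
  ∑ w ∈ A.filter (fun w => Mx r A w ∧ ¬ r w x), E1 r x (A.erase w)

/-- `x` is at the `k`-th place from the end. -/
def PB (x : V) (k : ℕ) (l : List V) : Prop := l.length = l.idxOf x + k

/-- `z` is at the `k`-th place. -/
def SB (z : V) (k : ℕ) (l : List V) : Prop := z ∈ l ∧ l.idxOf z + 1 = k

theorem pre_one (r : V → V → Prop) {x : V} {A : Finset V} (hx : x ∉ A) :
    ((LL r (insert x A)).filter (PB x 1)).card = E1 r x A := by
  rw [peel r (Finset.insert_nonempty x A)]
  have h0 : ∀ w ∈ (insert x A).filter (Mx r (insert x A)), w ≠ x →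
      ((LL r ((insert x A).erase w)).filter
        (fun l => PB x 1 (l ++ [w]))).card = 0 := by
    intro w _ hwx
    rw [Finset.card_eq_zero, Finset.filter_eq_empty_iff]
    intro l hl
    unfold PB
    have hxl : x ∈ l := (mem_of_LL hl x).2
      (Finset.mem_erase.2 ⟨Ne.symm hwx, Finset.mem_insert_self _ _⟩)
    rw [List.idxOf_append_of_mem hxl, List.length_append, List.length_singleton]
    have := List.idxOf_lt_length_iff.2 hxl
    omega
  unfold E1
  split_ifs with h
  · have hmem : x ∈ (insert x A).filter (Mx r (insert x A)) := by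
      refine Finset.mem_filter.2 ⟨Finset.mem_insert_self _ _, fun b hb hxb => ?_⟩
      rcases Finset.mem_insert.1 hb with hb | hb
      · exact hb
      · exact absurd hxb (h b hb)
    rw [Finset.sum_eq_single_of_mem x hmem h0, Finset.erase_insert hx, ← card_LL' r A,
      Finset.filter_true_of_mem]
    intro l hl
    have hxl : x ∉ l := fun h' => hx ((mem_of_LL hl x).1 h')
    unfold PB
    rw [List.idxOf_append_of_notMem hxl]
    simp
  · refine Finset.sum_eq_zero fun w hw => ?_
    by_cases hwx : w = x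
    · subst hwx
      exfalso
      apply h
      intro a ha hwa
      have := (Finset.mem_filter.1 hw).2 a (Finset.mem_insert_of_mem ha) hwa
      exact hx (this ▸ ha)
    · exact h0 w hw hwx

theorem pre_two (r : V → V → Prop) {x : V} {A : Finset V} (hx : x ∉ A) :
    ((LL r (insert x A)).filter (PB x 2)).card = E2 r x A := by
  rw [peel r (Finset.insert_nonempty x A)]
  unfold E2
  have h1 : ∀ w, w ∈ A.filter (fun w => Mx r A w ∧ ¬ r w x) →
      w ∈ (insert x A).filter (Mx r (insert x A)) := by
    intro w hw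
    obtain ⟨hwA, h2, h3⟩ := Finset.mem_filter.1 hw
    refine Finset.mem_filter.2 ⟨Finset.mem_insert_of_mem hwA, fun b hb hwb => ?_⟩
    rcases Finset.mem_insert.1 hb with hb | hb
    · subst hb; exact absurd hwb h3
    · exact h2 b hb hwb
  rw [← Finset.sum_subset (fun w hw => h1 w hw)]
  · refine Finset.sum_congr rfl fun w hw => ?_
    obtain ⟨hwA, h2, h3⟩ := Finset.mem_filter.1 hw
    have hwx : w ≠ x := fun h => hx (h ▸ hwA)
    have hxe : x ∉ A.erase w := fun h => hx (Finset.mem_erase.1 h).2
    have hins : (insert x A).erase w = insert x (A.erase w) := by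
      rw [Finset.erase_insert_of_ne (Ne.symm hwx)]
    rw [hins, ← pre_one r hxe]
    congr 1
    refine Finset.filter_congr fun l hl => ?_
    have hxl : x ∈ l := (mem_of_LL hl x).2 (Finset.mem_insert_self _ _)
    unfold PB
    rw [List.idxOf_append_of_mem hxl, List.length_append, List.length_singleton]
    omega
  · intro w hw hnot
    rw [Finset.card_eq_zero, Finset.filter_eq_empty_iff]
    intro l hl
    obtain ⟨hwI, hwM⟩ := Finset.mem_filter.1 hw
    by_cases hwx : w = x
    · subst hwx
      have hxl : w ∉ l := fun h' => (Finset.mem_erase.1 ((mem_of_LL hl w).1 h')).1 rfl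
      unfold PB
      rw [List.idxOf_append_of_notMem hxl]
      simp
    · exfalso
      apply hnot
      have hwA : w ∈ A := Finset.mem_of_mem_insert_of_ne hwI hwx
      refine Finset.mem_filter.2 ⟨hwA, fun b hb hwb => hwM b (Finset.mem_insert_of_mem hb) hwb,
        fun hwx' => hwx (hwM x (Finset.mem_insert_self _ _) hwx').symm⟩

theorem idx_reverse {z : V} {l : List V} (hl : l.Nodup) (hz : z ∈ l) :
    l.reverse.idxOf z + l.idxOf z + 1 = l.length := by
  obtain ⟨s, t, rfl⟩ := List.append_of_mem hz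
  rw [List.nodup_append, List.nodup_cons] at hl
  obtain ⟨-, ⟨h1, -⟩, h2⟩ := hl
  have hzs : z ∉ s := fun h => h2 z h z (by simp) rfl
  have hrev : (s ++ z :: t).reverse = t.reverse ++ z :: s.reverse := by simp
  rw [hrev, List.idxOf_append_of_notMem (by simpa using h1), List.idxOf_append_of_notMem hzs]
  simp
  omega

theorem suf_gen (r : V → V → Prop) {z : V} {U : Finset V} (l : ℕ) :
    ((LL r (insert z U)).filter (SB z l)).card =
    ((LL (fun a b => r b a) (insert z U)).filter (PB z l)).card := by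
  rw [card_reverse]
  congr 1
  refine Finset.filter_congr fun T hT => ?_
  unfold SB PB
  have hz : z ∈ T := (mem_of_LL hT z).2 (Finset.mem_insert_self _ _)
  have h1 := idx_reverse (mem_LL.1 hT).1 hz
  constructor
  · rintro ⟨-, h2⟩; omega
  · intro h2
    exact ⟨by simpa using hz, by omega⟩

/-! ### The claim -/

theorem Dn_inter {r : V → V → Prop} {Q A B : Finset V} (hA : Dn r Q A) (hB : Dn r Q B) :
    Dn r Q (A ∩ B) := by
  refine ⟨Finset.inter_subset_left.trans hA.1, fun a ha b hb hba => ?_⟩
  rw [Finset.mem_inter] at ha ⊢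
  exact ⟨hA.2 a ha.1 b hb hba, hB.2 a ha.2 b hb hba⟩

theorem Dn_union {r : V → V → Prop} {Q A B : Finset V} (hA : Dn r Q A) (hB : Dn r Q B) :
    Dn r Q (A ∪ B) := by
  refine ⟨Finset.union_subset hA.1 hB.1, fun a ha b hb hba => ?_⟩
  rw [Finset.mem_union] at ha ⊢
  rcases ha with ha | ha
  · exact Or.inl (hA.2 a ha b hb hba)
  · exact Or.inr (hB.2 a ha b hb hba)

theorem Dn_erase {r : V → V → Prop} {Q A : Finset V} {w : V} (hA : Dn r Q A) (hw : w ∈ A)
    (hM : Mx r A w) : Dn r Q (A.erase w) := by
  refine ⟨(Finset.erase_subset _ _).trans hA.1, fun a ha b hb hba => ?_⟩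
  rw [Finset.mem_erase] at ha ⊢
  refine ⟨?_, hA.2 a ha.2 b hb hba⟩
  rintro rfl
  exact ha.1 (hM a ha.2 hba)

theorem E2_split (r : V → V → Prop) (x : V) {B : Finset V} (hne : B.Nonempty)
    (hB : ∀ b ∈ B, ¬ r x b) :
    e r B = E2 r x B + ∑ w ∈ B.filter (fun w => Mx r B w ∧ r w x), e r (B.erase w) := by
  rw [e_rec r hne]
  unfold E2
  have h1 : ∀ w ∈ B.filter (fun w => Mx r B w ∧ ¬ r w x), E1 r x (B.erase w) =
      e r (B.erase w) := by
    intro w _
    unfold E1
    rw [if_pos]
    intro a ha
    exact hB a (Finset.mem_erase.1 ha).2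
  rw [Finset.sum_congr rfl h1, ← Finset.filter_filter, ← Finset.filter_filter, add_comm]
  rw [Finset.sum_filter_add_sum_filter_not]

theorem claim {r : V → V → Prop} (htr : ∀ a b c, r a b → r b c → r a c)
    (has : ∀ a b, r a b → r b a → a = b) {Q A B : Finset V} {x : V}
    (hA : Dn r Q A) (hB : Dn r Q B) (hx : ∀ b ∈ Q, r b x → b ∈ A ∧ b ∈ B) :
    E1 r x A * E2 r x B ≤ E1 r x (A ∩ B) * E2 r x (A ∪ B) := by
  by_cases h1 : ∀ a ∈ A, ¬ r x a
  swap
  · have : E1 r x A = 0 := by unfold E1; rw [if_neg h1]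
    rw [this, zero_mul]; exact Nat.zero_le _
  have hE1 : E1 r x A = e r A := by unfold E1; rw [if_pos h1]
  have hE1' : E1 r x (A ∩ B) = e r (A ∩ B) := by
    unfold E1; rw [if_pos]
    exact fun a ha => h1 a (Finset.mem_inter.1 ha).1
  rw [hE1, hE1']
  by_cases h2 : ∀ b ∈ B, ¬ r x b
  · rcases B.eq_empty_or_nonempty with rfl | hne
    · have : E2 r x ∅ = 0 := by unfold E2; simp
      rw [this, mul_zero]; exact Nat.zero_le _
    have h3 : ∀ b ∈ A ∪ B, ¬ r x b := by
      intro b hb
      rcases Finset.mem_union.1 hb with hb | hb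
      · exact h1 b hb
      · exact h2 b hb
    have hne' : (A ∪ B).Nonempty := hne.mono Finset.subset_union_right
    have e1 := E2_split r x hne h2
    have e2 := E2_split r x hne' h3
    set SB := ∑ w ∈ B.filter (fun w => Mx r B w ∧ r w x), e r (B.erase w) with hSB
    set SU := ∑ w ∈ (A ∪ B).filter (fun w => Mx r (A ∪ B) w ∧ r w x), e r ((A ∪ B).erase w)
      with hSU
    have hkey : SU * e r B ≤ e r (A ∪ B) * SB := by
      rw [hSU, hSB, Finset.sum_mul, Finset.mul_sum]
      have hsub : (A ∪ B).filter (fun w => Mx r (A ∪ B) w ∧ r w x) ⊆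
          B.filter (fun w => Mx r B w ∧ r w x) := by
        intro w hw
        obtain ⟨hw1, hw2, hw3⟩ := Finset.mem_filter.1 hw
        have hwQ : w ∈ Q := (Dn_union hA hB).1 hw1
        have := hx w hwQ hw3
        exact Finset.mem_filter.2 ⟨this.2, fun b hb hwb =>
          hw2 b (Finset.mem_union_right _ hb) hwb, hw3⟩
      refine le_trans ?_ (Finset.sum_le_sum_of_subset hsub)
      refine Finset.sum_le_sum fun w hw => ?_
      obtain ⟨hw1, hw2, hw3⟩ := Finset.mem_filter.1 hw
      have hwB := (Finset.mem_filter.1 (hsub hw)).1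
      have h4 := u1 r Q ((A ∪ B).erase w) B (Dn_erase (Dn_union hA hB) hw1 hw2) hB
      have h5 : (A ∪ B).erase w ∩ B = B.erase w := by
        ext a
        simp only [Finset.mem_inter, Finset.mem_erase, Finset.mem_union]
        tauto
      have h6 : (A ∪ B).erase w ∪ B = A ∪ B := by
        ext a
        simp only [Finset.mem_erase, Finset.mem_union]
        constructor
        · tauto
        · intro h
          by_cases haw : a = w
          · subst haw; exact Or.inr hwB
          · rcases h with h | h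
            · exact Or.inl ⟨haw, Or.inl h⟩
            · exact Or.inr h
      rw [h5, h6] at h4
      calc e r ((A ∪ B).erase w) * e r B ≤ e r (B.erase w) * e r (A ∪ B) := h4
        _ = e r (A ∪ B) * e r (B.erase w) := mul_comm _ _
    have hpos : 0 < e r (A ∪ B) := e_pos' r htr has _
    have hu := u1 r Q A B hA hB
    -- E2 B * e(A ∪ B) ≤ e B * E2 (A ∪ B)
    have h7 : E2 r x B * e r (A ∪ B) ≤ e r B * E2 r x (A ∪ B) := by
      have a1 : e r B * e r (A ∪ B) = E2 r x B * e r (A ∪ B) + SB * e r (A ∪ B) := by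
        rw [e1]; ring
      have a2 : e r B * e r (A ∪ B) = e r B * E2 r x (A ∪ B) + e r B * SU := by
        conv_lhs => rw [e2]
        ring
      have a3 : e r B * SU ≤ SB * e r (A ∪ B) := by
        rw [mul_comm (e r B), mul_comm SB]; exact hkey
      omega
    refine Nat.le_of_mul_le_mul_right ?_ hpos
    calc e r A * E2 r x B * e r (A ∪ B) = e r A * (E2 r x B * e r (A ∪ B)) := by ring
      _ ≤ e r A * (e r B * E2 r x (A ∪ B)) := Nat.mul_le_mul_left _ h7
      _ = (e r A * e r B) * E2 r x (A ∪ B) := by ring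
      _ ≤ (e r (A ∩ B) * e r (A ∪ B)) * E2 r x (A ∪ B) := Nat.mul_le_mul_right _ hu
      _ = e r (A ∩ B) * E2 r x (A ∪ B) * e r (A ∪ B) := by ring
  · push Not at h2
    obtain ⟨b0, hb0, hxb0⟩ := h2
    -- the only possible index is b0
    by_cases h3 : b0 ∈ B.filter (fun w => Mx r B w ∧ ¬ r w x) ∧ ∀ a ∈ B.erase b0, ¬ r x a
    · obtain ⟨h4, h5⟩ := h3
      obtain ⟨-, h6, h7⟩ := Finset.mem_filter.1 h4
      have hE2 : E2 r x B = e r (B.erase b0) := by
        unfold E2
        rw [Finset.sum_eq_single_of_mem b0 h4]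
        · unfold E1; rw [if_pos h5]
        · intro w _ hw
          unfold E1
          rw [if_neg]
          intro h8
          exact h8 b0 (Finset.mem_erase.2 ⟨Ne.symm hw, hb0⟩) hxb0
      have hb0A : b0 ∉ A := fun h => h1 b0 h hxb0
      have h9 := u1 r Q A (B.erase b0) hA (Dn_erase hB hb0 h6)
      have h10 : A ∩ B.erase b0 = A ∩ B := by
        ext a
        simp only [Finset.mem_inter, Finset.mem_erase]
        constructor
        · tauto
        · rintro ⟨h11, h12⟩
          exact ⟨h11, fun h => hb0A (h ▸ h11), h12⟩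
      have h11 : A ∪ B.erase b0 = (A ∪ B).erase b0 := by
        ext a
        simp only [Finset.mem_union, Finset.mem_erase]
        constructor
        · rintro (h | h)
          · exact ⟨fun h' => hb0A (h' ▸ h), Or.inl h⟩
          · exact ⟨h.1, Or.inr h.2⟩
        · tauto
      rw [h10, h11] at h9
      rw [hE2]
      refine h9.trans (Nat.mul_le_mul_left _ ?_)
      have hmem : b0 ∈ (A ∪ B).filter (fun w => Mx r (A ∪ B) w ∧ ¬ r w x) := by
        refine Finset.mem_filter.2 ⟨Finset.mem_union_right _ hb0, fun b hb hb0b => ?_, h7⟩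
        rcases Finset.mem_union.1 hb with hb | hb
        · exact absurd (htr _ _ _ hxb0 hb0b) (h1 b hb)
        · exact h6 b hb hb0b
      have hval : E1 r x ((A ∪ B).erase b0) = e r ((A ∪ B).erase b0) := by
        unfold E1
        rw [if_pos]
        intro a ha
        rw [← h11] at ha
        rcases Finset.mem_union.1 ha with ha | ha
        · exact h1 a ha
        · exact h5 a ha
      rw [← hval]
      unfold E2
      exact Finset.single_le_sum (f := fun w => E1 r x ((A ∪ B).erase w))
        (fun _ _ => Nat.zero_le _) hmem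
    · have hE2 : E2 r x B = 0 := by
        unfold E2
        refine Finset.sum_eq_zero fun w hw => ?_
        unfold E1
        rw [if_neg]
        intro h4
        by_cases hwb : w = b0
        · subst hwb
          exact h3 ⟨hw, h4⟩
        · exact h4 b0 (Finset.mem_erase.2 ⟨Ne.symm hwb, hb0⟩) hxb0
      rw [hE2, mul_zero]; exact Nat.zero_le _

/-! ### Compatible sets form a sublattice -/

theorem Cpt_inter {r : V → V → Prop} {Q A B : Finset V} {y : V} (hA : Cpt r Q y A)
    (hB : Cpt r Q y B) : Cpt r Q y (A ∩ B) := by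
  obtain ⟨a1, a2, a3, a4⟩ := hA
  obtain ⟨b1, b2, b3, b4⟩ := hB
  refine ⟨Finset.inter_subset_left.trans a1, fun a ha => a2 a (Finset.mem_inter.1 ha).1, ?_, ?_⟩
  · intro b hb
    rw [Finset.mem_sdiff, Finset.mem_inter] at hb
    by_cases h : b ∈ A
    · exact b3 b (Finset.mem_sdiff.2 ⟨hb.1, fun h' => hb.2 ⟨h, h'⟩⟩)
    · exact a3 b (Finset.mem_sdiff.2 ⟨hb.1, h⟩)
  · intro a ha b hb
    rw [Finset.mem_sdiff, Finset.mem_inter] at hb
    rw [Finset.mem_inter] at ha
    by_cases h : b ∈ A
    · exact b4 a ha.2 b (Finset.mem_sdiff.2 ⟨hb.1, fun h' => hb.2 ⟨h, h'⟩⟩)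
    · exact a4 a ha.1 b (Finset.mem_sdiff.2 ⟨hb.1, h⟩)

theorem Cpt_union {r : V → V → Prop} {Q A B : Finset V} {y : V} (hA : Cpt r Q y A)
    (hB : Cpt r Q y B) : Cpt r Q y (A ∪ B) := by
  obtain ⟨a1, a2, a3, a4⟩ := hA
  obtain ⟨b1, b2, b3, b4⟩ := hB
  refine ⟨Finset.union_subset a1 b1, fun a ha => ?_, ?_, ?_⟩
  · rcases Finset.mem_union.1 ha with ha | ha
    · exact a2 a ha
    · exact b2 a ha
  · intro b hb
    rw [Finset.mem_sdiff, Finset.mem_union, not_or] at hb
    exact a3 b (Finset.mem_sdiff.2 ⟨hb.1, hb.2.1⟩)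
  · intro a ha b hb
    rw [Finset.mem_sdiff, Finset.mem_union, not_or] at hb
    rcases Finset.mem_union.1 ha with ha | ha
    · exact a4 a ha b (Finset.mem_sdiff.2 ⟨hb.1, hb.2.1⟩)
    · exact b4 a ha b (Finset.mem_sdiff.2 ⟨hb.1, hb.2.2⟩)

end Pool.BFT
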