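import Mathlib
import Pool.Agent.BFT.Defs
import Pool.Agent.BFT.CPCore

/-! # The cross product inequality and the XYZ inequality (owner: helper67) -/

set_option autoImplicit false

namespace Pool.BFT

open Finset
open scoped Classical FinsetFamily

variable {V : Type*} [DecidableEq V]

/-- The summand at the set `A` of elements other than `x` before `y`. -/
noncomputable def fA (r : V → V → Prop) (Q' Q : Finset V) (x y z : V) (k l : ℕ)
    (A : Finset V) : ℕ :=
  if Cpt r Q' y (insert x A) then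
    ((LL r (insert x A)).filter (PB x k)).card *
      ((LL r (insert z (Q \ A))).filter (SB z l)).card
  else 0

theorem sum_fA (r : V → V → Prop) {T : Finset V} {x y z : V} (hx : x ∈ T) (hy : y ∈ T)
    (hz : z ∈ T) (hxy : x ≠ y) (hyz : y ≠ z) (hxz : x ≠ z) (k l : ℕ) (hk : 1 ≤ k) :
    ((LL r T).filter (fun L => ∃ P S, L = P ++ y :: S ∧ PB x k P ∧ SB z l S)).card =
      ∑ A ∈ (((T.erase y).erase x).erase z).powerset,
        fA r (T.erase y) (((T.erase y).erase x).erase z) x y z k l A := by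
  rw [presuf r hy (PB x k) (SB z l)]
  set Q' := T.erase y with hQ'
  set Q := (Q'.erase x).erase z with hQ
  have hxQ : x ∉ Q := by rw [hQ]; simp
  have hzQ : z ∉ Q := by rw [hQ]; simp
  unfold fA
  rw [← Finset.sum_filter]
  have hinj : Set.InjOn (fun A => insert x A)
      ((Q.powerset.filter (fun A => Cpt r Q' y (insert x A)) : Finset (Finset V)) : Set (Finset V)) := by
    intro A hA B hB hAB
    have hA' := Finset.mem_powerset.1 (Finset.mem_filter.1 (Finset.mem_coe.1 hA)).1
    have hB' := Finset.mem_powerset.1 (Finset.mem_filter.1 (Finset.mem_coe.1 hB)).1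
    have hAB' : insert x A = insert x B := hAB
    have h1 : (insert x A).erase x = A := Finset.erase_insert (fun h => hxQ (hA' h))
    have h2 : (insert x B).erase x = B := Finset.erase_insert (fun h => hxQ (hB' h))
    rw [← h1, hAB', h2]
  have hQsub : ∀ A, A ⊆ Q → insert x A ⊆ Q' := by
    intro A hA a ha
    rcases Finset.mem_insert.1 ha with ha | ha
    · rw [ha, hQ']; exact Finset.mem_erase.2 ⟨hxy, hx⟩
    · have := hA ha
      rw [hQ] at this
      exact (Finset.mem_erase.1 (Finset.mem_erase.1 this).2).2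
  have hsub : (Q.powerset.filter (fun A => Cpt r Q' y (insert x A))).image (fun A => insert x A) ⊆
      Q'.powerset.filter (Cpt r Q' y) := by
    intro B hB
    obtain ⟨A, hA, rfl⟩ := Finset.mem_image.1 hB
    obtain ⟨h1, h2⟩ := Finset.mem_filter.1 hA
    exact Finset.mem_filter.2 ⟨Finset.mem_powerset.2 (hQsub A (Finset.mem_powerset.1 h1)), h2⟩
  rw [← Finset.sum_subset hsub, Finset.sum_image hinj]
  · refine Finset.sum_congr rfl fun A hA => ?_
    obtain ⟨h1, h2⟩ := Finset.mem_filter.1 hA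
    have hAQ := Finset.mem_powerset.1 h1
    have h3 : Q' \ insert x A = insert z (Q \ A) := by
      ext a
      have hma : a ∈ Q ↔ a ≠ z ∧ a ≠ x ∧ a ∈ Q' := by
        rw [hQ, Finset.mem_erase, Finset.mem_erase]
      rw [Finset.mem_sdiff, Finset.mem_insert, Finset.mem_insert, Finset.mem_sdiff, hma]
      constructor
      · rintro ⟨h4, h5⟩
        rw [not_or] at h5
        by_cases haz : a = z
        · exact Or.inl haz
        · exact Or.inr ⟨⟨haz, h5.1, h4⟩, h5.2⟩
      · rintro (h4 | ⟨⟨h4, h5, h6⟩, h7⟩)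
        · subst h4
          refine ⟨by rw [hQ']; exact Finset.mem_erase.2 ⟨Ne.symm hyz, hz⟩, ?_⟩
          rintro (h5 | h5)
          · exact hxz h5.symm
          · exact hzQ (hAQ h5)
        · exact ⟨h6, by rw [not_or]; exact ⟨h5, h7⟩⟩
    rw [h3]
  · intro B hB hnot
    obtain ⟨h1, h2⟩ := Finset.mem_filter.1 hB
    have hBQ := Finset.mem_powerset.1 h1
    by_cases hxB : x ∈ B
    · by_cases hzB : z ∈ B
      · have : ((LL r (Q' \ B)).filter (SB z l)).card = 0 := by
          rw [Finset.card_eq_zero, Finset.filter_eq_empty_iff]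
          intro S hS hSB
          have := (mem_of_LL hS z).1 hSB.1
          exact (Finset.mem_sdiff.1 this).2 hzB
        rw [this, mul_zero]
      · exfalso
        apply hnot
        have h4 : insert x (B.erase x) = B := Finset.insert_erase hxB
        refine Finset.mem_image.2 ⟨B.erase x, Finset.mem_filter.2 ⟨?_, ?_⟩, h4⟩
        · rw [Finset.mem_powerset]
          intro a ha
          obtain ⟨h5, h6⟩ := Finset.mem_erase.1 ha
          rw [hQ]
          refine Finset.mem_erase.2 ⟨fun h => hzB (h ▸ h6), Finset.mem_erase.2 ⟨h5, hBQ h6⟩⟩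
        · rw [h4]; exact h2
    · have : ((LL r B).filter (PB x k)).card = 0 := by
        rw [Finset.card_eq_zero, Finset.filter_eq_empty_iff]
        intro P hP hPB
        have hxP : x ∉ P := fun h => hxB ((mem_of_LL hP x).1 h)
        unfold PB at hPB
        rw [List.idxOf_eq_length hxP] at hPB
        omega
      rw [this, zero_mul]

/-- The pointwise inequality for the four functions theorem. -/
theorem fA_four {r : V → V → Prop} (htr : ∀ a b c, r a b → r b c → r a c)
    (has : ∀ a b, r a b → r b a → a = b) {T : Finset V} {x y z : V}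
    (hz : z ∈ T) (hyz : y ≠ z) (hxz : x ≠ z) {A B : Finset V}
    (hAQ : A ⊆ ((T.erase y).erase x).erase z) (hBQ : B ⊆ ((T.erase y).erase x).erase z) :
    fA r (T.erase y) (((T.erase y).erase x).erase z) x y z 1 1 A *
      fA r (T.erase y) (((T.erase y).erase x).erase z) x y z 2 2 B ≤
    fA r (T.erase y) (((T.erase y).erase x).erase z) x y z 1 2 (A ∩ B) *
      fA r (T.erase y) (((T.erase y).erase x).erase z) x y z 2 1 (A ∪ B) := by
  set Q' := T.erase y with hQ'
  set Q := (Q'.erase x).erase z with hQ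
  have hxQ : x ∉ Q := by rw [hQ]; simp
  have hzQ : z ∉ Q := by rw [hQ]; simp
  by_cases hA : Cpt r Q' y (insert x A)
  swap
  · have : fA r Q' Q x y z 1 1 A = 0 := by unfold fA; rw [if_neg hA]
    rw [this, zero_mul]; exact Nat.zero_le _
  by_cases hB : Cpt r Q' y (insert x B)
  swap
  · have : fA r Q' Q x y z 2 2 B = 0 := by unfold fA; rw [if_neg hB]
    rw [this, mul_zero]; exact Nat.zero_le _
  have hI : Cpt r Q' y (insert x (A ∩ B)) := by
    rw [Finset.insert_inter_distrib]; exact Cpt_inter hA hB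
  have hU : Cpt r Q' y (insert x (A ∪ B)) := by
    have : insert x (A ∪ B) = insert x A ∪ insert x B := by
      ext a; simp only [Finset.mem_insert, Finset.mem_union]; tauto
    rw [this]; exact Cpt_union hA hB
  unfold fA
  rw [if_pos hA, if_pos hB, if_pos hI, if_pos hU]
  rw [suf_gen, suf_gen, suf_gen, suf_gen]
  have hzU : ∀ C : Finset V, z ∉ Q \ C := fun C h => hzQ (Finset.mem_sdiff.1 h).1
  rw [pre_one r (fun h => hxQ (hAQ h)), pre_two r (fun h => hxQ (hBQ h)),
    pre_one r (fun h => hxQ (hAQ (Finset.mem_inter.1 h).1)),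
    pre_two r (fun h => hxQ (Finset.union_subset hAQ hBQ h)),
    pre_one _ (hzU _), pre_two _ (hzU _), pre_one _ (hzU _), pre_two _ (hzU _)]
  -- membership in Q and Q'
  have hQQ' : ∀ b ∈ Q, b ∈ Q' ∧ b ≠ x ∧ b ≠ z := by
    intro b hb
    rw [hQ, Finset.mem_erase, Finset.mem_erase] at hb
    exact ⟨hb.2.2, hb.2.1, hb.1⟩
  have hzQ' : z ∈ Q' := by rw [hQ']; exact Finset.mem_erase.2 ⟨Ne.symm hyz, hz⟩
  have hDn : ∀ C, C ⊆ Q → Cpt r Q' y (insert x C) → Dn r Q C := by
    intro C hC hCC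
    refine ⟨hC, fun a ha b hb hba => ?_⟩
    by_contra hbC
    obtain ⟨h1, h2, h3⟩ := hQQ' b hb
    refine hCC.2.2.2 a (Finset.mem_insert_of_mem ha) b (Finset.mem_sdiff.2 ⟨h1, ?_⟩) hba
    rw [Finset.mem_insert, not_or]
    exact ⟨h2, hbC⟩
  have hUp : ∀ C, C ⊆ Q → Cpt r Q' y (insert x C) → Dn (fun a b => r b a) Q (Q \ C) := by
    intro C hC hCC
    refine ⟨Finset.sdiff_subset, fun a ha b hb hab => ?_⟩
    rw [Finset.mem_sdiff] at ha ⊢
    refine ⟨hb, fun hbC => ?_⟩
    obtain ⟨h1, h2, h3⟩ := hQQ' a ha.1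
    refine hCC.2.2.2 b (Finset.mem_insert_of_mem hbC) a (Finset.mem_sdiff.2 ⟨h1, ?_⟩) hab
    rw [Finset.mem_insert, not_or]
    exact ⟨h2, ha.2⟩
  have hxin : ∀ C, Cpt r Q' y (insert x C) → ∀ b ∈ Q, r b x → b ∈ C := by
    intro C hCC b hb hbx
    by_contra hbC
    obtain ⟨h1, h2, h3⟩ := hQQ' b hb
    refine hCC.2.2.2 x (Finset.mem_insert_self _ _) b (Finset.mem_sdiff.2 ⟨h1, ?_⟩) hbx
    rw [Finset.mem_insert, not_or]
    exact ⟨h2, hbC⟩
  have hzin : ∀ C, C ⊆ Q → Cpt r Q' y (insert x C) → ∀ b ∈ Q, r z b → b ∈ Q \ C := by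
    intro C hC hCC b hb hzb
    rw [Finset.mem_sdiff]
    refine ⟨hb, fun hbC => ?_⟩
    refine hCC.2.2.2 b (Finset.mem_insert_of_mem hbC) z (Finset.mem_sdiff.2 ⟨hzQ', ?_⟩) hzb
    rw [Finset.mem_insert, not_or]
    exact ⟨Ne.symm hxz, fun h => hzQ (hC h)⟩
  have c1 := claim htr has (hDn A hAQ hA) (hDn B hBQ hB)
    (fun b hb hbx => ⟨hxin A hA b hb hbx, hxin B hB b hb hbx⟩)
  have c2 := claim (r := fun a b => r b a) (fun a b c h1 h2 => htr c b a h2 h1)
    (fun a b h1 h2 => has a b h2 h1) (hUp A hAQ hA) (hUp B hBQ hB)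
    (fun b hb hbx => ⟨hzin A hAQ hA b hb hbx, hzin B hBQ hB b hb hbx⟩)
  have s1 : (Q \ A) ∩ (Q \ B) = Q \ (A ∪ B) := by
    ext a; simp only [Finset.mem_inter, Finset.mem_sdiff, Finset.mem_union]; tauto
  have s2 : (Q \ A) ∪ (Q \ B) = Q \ (A ∩ B) := by
    ext a; simp only [Finset.mem_inter, Finset.mem_sdiff, Finset.mem_union]; tauto
  rw [s1, s2] at c2
  calc E1 r x A * E1 (fun a b => r b a) z (Q \ A) *
        (E2 r x B * E2 (fun a b => r b a) z (Q \ B))
      = (E1 r x A * E2 r x B) *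
        (E1 (fun a b => r b a) z (Q \ A) * E2 (fun a b => r b a) z (Q \ B)) := by ring
    _ ≤ (E1 r x (A ∩ B) * E2 r x (A ∪ B)) *
        (E1 (fun a b => r b a) z (Q \ (A ∪ B)) * E2 (fun a b => r b a) z (Q \ (A ∩ B))) :=
        Nat.mul_le_mul c1 c2
    _ = _ := by ring

/-- The cross product inequality for lists. -/
theorem cross_LL {r : V → V → Prop} (htr : ∀ a b c, r a b → r b c → r a c)
    (has : ∀ a b, r a b → r b a → a = b) {T : Finset V} {x y z : V} (hx : x ∈ T) (hy : y ∈ T)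
    (hz : z ∈ T) (hxy : x ≠ y) (hyz : y ≠ z) (hxz : x ≠ z) :
    ((LL r T).filter (fun L => ∃ P S, L = P ++ y :: S ∧ PB x 1 P ∧ SB z 1 S)).card *
      ((LL r T).filter (fun L => ∃ P S, L = P ++ y :: S ∧ PB x 2 P ∧ SB z 2 S)).card ≤
    ((LL r T).filter (fun L => ∃ P S, L = P ++ y :: S ∧ PB x 1 P ∧ SB z 2 S)).card *
      ((LL r T).filter (fun L => ∃ P S, L = P ++ y :: S ∧ PB x 2 P ∧ SB z 1 S)).card := by
  rw [sum_fA r hx hy hz hxy hyz hxz 1 1 le_rfl, sum_fA r hx hy hz hxy hyz hxz 2 2 (by norm_num),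
    sum_fA r hx hy hz hxy hyz hxz 1 2 le_rfl, sum_fA r hx hy hz hxy hyz hxz 2 1 (by norm_num)]
  set Q := ((T.erase y).erase x).erase z with hQ
  have key := Finset.four_functions_theorem (β := ℕ) Q
    (f₁ := fA r (T.erase y) Q x y z 1 1) (f₂ := fA r (T.erase y) Q x y z 2 2)
    (f₃ := fA r (T.erase y) Q x y z 1 2) (f₄ := fA r (T.erase y) Q x y z 2 1)
    (fun _ => Nat.zero_le _) (fun _ => Nat.zero_le _) (fun _ => Nat.zero_le _)
    (fun _ => Nat.zero_le _)
    (fun s hs t ht => fA_four htr has hz hyz hxz hs ht)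
    (𝒜 := Q.powerset) (ℬ := Q.powerset) subset_rfl subset_rfl
  simpa only [Finset.powerset_sups_powerset_self, Finset.powerset_infs_powerset_self] using key

/-! ### The XYZ inequality for lists -/

/-- Number of linear extensions such that `A` is the set of the elements before `y`. -/
noncomputable def WA (r : V → V → Prop) (Q' : Finset V) (y : V) (A : Finset V) : ℕ :=
  if Cpt r Q' y A then e r A * e r (Q' \ A) else 0

/-- `z` is on the list, or `p`. -/
def MB (z : V) (p : Prop) (P : List V) : Prop := z ∈ P ∨ p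

/-- The summand with the conditions on `z` and `x`. -/
noncomputable def WB (r : V → V → Prop) (Q : Finset V) (y x z : V) (a b : Prop)
    (A : Finset V) : ℕ :=
  if (z ∈ A ∨ a) ∧ (x ∈ Q \ A ∨ b) then WA r Q y A else 0

theorem sum_WA (r : V → V → Prop) {T : Finset V} {y : V} (hy : y ∈ T) (a b : Prop)
    (x z : V) :
    ((LL r T).filter (fun L => ∃ P S, L = P ++ y :: S ∧ MB z a P ∧ MB x b S)).card =
      ∑ A ∈ (T.erase y).powerset, WB r (T.erase y) y x z a b A := by
  rw [presuf r hy (MB z a) (MB x b)]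
  rw [Finset.sum_filter]
  refine Finset.sum_congr rfl fun A _ => ?_
  unfold WB WA
  by_cases hC : Cpt r (T.erase y) y A
  · rw [if_pos hC, if_pos hC]
    by_cases h1 : z ∈ A ∨ a
    · by_cases h2 : x ∈ (T.erase y) \ A ∨ b
      · rw [if_pos ⟨h1, h2⟩, Finset.filter_true_of_mem, Finset.filter_true_of_mem, card_LL',
          card_LL']
        · intro S hS
          rcases h2 with h2 | h2
          · exact Or.inl ((mem_of_LL hS x).2 h2)
          · exact Or.inr h2
        · intro P hP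
          rcases h1 with h1 | h1
          · exact Or.inl ((mem_of_LL hP z).2 h1)
          · exact Or.inr h1
      · have h0 : ((LL r (T.erase y \ A)).filter (MB x b)).card = 0 := by
          rw [Finset.card_eq_zero, Finset.filter_eq_empty_iff]
          intro S hS hh
          apply h2
          rcases hh with hh | hh
          · exact Or.inl ((mem_of_LL hS x).1 hh)
          · exact Or.inr hh
        rw [if_neg (fun h => h2 h.2), h0, mul_zero]
    · have h0 : ((LL r A).filter (MB z a)).card = 0 := by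
        rw [Finset.card_eq_zero, Finset.filter_eq_empty_iff]
        intro P hP hh
        apply h1
        rcases hh with hh | hh
        · exact Or.inl ((mem_of_LL hP z).1 hh)
        · exact Or.inr hh
      rw [if_neg (fun h => h1 h.1), h0, zero_mul]
  · rw [if_neg hC, if_neg hC]
    split_ifs <;> rfl

theorem WA_super {r : V → V → Prop} {Q' : Finset V} {y : V} {A B : Finset V} :
    WA r Q' y A * WA r Q' y B ≤ WA r Q' y (A ∩ B) * WA r Q' y (A ∪ B) := by
  by_cases hA : Cpt r Q' y A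
  swap
  · have : WA r Q' y A = 0 := by unfold WA; rw [if_neg hA]
    rw [this, zero_mul]; exact Nat.zero_le _
  by_cases hB : Cpt r Q' y B
  swap
  · have : WA r Q' y B = 0 := by unfold WA; rw [if_neg hB]
    rw [this, mul_zero]; exact Nat.zero_le _
  unfold WA
  rw [if_pos hA, if_pos hB, if_pos (Cpt_inter hA hB), if_pos (Cpt_union hA hB)]
  have hDn : ∀ C, Cpt r Q' y C → Dn r Q' C := fun C hC =>
    ⟨hC.1, fun a ha b hb hba => by
      by_contra hbC
      exact hC.2.2.2 a ha b (Finset.mem_sdiff.2 ⟨hb, hbC⟩) hba⟩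
  have hUp : ∀ C, Cpt r Q' y C → Upp r Q' (Q' \ C) := fun C hC =>
    ⟨Finset.sdiff_subset, fun a ha b hb hab => by
      rw [Finset.mem_sdiff]
      exact ⟨hb, fun hbC => hC.2.2.2 b hbC a ha hab⟩⟩
  have h1 := u1 r Q' A B (hDn A hA) (hDn B hB)
  have h2 := u1_up r Q' (Q' \ A) (Q' \ B) (hUp A hA) (hUp B hB)
  have s1 : (Q' \ A) ∩ (Q' \ B) = Q' \ (A ∪ B) := by
    ext a; simp only [Finset.mem_inter, Finset.mem_sdiff, Finset.mem_union]; tauto
  have s2 : (Q' \ A) ∪ (Q' \ B) = Q' \ (A ∩ B) := by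
    ext a; simp only [Finset.mem_inter, Finset.mem_sdiff, Finset.mem_union]; tauto
  rw [s1, s2] at h2
  calc e r A * e r (Q' \ A) * (e r B * e r (Q' \ B))
      = (e r A * e r B) * (e r (Q' \ A) * e r (Q' \ B)) := by ring
    _ ≤ (e r (A ∩ B) * e r (A ∪ B)) * (e r (Q' \ (A ∪ B)) * e r (Q' \ (A ∩ B))) :=
        Nat.mul_le_mul h1 h2
    _ = _ := by ring

theorem xyz_LL (r : V → V → Prop) {T : Finset V} {y : V} (hy : y ∈ T) (x z : V) :
    ((LL r T).filter (fun L => ∃ P S, L = P ++ y :: S ∧ MB z False P ∧ MB x False S)).card *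
      ((LL r T).filter (fun L => ∃ P S, L = P ++ y :: S ∧ MB z True P ∧ MB x True S)).card ≤
    ((LL r T).filter (fun L => ∃ P S, L = P ++ y :: S ∧ MB z True P ∧ MB x False S)).card *
      ((LL r T).filter (fun L => ∃ P S, L = P ++ y :: S ∧ MB z False P ∧ MB x True S)).card := by
  rw [sum_WA r hy False False x z, sum_WA r hy True True x z, sum_WA r hy True False x z,
    sum_WA r hy False True x z]
  set Q := T.erase y with hQ
  have key := Finset.four_functions_theorem (β := ℕ) Q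
    (f₁ := WB r Q y x z False False) (f₂ := WB r Q y x z True True)
    (f₃ := WB r Q y x z True False) (f₄ := WB r Q y x z False True)
    (fun _ => Nat.zero_le _) (fun _ => Nat.zero_le _) (fun _ => Nat.zero_le _)
    (fun _ => Nat.zero_le _) ?_
    (𝒜 := Q.powerset) (ℬ := Q.powerset) subset_rfl subset_rfl
  · simpa only [Finset.powerset_sups_powerset_self, Finset.powerset_infs_powerset_self] using key
  · intro s _ t _
    unfold WB
    by_cases hs : (z ∈ s ∨ False) ∧ (x ∈ Q \ s ∨ False)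
    · have hi : (z ∈ s ∩ t ∨ True) ∧ (x ∈ Q \ (s ∩ t) ∨ False) := by
        refine ⟨Or.inr trivial, Or.inl ?_⟩
        have := hs.2.resolve_right id
        rw [Finset.mem_sdiff] at this ⊢
        exact ⟨this.1, fun h => this.2 (Finset.mem_inter.1 h).1⟩
      have hu : (z ∈ s ∪ t ∨ False) ∧ (x ∈ Q \ (s ∪ t) ∨ True) :=
        ⟨Or.inl (Finset.mem_union_left _ (hs.1.resolve_right id)), Or.inr trivial⟩
      have ht : (z ∈ t ∨ True) ∧ (x ∈ Q \ t ∨ True) := ⟨Or.inr trivial, Or.inr trivial⟩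
      rw [if_pos hs, if_pos ht, if_pos hi, if_pos hu]
      exact WA_super
    · rw [if_neg hs, zero_mul]; exact Nat.zero_le _

end Pool.BFT

namespace Pool.Agent.BFT

open Finset Pool.Agent.Helper1.Balance Pool.Agent.Helper8.KS Pool.Agent.Helper18.KSC
open Pool.BFT
open scoped Classical

variable {n : ℕ} {r : Fin n → Fin n → Prop}

/-- The list of `σ` cut at `y`. -/
theorem cut_lst (σ : Equiv.Perm (Fin n)) (y : Fin n) :
    ∃ P S, lst σ = P ++ y :: S ∧ P.length = (σ y : ℕ) ∧ (∀ a, a ∈ P ↔ σ a < σ y) ∧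
      (∀ a, a ∈ S ↔ σ y < σ a) ∧ (∀ a ∈ P, P.idxOf a = (σ a : ℕ)) ∧
      ∀ a ∈ S, (σ a : ℕ) = (σ y : ℕ) + 1 + S.idxOf a := by
  obtain ⟨P, S, h⟩ := List.append_of_mem (mem_lst σ y)
  have hnd := lst_nodup σ
  rw [h, List.nodup_append, List.nodup_cons] at hnd
  obtain ⟨-, ⟨h1, -⟩, h2⟩ := hnd
  have hyP : y ∉ P := fun hh => h2 y hh y (by simp) rfl
  have hlen : P.length = (σ y : ℕ) := by
    rw [← idxOf_lst σ y, h, List.idxOf_append_of_notMem hyP]
    simp
  have hP : ∀ a ∈ P, P.idxOf a = (σ a : ℕ) := by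
    intro a ha
    rw [← idxOf_lst σ a, h, List.idxOf_append_of_mem ha]
  have hS : ∀ a ∈ S, (σ a : ℕ) = (σ y : ℕ) + 1 + S.idxOf a := by
    intro a ha
    have haP : a ∉ P := fun hh => h2 a hh a (by simp [ha]) rfl
    have hay : y ≠ a := fun hh => h1 (hh ▸ ha)
    rw [← idxOf_lst σ a, h, List.idxOf_append_of_notMem haP, List.idxOf_cons_ne _ hay, hlen]
    omega
  have hmem : ∀ a, a ∈ P ∨ a = y ∨ a ∈ S := by
    intro a
    have := mem_lst σ a
    rw [h] at this
    simpa using this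
  have hP' : ∀ a ∈ P, σ a < σ y := by
    intro a ha
    have h3 := hP a ha
    have h4 := List.idxOf_lt_length_iff.2 ha
    rw [Fin.lt_def]
    omega
  have hS' : ∀ a ∈ S, σ y < σ a := by
    intro a ha
    have h3 := hS a ha
    rw [Fin.lt_def]
    omega
  refine ⟨P, S, h, hlen, fun a => ⟨hP' a, fun ha => ?_⟩, fun a => ⟨hS' a, fun ha => ?_⟩, hP, hS⟩
  · rcases hmem a with h3 | h3 | h3
    · exact h3
    · subst h3; exact absurd ha (lt_irrefl _)
    · exact absurd (hS' a h3) (not_lt.2 ha.le)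
  · rcases hmem a with h3 | h3 | h3
    · exact absurd (hP' a h3) (not_lt.2 ha.le)
    · subst h3; exact absurd ha (lt_irrefl _)
    · exact h3

theorem event_D (σ : Equiv.Perm (Fin n)) {x y z : Fin n} {k l : ℕ} (hk : 1 ≤ k) (hl : 1 ≤ l) :
    (D x y σ = (k : ℤ) ∧ D y z σ = (l : ℤ)) ↔
      ∃ P S, lst σ = P ++ y :: S ∧ PB x k P ∧ SB z l S := by
  obtain ⟨P, S, h1, h2, h3, h4, h5, h6⟩ := cut_lst σ y
  have hyP : y ∉ P := fun h => lt_irrefl _ ((h3 y).1 h)
  constructor
  · rintro ⟨h7, h8⟩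
    unfold D at h7 h8
    have hx : x ∈ P := (h3 x).2 (by rw [Fin.lt_def]; omega)
    have hz : z ∈ S := (h4 z).2 (by rw [Fin.lt_def]; omega)
    have h9 := h5 x hx
    have h10 := h6 z hz
    refine ⟨P, S, h1, ?_, hz, ?_⟩
    · unfold PB; omega
    · omega
  · rintro ⟨P', S', h7, h8, h9, h10⟩
    have hnd := lst_nodup σ
    rw [h7, List.nodup_append] at hnd
    have hyP' : y ∉ P' := fun hh => hnd.2.2 y hh y (by simp) rfl
    obtain ⟨rfl, rfl⟩ := cut_inj hyP hyP' (h1.symm.trans h7)
    unfold PB at h8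
    have hx : x ∈ P := by
      by_contra hx
      rw [List.idxOf_eq_length hx] at h8
      omega
    have h11 := h5 x hx
    have h12 := h6 z h9
    unfold D
    constructor <;> omega

/-- `F` as a number of lists. -/
theorem F_eq (r : Fin n → Fin n → Prop) (x y z : Fin n) {k l : ℕ} (hk : 1 ≤ k) (hl : 1 ≤ l) :
    F r x y z (k : ℤ) (l : ℤ) =
      (((LL r univ).filter
        (fun L => ∃ P S, L = P ++ y :: S ∧ PB x k P ∧ SB z l S)).card : ℝ) /
        ((LEs r).card : ℝ) := by
  unfold F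
  rw [Pr_eq_card, ← card_LEs]
  congr 2
  congr 1
  ext σ
  simp only [Finset.mem_filter]
  rw [event_D σ hk hl]

/-- the first case of the cross product inequality -/
theorem cross (hr : IsPoset r) {x y z : Fin n} (hxy : x ≠ y) (hyz : y ≠ z) (hxz : x ≠ z) :
    F r x y z 1 1 * F r x y z 2 2 ≤ F r x y z 1 2 * F r x y z 2 1 := by
  have h := cross_LL (r := r) hr.2.1 hr.2.2 (T := univ) (mem_univ x) (mem_univ y) (mem_univ z)
    hxy hyz hxz
  have e11 := F_eq r x y z (k := 1) (l := 1) le_rfl le_rfl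
  have e22 := F_eq r x y z (k := 2) (l := 2) one_le_two one_le_two
  have e12 := F_eq r x y z (k := 1) (l := 2) le_rfl one_le_two
  have e21 := F_eq r x y z (k := 2) (l := 1) one_le_two le_rfl
  simp only [Nat.cast_one, Nat.cast_ofNat] at e11 e22 e12 e21
  rw [e11, e22, e12, e21, div_mul_div_comm, div_mul_div_comm]
  refine div_le_div_of_nonneg_right ?_ (by positivity)
  exact_mod_cast h

/-- the XYZ inequality -/
theorem xyz (hr : IsPoset r) {x y z : Fin n} (hxy : x ≠ y) (hyz : y ≠ z) (hxz : x ≠ z) :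
    Pr r (fun σ => σ z < σ y ∧ σ y < σ x) ≤ prob r z y * prob r y x := by
  have h := xyz_LL r (T := univ) (mem_univ y) x z
  have hpos : (0 : ℝ) < ((LEs r).card : ℝ) := by exact_mod_cast LEs_pos hr
  have key : ∀ (p q : Prop), (((LEs r).filter
      (fun σ => (σ z < σ y ∨ p) ∧ (σ y < σ x ∨ q))).card) =
      ((LL r univ).filter (fun L => ∃ P S, L = P ++ y :: S ∧ MB z p P ∧ MB x q S)).card := by
    intro p q
    rw [← card_LEs]
    congr 1
    ext σ
    simp only [Finset.mem_filter]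
    refine and_congr_right fun _ => ?_
    obtain ⟨P, S, h1, h2, h3, h4, -, -⟩ := cut_lst σ y
    have hyP : y ∉ P := fun h => lt_irrefl _ ((h3 y).1 h)
    constructor
    · rintro ⟨h5, h6⟩
      exact ⟨P, S, h1, h5.imp_left (h3 z).2, h6.imp_left (h4 x).2⟩
    · rintro ⟨P', S', h7, h8, h9⟩
      have hnd := lst_nodup σ
      rw [h7, List.nodup_append] at hnd
      have hyP' : y ∉ P' := fun hh => hnd.2.2 y hh y (by simp) rfl
      obtain ⟨rfl, rfl⟩ := cut_inj hyP hyP' (h1.symm.trans h7)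
      exact ⟨h8.imp_left (h3 z).1, h9.imp_left (h4 x).1⟩
  rw [← key, ← key, ← key, ← key] at h
  simp only [or_false, or_true, true_and, and_true, Finset.filter_true] at h
  rw [prob_eq_Pr, prob_eq_Pr, Pr_eq_card, Pr_eq_card, Pr_eq_card, div_mul_div_comm,
    div_le_div_iff₀ hpos (by positivity)]
  have aux : ∀ a b c L : ℕ, a * L ≤ b * c → (a : ℝ) * ((L : ℝ) * L) ≤ (c : ℝ) * b * L := by
    intro a b c L hh
    have h1 : (a : ℝ) * L ≤ b * c := by exact_mod_cast hh
    have h2 := mul_le_mul_of_nonneg_right h1 (Nat.cast_nonneg L : (0 : ℝ) ≤ L)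
    calc (a : ℝ) * ((L : ℝ) * L) = a * L * L := by ring
      _ ≤ b * c * L := h2
      _ = c * b * L := by ring
  refine aux _ _ _ _ ?_
  convert h

end Pool.Agent.BFT
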