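import Mathlib
import Pool.Agent.BFT.Defs
import Pool.Agent.Helper8.KS.KSFinal

/-! # The majority order and the crossing sums (owner: helper8) -/

set_option autoImplicit false

namespace Pool.Agent.BFT

open Finset Pool.Agent.Helper1.Balance Pool.Agent.Helper8.KS Pool.Agent.Helper18.KSC

variable {n : ℕ} {r : Fin n → Fin n → Prop}

theorem Pr_zero_of {p : Equiv.Perm (Fin n) → Prop} (h : ∀ σ ∈ LEs r, ¬ p σ) : Pr r p = 0 := by
  classical
  rw [Pr_eq_card, Finset.filter_false_of_mem h]
  simp

theorem not_of_Pr_zero (hr : IsPoset r) {p : Equiv.Perm (Fin n) → Prop} (h : Pr r p = 0)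
    {σ : Equiv.Perm (Fin n)} (hσ : σ ∈ LEs r) : ¬ p σ := by
  classical
  have hpos : 0 < (LEs r).card := LEs_pos hr
  rw [Pr_eq_card, div_eq_zero_iff, Nat.cast_eq_zero, Nat.cast_eq_zero,
    Finset.card_eq_zero, Finset.filter_eq_empty_iff] at h
  rcases h with h | h
  · exact h hσ
  · omega

theorem prob_zero_of_rel {x y : Fin n} (h : r x y) : prob r y x = 0 := by
  rw [prob_eq_Pr]
  exact Pr_zero_of fun σ hσ => not_lt.2 (mem_LEs.1 hσ _ _ h)

theorem prob_self_zero (x : Fin n) : prob r x x = 0 := by
  rw [prob_eq_Pr]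
  exact Pr_zero_of fun σ _ => lt_irrefl _

theorem exists_le_of_prob {x y : Fin n} (h : prob r y x ≠ 0) : ∃ σ ∈ LEs r, σ y < σ x := by
  by_contra hcon
  push Not at hcon
  apply h
  rw [prob_eq_Pr]
  exact Pr_zero_of fun σ hσ => not_lt.2 (hcon σ hσ)

theorem lt_of_prob_zero (hr : IsPoset r) {x y : Fin n} (h : prob r y x = 0)
    (hne : x ≠ y) {σ : Equiv.Perm (Fin n)} (hσ : σ ∈ LEs r) : σ x < σ y := by
  by_contra hcon
  have h1 : σ y < σ x := by
    rcases lt_or_eq_of_le (not_lt.1 hcon) with h2 | h2
    · exact h2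
    · exact absurd (σ.injective h2).symm hne
  rw [prob_eq_Pr] at h
  exact not_of_Pr_zero hr h hσ h1

/-- union bound -/
theorem prob_tri (x y z : Fin n) (hyz : y ≠ z) : prob r z x ≤ prob r z y + prob r y x := by
  classical
  rw [prob_eq_Pr, prob_eq_Pr, prob_eq_Pr]
  unfold Pr
  rw [← Ex_add]
  refine Ex_mono fun σ => ?_
  by_cases h1 : σ z < σ x
  · rw [if_pos h1]
    by_cases h2 : σ z < σ y
    · rw [if_pos h2]
      split_ifs <;> norm_num
    · have h3 : σ y < σ x := lt_of_le_of_lt (not_lt.1 h2) h1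
      rw [if_pos h3, if_neg h2]
      norm_num
  · rw [if_neg h1]
    split_ifs <;> norm_num

theorem maj_dich (hr : IsPoset r) {t : ℝ} (ht : 0 ≤ t) (hb : balance r ≤ t) (x y : Fin n) :
    prob r x y ≤ t ∨ prob r y x ≤ t := by
  by_cases h1 : r x y
  · right
    rw [prob_zero_of_rel h1]; exact ht
  · by_cases h2 : r y x
    · left
      rw [prob_zero_of_rel h2]; exact ht
    · have h3 := (min_le_balance' r hr h1 h2).trans hb
      exact min_le_iff.1 h3

/-- the majority order is a linear extension -/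
theorem exists_major (hr : IsPoset r) {t : ℝ} (ht : 0 ≤ t) (ht3 : t < 1 / 3)
    (hb : balance r ≤ t) : ∃ π : Equiv.Perm (Fin n), π ∈ LEs r ∧
      ∀ x y : Fin n, π x < π y → prob r y x ≤ t := by
  classical
  set lt : Fin n → Fin n → Prop := fun x y => x ≠ y ∧ prob r y x ≤ t with hlt
  have htot : ∀ x y, x ≠ y → lt x y ∨ lt y x := by
    intro x y h
    rcases maj_dich hr ht hb x y with h1 | h1
    · right; exact ⟨h.symm, h1⟩
    · left; exact ⟨h, h1⟩
  have hasym : ∀ x y, lt x y → ¬ lt y x := by
    rintro x y ⟨h1, h2⟩ ⟨_, h4⟩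
    have := prob_add' r hr h1
    linarith
  have htrans : ∀ x y z, lt x y → lt y z → lt x z := by
    intro x y z hxy hyz
    have hne : x ≠ z := by
      rintro rfl
      exact hasym _ _ hxy hyz
    refine ⟨hne, ?_⟩
    have h1 : prob r z x ≤ 2 * t := by
      have := prob_tri (r := r) x y z hyz.1
      have := hxy.2
      have := hyz.2
      linarith
    rcases maj_dich hr ht hb x z with h2 | h2
    · have := prob_add' r hr hne
      linarith
    · exact h2
  set rk : Fin n → ℕ := fun x => (univ.filter (fun z => lt z x)).card with hrk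
  have hirr : ∀ x, ¬ lt x x := fun x h => h.1 rfl
  have hmono : ∀ x y, lt x y → rk x < rk y := by
    intro x y hxy
    refine Finset.card_lt_card ?_
    rw [Finset.ssubset_iff_of_subset]
    · exact ⟨x, by simp [hxy], by simp [hirr x]⟩
    · intro z hz
      rw [Finset.mem_filter] at hz ⊢
      exact ⟨hz.1, htrans _ _ _ hz.2 hxy⟩
  have hrkn : ∀ x, rk x < n := by
    intro x
    have : (univ.filter (fun z => lt z x)).card < (univ : Finset (Fin n)).card := by
      refine Finset.card_lt_card ?_
      rw [Finset.ssubset_iff_of_subset (Finset.filter_subset _ _)]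
      exact ⟨x, Finset.mem_univ _, by simp [hirr x]⟩
    simpa using this
  have hinj : Function.Injective (fun x : Fin n => (⟨rk x, hrkn x⟩ : Fin n)) := by
    intro x y hxy
    by_contra hne
    have h1 : rk x = rk y := by
      have := congrArg Fin.val hxy
      simpa using this
    rcases htot x y hne with h | h
    · have := hmono _ _ h
      omega
    · have := hmono _ _ h
      omega
  set π : Equiv.Perm (Fin n) := Equiv.ofBijective _ ((Finite.injective_iff_bijective).1 hinj)
    with hπ
  have hπv : ∀ x, ((π x : Fin n) : ℕ) = rk x := fun x => rfl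
  have hπlt : ∀ x y, π x < π y → lt x y := by
    intro x y h
    have h1 : rk x < rk y := by
      rw [Fin.lt_def, hπv, hπv] at h
      exact h
    have hne : x ≠ y := by
      rintro rfl
      exact lt_irrefl _ h1
    rcases htot x y hne with h2 | h2
    · exact h2
    · have := hmono _ _ h2
      omega
  refine ⟨π, ?_, fun x y h => (hπlt x y h).2⟩
  rw [mem_LEs]
  intro a b hab
  by_contra hcon
  have h1 := hπlt b a (not_le.1 hcon)
  have hne : a ≠ b := h1.1.symm
  have h2 := prob_zero_of_rel hab
  have h3 := prob_add' r hr hne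
  have h4 := h1.2
  linarith

/-- mean position as a sum of probabilities -/
theorem ht_eq_sum (hr : IsPoset r) (y : Fin n) : ht r y = 1 + ∑ x : Fin n, prob r x y := by
  classical
  have h1 : ∀ σ : Equiv.Perm (Fin n), pos σ y =
      1 + ∑ x : Fin n, (if σ x < σ y then (1 : ℝ) else 0) := by
    intro σ
    have h2 : ∑ x : Fin n, (if σ x < σ y then (1 : ℝ) else 0) =
        ∑ z : Fin n, (if z < σ y then (1 : ℝ) else 0) :=
      Equiv.sum_comp σ (fun z => if z < σ y then (1 : ℝ) else 0)
    have h3 : ∑ z : Fin n, (if z < σ y then (1 : ℝ) else 0) = ((σ y : ℕ) : ℝ) := by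
      rw [Finset.sum_ite]
      simp only [Finset.sum_const, Finset.sum_const_zero, add_zero, nsmul_eq_mul, mul_one]
      congr 1
      have : (Finset.univ.filter (fun z : Fin n => z < σ y)) = Finset.Iio (σ y) := by
        ext z; simp
      rw [this]
      simp
    rw [h2, h3]
    unfold pos
    ring
  unfold ht
  rw [show (fun σ => pos σ y) = (fun σ : Equiv.Perm (Fin n) => (1 : ℝ) +
    ∑ x : Fin n, (if σ x < σ y then (1 : ℝ) else 0)) from funext h1]
  rw [Ex_add, Ex_const hr, Ex_sum]
  congr 1
  refine Finset.sum_congr rfl fun x _ => ?_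
  rw [prob_eq_Pr]
  unfold Pr
  congr 1
  funext σ
  congr

/-- crossing sum at the level `m` -/
noncomputable def II (r : Fin n → Fin n → Prop) (π : Equiv.Perm (Fin n)) (m : ℕ) : ℝ :=
  ∑ x : Fin n, ∑ y : Fin n, if (π x : ℕ) < m ∧ m ≤ (π y : ℕ) then prob r y x else 0

theorem II_zero (π : Equiv.Perm (Fin n)) : II r π 0 = 0 := by
  unfold II
  refine Finset.sum_eq_zero fun x _ => Finset.sum_eq_zero fun y _ => ?_
  rw [if_neg]
  rintro ⟨h, _⟩
  omega

theorem II_top (π : Equiv.Perm (Fin n)) : II r π n = 0 := by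
  unfold II
  refine Finset.sum_eq_zero fun x _ => Finset.sum_eq_zero fun y _ => ?_
  rw [if_neg]
  rintro ⟨_, h⟩
  have := (π y).2
  omega

theorem II_term_nonneg (π : Equiv.Perm (Fin n)) (m : ℕ) (x y : Fin n) :
    0 ≤ (if (π x : ℕ) < m ∧ m ≤ (π y : ℕ) then prob r y x else 0) := by
  split_ifs
  · exact prob_nonneg' r y x
  · exact le_refl _

theorem II_nonneg (π : Equiv.Perm (Fin n)) (m : ℕ) : 0 ≤ II r π m :=
  Finset.sum_nonneg fun x _ => Finset.sum_nonneg fun y _ => II_term_nonneg π m x y

theorem prob_le_II (π : Equiv.Perm (Fin n)) {m : ℕ} {x y : Fin n} (h1 : (π x : ℕ) < m)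
    (h2 : m ≤ (π y : ℕ)) : prob r y x ≤ II r π m := by
  unfold II
  calc prob r y x = (if (π x : ℕ) < m ∧ m ≤ (π y : ℕ) then prob r y x else 0) := by
        rw [if_pos ⟨h1, h2⟩]
    _ ≤ ∑ y : Fin n, (if (π x : ℕ) < m ∧ m ≤ (π y : ℕ) then prob r y x else 0) :=
        Finset.single_le_sum (f := fun y => (if (π x : ℕ) < m ∧ m ≤ (π y : ℕ) then
          prob r y x else 0)) (fun y _ => II_term_nonneg π m x y) (Finset.mem_univ y)
    _ ≤ _ := Finset.single_le_sum (f := fun x => ∑ y : Fin n, (if (π x : ℕ) < m ∧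
          m ≤ (π y : ℕ) then prob r y x else 0))
          (fun x _ => Finset.sum_nonneg fun y _ => II_term_nonneg π m x y) (Finset.mem_univ x)

theorem prob_zero_of_II (π : Equiv.Perm (Fin n)) {m : ℕ} (h : II r π m = 0) {x y : Fin n}
    (h1 : (π x : ℕ) < m) (h2 : m ≤ (π y : ℕ)) : prob r y x = 0 :=
  le_antisymm (h ▸ prob_le_II π h1 h2) (prob_nonneg' r y x)

theorem exists_of_II (π : Equiv.Perm (Fin n)) {m : ℕ} (h : II r π m ≠ 0) :
    ∃ x y : Fin n, (π x : ℕ) < m ∧ m ≤ (π y : ℕ) ∧ prob r y x ≠ 0 := by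
  by_contra hcon
  push Not at hcon
  apply h
  unfold II
  refine Finset.sum_eq_zero fun x _ => Finset.sum_eq_zero fun y _ => ?_
  split_ifs with h1
  · exact hcon x y h1.1 h1.2
  · rfl

/-- a pair which is crossed with positive probability is incomparable -/
theorem inc_of_cross (hr : IsPoset r) {π : Equiv.Perm (Fin n)} (hπ : π ∈ LEs r) {x y : Fin n}
    (h1 : π x < π y) (h2 : prob r y x ≠ 0) : Inc r x y := by
  refine ⟨fun h => h2 (prob_zero_of_rel h), fun h => ?_⟩
  exact absurd (mem_LEs.1 hπ _ _ h) (not_le.2 h1)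

/-- the increments of the crossing sums -/
theorem II_succ (hr : IsPoset r) (π : Equiv.Perm (Fin n)) {m : ℕ} (hm : m < n) :
    II r π (m + 1) = II r π m + (ht r (π.symm ⟨m, hm⟩) - 1 - (m : ℝ)) := by
  classical
  set w : Fin n := π.symm ⟨m, hm⟩ with hw
  have hπw : (π w : ℕ) = m := by rw [hw]; simp
  have hiff : ∀ x : Fin n, (π x : ℕ) = m ↔ x = w := by
    intro x
    constructor
    · intro h
      apply π.injective
      apply Fin.ext
      rw [h, hπw]
    · rintro rfl
      exact hπw
  -- difference of the indicator functions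
  have hkey : ∀ x y : Fin n, (if (π x : ℕ) < m + 1 ∧ m + 1 ≤ (π y : ℕ) then prob r y x else 0) =
      (if (π x : ℕ) < m ∧ m ≤ (π y : ℕ) then prob r y x else 0) +
      ((if x = w then (if m < (π y : ℕ) then prob r y x else 0) else 0) -
       (if y = w then (if (π x : ℕ) < m then prob r y x else 0) else 0)) := by
    intro x y
    by_cases hx : x = w
    · by_cases hy : y = w
      · subst hx
        rw [hy, hπw]
        simp
      · have hy' : (π y : ℕ) ≠ m := fun h => hy ((hiff y).1 h)
        rw [if_neg hy, if_pos hx, hx, hπw]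
        by_cases h1 : m < (π y : ℕ)
        · rw [if_pos ⟨by omega, by omega⟩, if_neg (by omega), if_pos h1]
          ring
        · rw [if_neg (by omega), if_neg (by omega), if_neg h1]
          ring
    · have hx' : (π x : ℕ) ≠ m := fun h => hx ((hiff x).1 h)
      rw [if_neg hx]
      by_cases hy : y = w
      · rw [if_pos hy, hy, hπw]
        by_cases h1 : (π x : ℕ) < m
        · rw [if_neg (by omega), if_pos ⟨h1, le_refl _⟩, if_pos h1]
          ring
        · rw [if_neg (by omega), if_neg (by omega), if_neg h1]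
          ring
      · have hy' : (π y : ℕ) ≠ m := fun h => hy ((hiff y).1 h)
        rw [if_neg hy]
        by_cases h1 : (π x : ℕ) < m ∧ m ≤ (π y : ℕ)
        · rw [if_pos h1, if_pos (by omega)]
          ring
        · rw [if_neg h1, if_neg (by omega)]
          ring
  have hA : II r π (m + 1) = II r π m +
      ((∑ y : Fin n, if m < (π y : ℕ) then prob r y w else 0) -
       (∑ x : Fin n, if (π x : ℕ) < m then prob r w x else 0)) := by
    unfold II
    rw [show (∑ x : Fin n, ∑ y : Fin n, if (π x : ℕ) < m + 1 ∧ m + 1 ≤ (π y : ℕ) then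
      prob r y x else 0) = ∑ x : Fin n, ∑ y : Fin n,
      ((if (π x : ℕ) < m ∧ m ≤ (π y : ℕ) then prob r y x else 0) +
      ((if x = w then (if m < (π y : ℕ) then prob r y x else 0) else 0) -
       (if y = w then (if (π x : ℕ) < m then prob r y x else 0) else 0))) from
      Finset.sum_congr rfl fun x _ => Finset.sum_congr rfl fun y _ => hkey x y]
    simp only [Finset.sum_add_distrib, Finset.sum_sub_distrib]
    congr 1
    congr 1
    · rw [Finset.sum_comm]
      refine Finset.sum_congr rfl fun y _ => ?_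
      rw [Finset.sum_ite_eq' Finset.univ w]
      simp
    · refine Finset.sum_congr rfl fun x _ => ?_
      rw [Finset.sum_ite_eq' Finset.univ w]
      simp
  have hB : (∑ x : Fin n, if (π x : ℕ) < m then prob r w x else 0) =
      (m : ℝ) - ∑ x : Fin n, if (π x : ℕ) < m then prob r x w else 0 := by
    have h1 : (∑ x : Fin n, if (π x : ℕ) < m then (1 : ℝ) else 0) = m := by
      have h2 : (∑ x : Fin n, if (π x : ℕ) < m then (1 : ℝ) else 0) =
          ∑ z : Fin n, if (z : ℕ) < m then (1 : ℝ) else 0 :=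
        Equiv.sum_comp π (fun z : Fin n => if (z : ℕ) < m then (1 : ℝ) else 0)
      rw [h2, Finset.sum_boole]
      congr 1
      have h3 : (univ.filter (fun z : Fin n => (z : ℕ) < m)) = Finset.Iio (⟨m, hm⟩ : Fin n) := by
        ext z
        simp [Fin.lt_def]
      rw [h3]
      simp
    rw [← h1, ← Finset.sum_sub_distrib]
    refine Finset.sum_congr rfl fun x _ => ?_
    by_cases h2 : (π x : ℕ) < m
    · rw [if_pos h2, if_pos h2, if_pos h2]
      have hne : x ≠ w := by
        rintro rfl
        omega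
      have := prob_add' r hr hne
      linarith
    · rw [if_neg h2, if_neg h2, if_neg h2]
      ring
  have hC : ht r w = 1 + ((∑ y : Fin n, if m < (π y : ℕ) then prob r y w else 0) +
      ∑ x : Fin n, if (π x : ℕ) < m then prob r x w else 0) := by
    rw [ht_eq_sum hr w, ← Finset.sum_add_distrib]
    congr 1
    refine Finset.sum_congr rfl fun x _ => ?_
    by_cases hx : x = w
    · rw [hx, prob_self_zero]
      simp
    · have hx' : (π x : ℕ) ≠ m := fun h => hx ((hiff x).1 h)
      by_cases h1 : m < (π x : ℕ)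
      · rw [if_pos h1, if_neg (by omega)]
        ring
      · rw [if_neg h1, if_pos (by omega)]
        ring
  rw [hA, hB, hC]
  ring

/-- the crossing sums are bounded -/
theorem II_le {K : ℕ} (hr : IsPoset r) {π : Equiv.Perm (Fin n)} (hπ : π ∈ LEs r)
    (hw : ∀ x y : Fin n, Inc r x y → (π y : ℕ) ≤ (π x : ℕ) + (2 * K + 1)) (m : ℕ) :
    II r π m ≤ ((2 * K + 2) ^ 2 : ℕ) := by
  classical
  set S : Finset (Fin n × Fin n) := univ.filter (fun p => (π p.1 : ℕ) < m ∧ m ≤ (π p.2 : ℕ) ∧
    (π p.2 : ℕ) ≤ (π p.1 : ℕ) + (2 * K + 1)) with hS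
  have h1 : II r π m ≤ (S.card : ℝ) := by
    unfold II
    rw [← Finset.sum_product', hS, Finset.card_filter, Nat.cast_sum]
    refine Finset.sum_le_sum fun p _ => ?_
    by_cases h2 : (π p.1 : ℕ) < m ∧ m ≤ (π p.2 : ℕ)
    · rw [if_pos h2]
      by_cases h3 : prob r p.2 p.1 = 0
      · rw [h3]
        positivity
      · have hlt : π p.1 < π p.2 := by
          rw [Fin.lt_def]; omega
        have hinc := inc_of_cross hr hπ hlt h3
        rw [if_pos ⟨h2.1, h2.2, hw _ _ hinc⟩]
        have h4 := prob_add' r hr (hinc.ne hr)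
        have h5 := prob_nonneg' r p.1 p.2
        push_cast
        linarith
    · rw [if_neg h2]
      positivity
  have h2 : S.card ≤ (2 * K + 2) ^ 2 := by
    have h3 : (S.image (fun p : Fin n × Fin n => (m - (π p.1 : ℕ), (π p.2 : ℕ) - m))) ⊆
        Finset.range (2 * K + 2) ×ˢ Finset.range (2 * K + 2) := by
      intro q hq
      rw [Finset.mem_image] at hq
      obtain ⟨p, hp, rfl⟩ := hq
      rw [hS, Finset.mem_filter] at hp
      rw [Finset.mem_product, Finset.mem_range, Finset.mem_range]
      constructor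
      · show m - (π p.1 : ℕ) < 2 * K + 2
        omega
      · show (π p.2 : ℕ) - m < 2 * K + 2
        omega
    have h4 := Finset.card_le_card h3
    rw [Finset.card_image_of_injOn, Finset.card_product, Finset.card_range] at h4
    · rw [sq]; exact h4
    · intro p hp q hq hpq
      rw [hS, Finset.mem_coe, Finset.mem_filter] at hp hq
      have h5 : m - (π p.1 : ℕ) = m - (π q.1 : ℕ) := congrArg Prod.fst hpq
      have h6 : (π p.2 : ℕ) - m = (π q.2 : ℕ) - m := congrArg Prod.snd hpq
      have h7 : π p.1 = π q.1 := Fin.ext (by omega)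
      have h8 : π p.2 = π q.2 := Fin.ext (by omega)
      exact Prod.ext (π.injective h7) (π.injective h8)
  exact h1.trans (by exact_mod_cast h2)

end Pool.Agent.BFT
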