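import Mathlib
import Pool.Agent.BFT.Defs

/-! # Reordering a window (owner: helper8) -/

set_option autoImplicit false

namespace Pool.Agent.BFT

open Finset Pool.Agent.Helper1.Balance Pool.Agent.Helper8.KS Pool.Agent.Helper18.KSC

section Window

variable {n : ℕ} {r : Fin n → Fin n → Prop}

theorem reord_card (x : Fin n) [DecidablePred (fun z => ¬ r x z ∧ ¬ r z x)] :
    Nat.card {y : Fin n // ¬ r x y ∧ ¬ r y x} =
      (univ.filter (fun z => ¬ r x z ∧ ¬ r z x)).card := by
  rw [Nat.card_eq_fintype_card, Fintype.card_subtype]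

/-- in every linear extension two incomparable elements are near each other -/
theorem window (hr : IsPoset r) {K : ℕ}
    (hK : ∀ x : Fin n, Nat.card {y : Fin n // ¬ r x y ∧ ¬ r y x} ≤ K)
    {x y : Fin n} (h : Inc r x y) {σ : Equiv.Perm (Fin n)} (hσ : σ ∈ LEs r) :
    (σ y : ℕ) ≤ (σ x : ℕ) + (2 * K + 1) := by
  classical
  by_contra hcon
  push Not at hcon
  set S : Finset (Fin n) := univ.filter (fun z => σ x < σ z ∧ σ z < σ y) with hSdef
  have hS : S.card = (σ y : ℕ) - (σ x : ℕ) - 1 := by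
    have h1 : S.map σ.toEmbedding = Finset.Ioo (σ x) (σ y) := by
      ext p
      simp only [hSdef, Finset.mem_map, Finset.mem_filter, Finset.mem_univ, true_and,
        Finset.mem_Ioo, Equiv.coe_toEmbedding]
      constructor
      · rintro ⟨z, hz, rfl⟩
        exact hz
      · intro hp
        exact ⟨σ.symm p, by simpa using hp, by simp⟩
    rw [← Finset.card_map σ.toEmbedding, h1, Fin.card_Ioo]
  have hsub : S ⊆ univ.filter (fun z => ¬ r x z ∧ ¬ r z x) ∪
      univ.filter (fun z => ¬ r y z ∧ ¬ r z y) := by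
    intro z hz
    rw [hSdef, Finset.mem_filter] at hz
    rw [Finset.mem_union, Finset.mem_filter, Finset.mem_filter]
    have hzx : ¬ r z x := by
      intro h1
      have := mem_LEs.1 hσ _ _ h1
      exact absurd hz.2.1 (not_lt.2 this)
    have hyz : ¬ r y z := by
      intro h1
      have := mem_LEs.1 hσ _ _ h1
      exact absurd hz.2.2 (not_lt.2 this)
    by_cases h1 : r x z
    · right
      refine ⟨Finset.mem_univ _, hyz, ?_⟩
      intro h2
      exact h.1 (hr.2.1 _ _ _ h1 h2)
    · left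
      exact ⟨Finset.mem_univ _, h1, hzx⟩
  have h1 := Finset.card_le_card hsub
  have h2 := Finset.card_union_le (univ.filter (fun z => ¬ r x z ∧ ¬ r z x))
    (univ.filter (fun z => ¬ r y z ∧ ¬ r z y))
  have h3 := hK x
  have h4 := hK y
  rw [reord_card] at h3 h4
  omega

/-- exchange of two neighbours -/
theorem reord_swap {σ : Equiv.Perm (Fin n)} (hσ : σ ∈ LEs r) {u v : Fin n}
    (huv : (σ v : ℕ) = (σ u : ℕ) + 1) (h : ¬ r u v) : σ * Equiv.swap u v ∈ LEs r := by
  rw [mem_LEs] at hσ ⊢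
  intro a b hab
  have hlt : σ u < σ v := by
    rw [Fin.lt_def]; omega
  have hne : u ≠ v := by
    rintro rfl
    exact lt_irrefl _ hlt
  have hvu : ¬ r v u := fun h1 => absurd hlt (not_lt.2 (hσ _ _ h1))
  have h0 := hσ a b hab
  rw [Equiv.Perm.mul_apply, Equiv.Perm.mul_apply]
  by_cases hau : a = u
  · subst hau
    by_cases hbv : b = v
    · subst hbv
      exact absurd hab h
    · by_cases hba : b = a
      · subst hba
        exact le_refl _
      · rw [Equiv.swap_apply_left, Equiv.swap_apply_of_ne_of_ne hba hbv]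
        have h1 : σ b ≠ σ a := fun h2 => hba (σ.injective h2)
        rw [Fin.le_def] at h0 ⊢
        have h3 : (σ b : ℕ) ≠ (σ a : ℕ) := fun h4 => h1 (Fin.ext h4)
        omega
  · by_cases hav : a = v
    · subst hav
      by_cases hbu : b = u
      · subst hbu
        exact absurd hab hvu
      · by_cases hba : b = a
        · subst hba
          exact le_refl _
        · rw [Equiv.swap_apply_right, Equiv.swap_apply_of_ne_of_ne hbu hba]
          rw [Fin.le_def] at h0 ⊢
          omega
    · rw [Equiv.swap_apply_of_ne_of_ne hau hav]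
      by_cases hbu : b = u
      · subst hbu
        rw [Equiv.swap_apply_left]
        rw [Fin.le_def] at h0 ⊢
        omega
      · by_cases hbv : b = v
        · subst hbv
          rw [Equiv.swap_apply_right]
          have h1 : σ a ≠ σ b := fun h2 => hav (σ.injective h2)
          rw [Fin.le_def] at h0 ⊢
          have h3 : (σ a : ℕ) ≠ (σ b : ℕ) := fun h4 => h1 (Fin.ext h4)
          omega
        · rw [Equiv.swap_apply_of_ne_of_ne hbu hbv]
          exact h0

/-- if `x` comes before `y` in `σ` one can bring `y` before `x` by changing `σ` only inside the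
window `[σ x, σ y]` -/
theorem exists_reord (hr : IsPoset r) {x y : Fin n} (hxy : Inc r x y) {σ : Equiv.Perm (Fin n)}
    (hσ : σ ∈ LEs r) : ∃ τ : Equiv.Perm (Fin n), τ ∈ LEs r ∧ τ y < τ x ∧
      (∀ z, (σ x ≤ σ z ∧ σ z ≤ σ y) → (σ x ≤ τ z ∧ τ z ≤ σ y)) ∧
      (∀ z, ¬ (σ x ≤ σ z ∧ σ z ≤ σ y) → τ z = σ z) := by
  classical
  set S : Finset (Equiv.Perm (Fin n)) := (LEs r).filter (fun τ =>
      (∀ z, (σ x ≤ σ z ∧ σ z ≤ σ y) → (σ x ≤ τ z ∧ τ z ≤ σ y)) ∧
      (∀ z, ¬ (σ x ≤ σ z ∧ σ z ≤ σ y) → τ z = σ z)) with hSdef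
  have hSne : S.Nonempty := ⟨σ, by
    rw [hSdef, Finset.mem_filter]
    exact ⟨hσ, fun z h => h, fun z _ => rfl⟩⟩
  obtain ⟨τ, hτS, hmin⟩ := Finset.exists_min_image S
    (fun τ => ∑ z : Fin n, if r z y then (τ z : ℕ) else 0) hSne
  have hτ := hτS
  rw [hSdef, Finset.mem_filter] at hτ
  obtain ⟨hτL, hin, hout⟩ := hτ
  refine ⟨τ, hτL, ?_, hin, hout⟩
  by_contra hcon
  push Not at hcon
  have hne : x ≠ y := hxy.ne hr
  have hltxy : (τ x : ℕ) < (τ y : ℕ) := by
    rcases lt_or_eq_of_le hcon with h | h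
    · exact h
    · exact absurd (τ.injective h) hne
  -- a switch from `not below y` to `below y`
  set Q : ℕ → Prop := fun k => ∃ z : Fin n, (τ z : ℕ) = k ∧ r z y with hQ
  have hQx : ¬ Q (τ x) := by
    rintro ⟨z, hz, hzy⟩
    have : z = x := τ.injective (Fin.ext hz)
    subst this
    exact hxy.1 hzy
  have hQy : Q (τ y) := ⟨y, rfl, hr.1 y⟩
  have hsw : ∃ k, (τ x : ℕ) ≤ k ∧ k < (τ y : ℕ) ∧ ¬ Q k ∧ Q (k + 1) := by
    by_contra hno
    push Not at hno
    have : ∀ k, (τ x : ℕ) ≤ k → k ≤ (τ y : ℕ) → ¬ Q k := by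
      intro k hk
      induction k, hk using Nat.le_induction with
      | base => intro _; exact hQx
      | succ k hk ih =>
        intro h2
        exact hno k hk (by omega) (ih (by omega))
    exact this _ hltxy.le le_rfl hQy
  obtain ⟨k, hk1, hk2, hk3, v, hv, hvy⟩ := hsw
  have hkn : k < n := lt_of_lt_of_le hk2 (τ y).2.le
  set u : Fin n := τ.symm ⟨k, hkn⟩ with hu
  have hτu : τ u = ⟨k, hkn⟩ := by rw [hu]; simp
  have hτu' : (τ u : ℕ) = k := by rw [hτu]
  have huy : ¬ r u y := fun h => hk3 ⟨u, hτu', h⟩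
  have huv : ¬ r u v := fun h => huy (hr.2.1 _ _ _ h hvy)
  have hnuv : u ≠ v := by
    rintro h
    rw [h] at huy
    exact huy hvy
  -- positions inside the window belong to elements of the window
  have hback : ∀ z, σ x ≤ τ z → τ z ≤ σ y → (σ x ≤ σ z ∧ σ z ≤ σ y) := by
    intro z h1 h2
    by_contra h3
    rw [← hout z h3] at h3
    exact h3 ⟨h1, h2⟩
  by_cases hxyσ : σ x ≤ σ y
  swap
  · -- then the window is empty and `τ = σ`
    have h1 : ∀ z, τ z = σ z := by
      intro z
      refine hout z ?_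
      rintro ⟨h2, h3⟩
      exact hxyσ (h2.trans h3)
    have h2 := h1 x
    have h3 := h1 y
    apply hxyσ
    rw [← h2, ← h3]
    exact hcon
  have hwx := hin x ⟨le_refl _, hxyσ⟩
  have hwy := hin y ⟨hxyσ, le_refl _⟩
  have hwu : σ x ≤ τ u ∧ τ u ≤ σ y := by
    rw [Fin.le_def, Fin.le_def] at hwx hwy ⊢
    omega
  have hwv : σ x ≤ τ v ∧ τ v ≤ σ y := by
    rw [Fin.le_def, Fin.le_def] at hwx hwy ⊢
    omega
  have hmem : τ * Equiv.swap u v ∈ S := by
    rw [hSdef, Finset.mem_filter]
    refine ⟨reord_swap hτL (by omega) huv, ?_, ?_⟩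
    · intro z hz
      rw [Equiv.Perm.mul_apply]
      by_cases h1 : z = u
      · rw [h1, Equiv.swap_apply_left]; exact hwv
      · by_cases h2 : z = v
        · rw [h2, Equiv.swap_apply_right]; exact hwu
        · rw [Equiv.swap_apply_of_ne_of_ne h1 h2]; exact hin z hz
    · intro z hz
      have h1 : z ≠ u := by
        rintro rfl
        exact hz (hback _ hwu.1 hwu.2)
      have h2 : z ≠ v := by
        rintro rfl
        exact hz (hback _ hwv.1 hwv.2)
      rw [Equiv.Perm.mul_apply, Equiv.swap_apply_of_ne_of_ne h1 h2]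
      exact hout z hz
  have hlt : (∑ z : Fin n, if r z y then ((τ * Equiv.swap u v) z : ℕ) else 0) <
      ∑ z : Fin n, if r z y then (τ z : ℕ) else 0 := by
    refine Finset.sum_lt_sum ?_ ⟨v, Finset.mem_univ _, ?_⟩
    · intro z _
      by_cases hzy : r z y
      · rw [if_pos hzy, if_pos hzy, Equiv.Perm.mul_apply]
        have h1 : z ≠ u := by
          rintro rfl
          exact huy hzy
        by_cases h2 : z = v
        · rw [h2, Equiv.swap_apply_right]
          omega
        · rw [Equiv.swap_apply_of_ne_of_ne h1 h2]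
      · rw [if_neg hzy, if_neg hzy]
    · rw [if_pos hvy, if_pos hvy, Equiv.Perm.mul_apply, Equiv.swap_apply_right]
      omega
  exact absurd hlt (not_lt.2 (hmin _ hmem))

/-- number of permutations which move only points of a given set -/
theorem card_moves (W : Finset (Fin n)) (s : Finset (Equiv.Perm (Fin n)))
    (hs : ∀ π ∈ s, ∀ p, p ∉ W → π p = p) : s.card ≤ W.card.factorial := by
  classical
  have e := Equiv.Perm.subtypeEquivSubtypePerm (fun p : Fin n => p ∈ W)
  have h1 : Fintype.card {f : Equiv.Perm (Fin n) // ∀ a, ¬ a ∈ W → f a = a} =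
      W.card.factorial := by
    rw [← Fintype.card_congr e, Fintype.card_perm, Fintype.card_coe]
  rw [← h1, Fintype.card_subtype]
  refine Finset.card_le_card ?_
  intro π hπ
  rw [Finset.mem_filter]
  exact ⟨Finset.mem_univ _, fun a ha => hs π hπ a ha⟩

end Window

/-- (R) in a poset in which every element is incomparable to at most `K` others, the
probabilities of incomparable pairs are bounded below -/
theorem reord (K : ℕ) : ∃ c : ℝ, 0 < c ∧ ∀ (n : ℕ) (r : Fin n → Fin n → Prop), IsPoset r →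
    (∀ x : Fin n, Nat.card {y : Fin n // ¬ r x y ∧ ¬ r y x} ≤ K) →
    ∀ x y : Fin n, Inc r x y → c ≤ prob r y x := by
  classical
  set B : ℕ := (4 * K + 3).factorial with hB
  refine ⟨1 / (1 + (B : ℝ)), by positivity, ?_⟩
  intro n r hr hK x y hxy
  have hne : x ≠ y := hxy.ne hr
  set A1 := (LEs r).filter (fun σ => σ y < σ x) with hA1
  set A2 := (LEs r).filter (fun σ => ¬ σ y < σ x) with hA2
  have hsum : A1.card + A2.card = (LEs r).card :=
    Finset.card_filter_add_card_filter_not (s := LEs r) (fun σ => σ y < σ x)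
  set f : Equiv.Perm (Fin n) → Equiv.Perm (Fin n) := fun σ =>
    if h : σ ∈ LEs r then (exists_reord hr hxy h).choose else σ with hf
  have hfs : ∀ σ, σ ∈ LEs r → f σ ∈ LEs r ∧ (f σ) y < (f σ) x ∧
      (∀ z, (σ x ≤ σ z ∧ σ z ≤ σ y) → (σ x ≤ (f σ) z ∧ (f σ) z ≤ σ y)) ∧
      (∀ z, ¬ (σ x ≤ σ z ∧ σ z ≤ σ y) → (f σ) z = σ z) := by
    intro σ h
    rw [hf]
    simp only [h, dif_pos]
    exact (exists_reord hr hxy h).choose_spec
  have himg : A2.image f ⊆ A1 := by
    intro τ hτ
    rw [Finset.mem_image] at hτ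
    obtain ⟨σ, hσ, rfl⟩ := hτ
    rw [hA2, Finset.mem_filter] at hσ
    rw [hA1, Finset.mem_filter]
    exact ⟨(hfs σ hσ.1).1, (hfs σ hσ.1).2.1⟩
  have hfib : ∀ τ ∈ A2.image f, (A2.filter (fun σ => f σ = τ)).card ≤ B := by
    intro τ _
    set W : Finset (Fin n) := univ.filter (fun p : Fin n =>
      (p : ℕ) ≤ (τ y : ℕ) + (2 * K + 1) ∧ (τ y : ℕ) ≤ (p : ℕ) + (2 * K + 1)) with hW
    have hWc : W.card ≤ 4 * K + 3 := by
      have h1 : (W.image (fun p : Fin n => (p : ℕ))) ⊆
          Finset.Icc ((τ y : ℕ) - (2 * K + 1)) ((τ y : ℕ) + (2 * K + 1)) := by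
        intro k hk
        rw [Finset.mem_image] at hk
        obtain ⟨p, hp, rfl⟩ := hk
        rw [hW, Finset.mem_filter] at hp
        rw [Finset.mem_Icc]
        omega
      have h2 := Finset.card_le_card h1
      rw [Finset.card_image_of_injective _ Fin.val_injective, Nat.card_Icc] at h2
      omega
    have h1 : (A2.filter (fun σ => f σ = τ)).card =
        ((A2.filter (fun σ => f σ = τ)).image (fun σ => σ * τ⁻¹)).card := by
      rw [Finset.card_image_of_injective]
      intro a b hab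
      exact mul_right_cancel hab
    rw [h1]
    refine le_trans (card_moves W _ ?_) (Nat.factorial_le hWc)
    intro π hπ p hp
    rw [Finset.mem_image] at hπ
    obtain ⟨σ, hσ, rfl⟩ := hπ
    rw [Finset.mem_filter, hA2, Finset.mem_filter] at hσ
    obtain ⟨⟨hσL, hσn⟩, hστ⟩ := hσ
    obtain ⟨g1, g2, g3, g4⟩ := hfs σ hσL
    rw [hστ] at g1 g2 g3 g4
    have hle : σ x ≤ σ y := not_lt.1 hσn
    have hw := window hr hK hxy hσL
    have hy := g3 y ⟨hle, le_refl _⟩
    set z := τ⁻¹ p with hz
    have hτz : τ z = p := by rw [hz]; simp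
    have hgoal : (σ * τ⁻¹) p = σ z := rfl
    rw [hgoal]
    by_cases hwin : σ x ≤ σ z ∧ σ z ≤ σ y
    · exfalso
      have h5 := g3 z hwin
      rw [hτz] at h5
      apply hp
      rw [hW, Finset.mem_filter]
      refine ⟨Finset.mem_univ _, ?_⟩
      rw [Fin.le_def, Fin.le_def] at h5 hy
      omega
    · rw [← g4 z hwin, hτz]
  have hcard : A2.card ≤ B * A1.card := by
    refine le_trans (Finset.card_le_mul_card_image A2 B hfib) ?_
    exact Nat.mul_le_mul_left _ (Finset.card_le_card himg)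
  have hpos : 0 < (LEs r).card := LEs_pos hr
  rw [prob_eq_Pr, Pr_eq_card]
  rw [div_le_div_iff₀ (by positivity) (by exact_mod_cast hpos)]
  have h3 : ((LEs r).card : ℝ) ≤ (1 + (B : ℝ)) * (A1.card : ℝ) := by
    have : (LEs r).card ≤ A1.card + B * A1.card := by omega
    calc ((LEs r).card : ℝ) ≤ ((A1.card + B * A1.card : ℕ) : ℝ) := by exact_mod_cast this
      _ = (1 + (B : ℝ)) * (A1.card : ℝ) := by push_cast; ring
  have h4 : ((LEs r).filter (fun σ => σ y < σ x)).card = A1.card := rfl
  calc 1 * ((LEs r).card : ℝ) ≤ (1 + (B : ℝ)) * (A1.card : ℝ) := by rw [one_mul]; exact h3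
    _ = (A1.card : ℝ) * (1 + (B : ℝ)) := by ring
    _ = _ := by
      rw [hA1]
      congr

end Pool.Agent.BFT
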