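import Mathlib

/-! # The end argument: a statement about sequences -/

set_option autoImplicit false

namespace Pool.Agent.BFT

/-- lower bound for the even terms -/
theorem seq_even {c η : ℝ} {L : ℕ} {b : ℕ → ℝ} (h0 : c ≤ b 0)
    (h : ∀ i, i + 2 < L → b i - η ≤ b (i + 2)) : ∀ j, 2 * j < L → c - η * j ≤ b (2 * j) := by
  intro j
  induction j with
  | zero => intro _; simpa using h0
  | succ j ih =>
    intro hj
    have h1 := ih (by omega)
    have h2 := h (2 * j) (by omega)
    have e : 2 * (j + 1) = 2 * j + 2 := by ring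
    rw [e]
    push_cast
    linarith

/-- lower bound for the pair sums -/
theorem seq_pair {c η : ℝ} {L : ℕ} {b : ℕ → ℝ} (h0 : c ≤ b 0 + b 1)
    (h : ∀ i, i + 2 < L → b i - η ≤ b (i + 2)) :
    ∀ j, 2 * j + 1 < L → c - 2 * η * j ≤ b (2 * j) + b (2 * j + 1) := by
  intro j
  induction j with
  | zero => intro _; simpa using h0
  | succ j ih =>
    intro hj
    have h1 := ih (by omega)
    have h2 := h (2 * j) (by omega)
    have h3 := h (2 * j + 1) (by omega)
    have e : 2 * (j + 1) = 2 * j + 2 := by ring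
    have e' : 2 * j + 2 + 1 = 2 * j + 1 + 2 := by ring
    rw [e, e']
    push_cast
    linarith

/-- lower bound for the partial sums of even length -/
theorem seq_sum {c η : ℝ} {L : ℕ} {b : ℕ → ℝ} (hη : 0 ≤ η) (h0 : c ≤ b 0 + b 1)
    (h : ∀ i, i + 2 < L → b i - η ≤ b (i + 2)) :
    ∀ J : ℕ, 2 * J ≤ L → J * (c - η * J) ≤ ∑ i ∈ Finset.range (2 * J), b i := by
  intro J
  induction J with
  | zero => intro _; simp
  | succ J ih =>
    intro hJ
    have h1 := ih (by omega)
    have h2 := seq_pair h0 h J (by omega)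
    have e : 2 * (J + 1) = 2 * J + 1 + 1 := by ring
    rw [e, Finset.sum_range_succ, Finset.sum_range_succ]
    push_cast
    nlinarith

/-- For `c, M > 0` there is `η > 0` such that there is no sequence `a` with partial sums `I`
(from `m0` to `m1`, `m1 - m0 ≥ 3`) with `I m0 = I m1 = 0`, `c ≤ I ≤ M` strictly inside, and
`a (i + 2) ≥ a i - η`. -/
theorem seq_contra (c M : ℝ) (hc : 0 < c) : ∃ η : ℝ, 0 < η ∧ ∀ (L : ℕ) (b : ℕ → ℝ), 3 ≤ L →
    (∀ k, 0 < k → k < L → c ≤ ∑ i ∈ Finset.range k, b i) →
    (∀ k, k ≤ L → ∑ i ∈ Finset.range k, b i ≤ M) →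
    ∑ i ∈ Finset.range L, b i = 0 →
    ¬ (∀ i, i + 2 < L → b i - η ≤ b (i + 2)) := by
  obtain ⟨J, hJ⟩ := exists_nat_gt (max 1 (2 * M / c))
  have hJ1 : (1 : ℝ) < J := (le_max_left _ _).trans_lt hJ
  have hJ0 : (0 : ℝ) < J := by linarith
  have hJM : M < J * (c / 2) := by
    have h := (le_max_right (1 : ℝ) (2 * M / c)).trans_lt hJ
    rw [div_lt_iff₀ hc] at h
    linarith
  refine ⟨c / (2 * J), by positivity, ?_⟩
  intro L b hL h1 h2 h3 h
  have hη : 0 ≤ c / (2 * (J : ℝ)) := by positivity
  have hηJ : c / (2 * (J : ℝ)) * J = c / 2 := by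
    field_simp
  have hb0 : c ≤ b 0 := by
    have := h1 1 (by omega) (by omega)
    simpa using this
  have hb1 : c ≤ b 0 + b 1 := by
    have := h1 2 (by omega) (by omega)
    rwa [Finset.sum_range_succ, Finset.sum_range_one] at this
  have hs := seq_sum hη hb1 h
  rcases Nat.lt_or_ge L (2 * J) with h4 | h4
  · have hk : ∀ k : ℕ, k ≤ J → 0 < c - c / (2 * (J : ℝ)) * k := by
      intro k hk
      have hk' : (k : ℝ) ≤ J := by exact_mod_cast hk
      have := mul_le_mul_of_nonneg_left hk' hη
      linarith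
    rcases Nat.even_or_odd' L with ⟨k, hk2 | hk2⟩
    · have h5 := hs k hk2.ge
      rw [← hk2, h3] at h5
      have h6 := hk k (by omega)
      have h7 : (0 : ℝ) < k := by
        have : 0 < k := by omega
        exact_mod_cast this
      have := mul_pos h7 h6
      linarith
    · have h5 := seq_even hb0 h k (by omega)
      have h6 := hk k (by omega)
      have h7 := h1 (2 * k) (by omega) (by omega)
      rw [hk2, Finset.sum_range_succ] at h3
      linarith
  · have h5 := hs J h4
    have h6 := h2 (2 * J) h4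
    rw [hηJ] at h5
    have : c - c / 2 = c / 2 := by ring
    rw [this] at h5
    linarith

end Pool.Agent.BFT
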