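import Mathlib
import Pool.Agent.BFT.Defs

/-! # Adjacent exchanges, pairs (owner: helper16) -/

set_option autoImplicit false

namespace Pool.Agent.BFT

open Finset Pool.Agent.Helper1.Balance Pool.Agent.Helper8.KS Pool.Agent.Helper18.KSC

variable {n : ℕ} {r : Fin n → Fin n → Prop}

/-! ### Exchanging two neighbours -/

theorem swap_mem {σ : Equiv.Perm (Fin n)} (hσ : σ ∈ LEs r) {u v : Fin n} (huv : D u v σ = 1)
    (h : ¬ r u v) : σ * Equiv.swap u v ∈ LEs r := by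
  rw [mem_LEs] at hσ ⊢
  unfold D at huv
  have hne : u ≠ v := by
    rintro rfl
    omega
  intro a b hab
  have h1 := hσ a b hab
  rw [Fin.le_def] at h1 ⊢
  rw [Equiv.Perm.mul_apply, Equiv.Perm.mul_apply]
  have hinj : ∀ c d : Fin n, (σ c : ℕ) = σ d → c = d := fun c d hcd => σ.injective (Fin.ext hcd)
  rw [Equiv.swap_apply_def, Equiv.swap_apply_def]
  split_ifs with h2 h3 h4 h5 h6 h7 h8 h9
  all_goals first
    | exact le_rfl
    | (subst_vars; exact absurd hab h)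
    | (subst_vars; omega)
    | skip
  all_goals subst_vars
  · have : (σ b : ℕ) ≠ σ a := fun hh => h3 (hinj _ _ hh)
    omega
  · have : (σ a : ℕ) ≠ σ b := fun hh => h5 (hinj _ _ hh)
    omega

theorem D_self (x : Fin n) (σ : Equiv.Perm (Fin n)) : D x x σ = 0 := by
  unfold D; ring

theorem D_neg (x y : Fin n) (σ : Equiv.Perm (Fin n)) : D x y σ = -D y x σ := by
  unfold D; ring

theorem D_add (x y z : Fin n) (σ : Equiv.Perm (Fin n)) : D x z σ = D x y σ + D y z σ := by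
  unfold D; ring

theorem D_eq_zero {x y : Fin n} {σ : Equiv.Perm (Fin n)} (h : D x y σ = 0) : x = y := by
  unfold D at h
  exact σ.injective (Fin.ext (by omega))

theorem D_pos_of_rel {σ : Equiv.Perm (Fin n)} (hσ : σ ∈ LEs r) {x y : Fin n} (h : r x y)
    (hne : x ≠ y) : 0 < D x y σ := by
  have h1 := mem_LEs.1 hσ x y h
  rw [Fin.le_def] at h1
  have h2 : D x y σ ≠ 0 := fun h0 => hne (D_eq_zero h0)
  unfold D at h2 ⊢
  omega

theorem not_rel_of_D {σ : Equiv.Perm (Fin n)} (hσ : σ ∈ LEs r) {x y : Fin n}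
    (h : 0 < D x y σ) : ¬ r y x := by
  intro h1
  have h2 := mem_LEs.1 hσ y x h1
  rw [Fin.le_def] at h2
  unfold D at h
  omega

/-- the element at signed distance `k` from `x` (if it exists) -/
noncomputable def el (σ : Equiv.Perm (Fin n)) (x : Fin n) (k : ℤ) : Fin n := by
  classical
  exact if h : ∃ e, D x e σ = k then h.choose else x

theorem el_eq {σ : Equiv.Perm (Fin n)} {x e : Fin n} {k : ℤ} (h : D x e σ = k) :
    el σ x k = e := by
  have h1 : ∃ e, D x e σ = k := ⟨e, h⟩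
  unfold el
  rw [dif_pos h1]
  have h2 := h1.choose_spec
  refine D_eq_zero (σ := σ) ?_
  have h3 := D_add x h1.choose e σ
  omega

theorem exists_el (σ : Equiv.Perm (Fin n)) (x y : Fin n) (k : ℤ) (h0 : 0 ≤ k)
    (h1 : k ≤ D x y σ) : ∃ e, D x e σ = k := by
  unfold D at h1
  have h2 : (σ x : ℕ) + k.toNat < n := by
    have := (σ y).isLt
    omega
  refine ⟨σ.symm ⟨(σ x : ℕ) + k.toNat, h2⟩, ?_⟩
  unfold D
  rw [Equiv.apply_symm_apply]
  simp only
  push_cast
  omega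

theorem D_swap_left {σ : Equiv.Perm (Fin n)} {u v w : Fin n} (h1 : w ≠ u) (h2 : w ≠ v) :
    D u w (σ * Equiv.swap u v) = D v w σ := by
  unfold D
  rw [Equiv.Perm.mul_apply, Equiv.Perm.mul_apply, Equiv.swap_apply_left,
    Equiv.swap_apply_of_ne_of_ne h1 h2]

theorem D_swap_right {σ : Equiv.Perm (Fin n)} {u v w : Fin n} (h1 : w ≠ u) (h2 : w ≠ v) :
    D v w (σ * Equiv.swap u v) = D u w σ := by
  unfold D
  rw [Equiv.Perm.mul_apply, Equiv.Perm.mul_apply, Equiv.swap_apply_right,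
    Equiv.swap_apply_of_ne_of_ne h1 h2]

theorem D_swap_both (σ : Equiv.Perm (Fin n)) (u v : Fin n) :
    D u v (σ * Equiv.swap u v) = D v u σ := by
  unfold D
  rw [Equiv.Perm.mul_apply, Equiv.Perm.mul_apply, Equiv.swap_apply_right,
    Equiv.swap_apply_left]

theorem D_swap_none {σ : Equiv.Perm (Fin n)} {u v w t : Fin n} (h1 : w ≠ u) (h2 : w ≠ v)
    (h3 : t ≠ u) (h4 : t ≠ v) : D w t (σ * Equiv.swap u v) = D w t σ := by
  unfold D
  rw [Equiv.Perm.mul_apply, Equiv.Perm.mul_apply, Equiv.swap_apply_of_ne_of_ne h1 h2,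
    Equiv.swap_apply_of_ne_of_ne h3 h4]

/-- exchanges are injective once the pair is determined by the image -/
theorem swap_inj {σ τ : Equiv.Perm (Fin n)} {u v : Fin n}
    (h : σ * Equiv.swap u v = τ * Equiv.swap u v) : σ = τ := mul_right_cancel h

theorem Pr_le_of_inj' (p q : Equiv.Perm (Fin n) → Prop)
    (f g : Equiv.Perm (Fin n) → Equiv.Perm (Fin n))
    (h1 : ∀ σ ∈ LEs r, p σ → f σ ∈ LEs r ∧ q (f σ))
    (h2 : ∀ σ ∈ LEs r, p σ → g (f σ) = σ) : Pr r p ≤ Pr r q :=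
  Pr_le_of_inj r p q f h1 fun σ hσ hp τ hτ hq h => by
    rw [← h2 σ hσ hp, ← h2 τ hτ hq, h]

/-- (S0) -/
theorem gp_neg_one (hr : IsPoset r) {x y : Fin n} (h : Inc r x y) :
    gp r x y (-1) = gp r x y 1 := by
  have hne := h.ne hr
  apply le_antisymm
  · refine Pr_le_of_inj' _ _ (fun σ => σ * Equiv.swap y x) (fun σ => σ * Equiv.swap y x) ?_ ?_
    · intro σ hσ hp
      have h1 : D y x σ = 1 := by
        have := D_neg x y σ
        omega
      refine ⟨swap_mem hσ h1 h.2, ?_⟩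
      have h2 := D_swap_both σ y x
      have h3 := D_neg x y (σ * Equiv.swap y x)
      have h4 := D_neg x y σ
      omega
    · intro σ _ _
      simp [mul_assoc]
  · refine Pr_le_of_inj' _ _ (fun σ => σ * Equiv.swap x y) (fun σ => σ * Equiv.swap x y) ?_ ?_
    · intro σ hσ hp
      refine ⟨swap_mem hσ hp h.1, ?_⟩
      have h2 := D_swap_both σ x y
      have h4 := D_neg x y σ
      omega
    · intro σ _ _
      simp [mul_assoc]

/-- the data of a linear extension `x e y` -/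
theorem two_data (hr : IsPoset r) {x y : Fin n} (h : Inc r x y) {σ : Equiv.Perm (Fin n)}
    (hσ : σ ∈ LEs r) (hD : D x y σ = 2) : ∃ e, D x e σ = 1 ∧ D e y σ = 1 ∧ e ≠ x ∧ e ≠ y ∧
      el σ x 1 = e ∧ el σ y (-1) = e ∧ ¬ r e x ∧ ¬ r y e ∧ (r x e → ¬ r e y) := by
  obtain ⟨e, he⟩ := exists_el σ x y 1 (by norm_num) (by omega)
  have h2 : D e y σ = 1 := by
    have := D_add x e y σ
    omega
  have h3 : D y e σ = -1 := by
    have := D_neg y e σ
    omega
  refine ⟨e, he, h2, ?_, ?_, el_eq he, el_eq h3, ?_, ?_, ?_⟩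
  · rintro rfl
    rw [D_self] at he
    omega
  · rintro rfl
    rw [D_self] at h2
    omega
  · exact not_rel_of_D hσ (by omega)
  · exact not_rel_of_D hσ (by omega)
  · intro h4 h5
    exact h.1 (hr.2.1 _ _ _ h4 h5)

/-- splitting a probability along an event -/
theorem Pr_split (r : Fin n → Fin n → Prop) (p q : Equiv.Perm (Fin n) → Prop) :
    Pr r p = Pr r (fun σ => p σ ∧ q σ) + Pr r (fun σ => p σ ∧ ¬ q σ) := by
  classical
  unfold Pr
  rw [← Ex_add]
  congr 1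
  funext σ
  by_cases h1 : p σ <;> by_cases h2 : q σ <;> simp [h1, h2]

/-- the element before `x` exists and is incomparable to `x` -/
def PI (r : Fin n → Fin n → Prop) (x : Fin n) (σ : Equiv.Perm (Fin n)) : Prop :=
  ∃ w, D w x σ = 1 ∧ ¬ r w x

theorem PI_iff {x w : Fin n} {σ : Equiv.Perm (Fin n)} (h : D w x σ = 1) :
    PI r x σ ↔ ¬ r w x := by
  constructor
  · rintro ⟨w', h1, h2⟩
    have h3 : D w w' σ = 0 := by
      have h4 := D_add w w' x σ
      omega
    rw [D_eq_zero h3]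
    exact h2
  · intro h1
    exact ⟨w, h, h1⟩

/-- (S1) -/
theorem gp_two_le (hr : IsPoset r) {x y : Fin n} (h : Inc r x y) :
    gp r x y 2 ≤ gp r x y 1 + gp r x y 3 := by
  have hne := h.ne hr
  have e1 : gp r x y 2 = Pr r (fun σ => D x y σ = 2 ∧ ¬ r x (el σ x 1)) +
      (Pr r (fun σ => (D x y σ = 2 ∧ r x (el σ x 1)) ∧ ¬ PI r x σ) +
        Pr r (fun σ => (D x y σ = 2 ∧ r x (el σ x 1)) ∧ PI r x σ)) := by
    unfold gp
    rw [Pr_split r (fun σ => D x y σ = 2) (fun σ => r x (el σ x 1)),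
      Pr_split r (fun σ => D x y σ = 2 ∧ r x (el σ x 1)) (fun σ => PI r x σ)]
    ring
  have e2 : Pr r (fun σ => D x y σ = 2 ∧ ¬ r x (el σ x 1)) +
      Pr r (fun σ => (D x y σ = 2 ∧ r x (el σ x 1)) ∧ ¬ PI r x σ) ≤ gp r x y 1 := by
    refine Pr_add_le_of_inj r _ _ _ (fun σ => σ * Equiv.swap x (el σ x 1))
      (fun σ => σ * Equiv.swap (el σ x 1) y) ?_ ?_ ?_ ?_ ?_
    · rintro σ hσ ⟨h1, h2⟩
      obtain ⟨e, h3, h4, h5, h6, h7, h8, h9, h10, h11⟩ := two_data hr h hσ h1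
      rw [h7] at h2 ⊢
      refine ⟨swap_mem hσ h3 h2, ?_⟩
      rw [D_swap_left hne.symm h6.symm]
      exact h4
    · rintro σ hσ ⟨h1, h2⟩ τ hτ ⟨h1', h2'⟩ heq
      obtain ⟨e, h3, h4, h5, h6, h7, h8, h9, h10, h11⟩ := two_data hr h hσ h1
      obtain ⟨e', h3', h4', h5', h6', h7', h8', h9', h10', h11'⟩ := two_data hr h hτ h1'
      rw [h7, h7'] at heq
      have h12 : D x e (σ * Equiv.swap x e) = -1 := by
        rw [D_swap_both, D_neg]; omega
      have h13 : D x e' (τ * Equiv.swap x e') = -1 := by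
        rw [D_swap_both, D_neg]; omega
      rw [heq] at h12
      have h14 : D e e' (τ * Equiv.swap x e') = 0 := by
        have := D_add x e e' (τ * Equiv.swap x e')
        omega
      have h15 := D_eq_zero h14
      subst h15
      exact swap_inj heq
    · rintro σ hσ ⟨⟨h1, h2⟩, h2'⟩
      obtain ⟨e, h3, h4, h5, h6, h7, h8, h9, h10, h11⟩ := two_data hr h hσ h1
      rw [h7] at h2 ⊢
      refine ⟨swap_mem hσ h4 (h11 h2), ?_⟩
      rw [D_neg, D_swap_right h5.symm hne, ← D_neg]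
      exact h3
    · rintro σ hσ ⟨⟨h1, h2⟩, -⟩ τ hτ ⟨⟨h1', h2'⟩, -⟩ heq
      obtain ⟨e, h3, h4, h5, h6, h7, h8, h9, h10, h11⟩ := two_data hr h hσ h1
      obtain ⟨e', h3', h4', h5', h6', h7', h8', h9', h10', h11'⟩ := two_data hr h hτ h1'
      rw [h7, h7'] at heq
      have h12 : D y e (σ * Equiv.swap e y) = 1 := by
        rw [D_neg, D_swap_both, ← D_neg]; omega
      have h13 : D y e' (τ * Equiv.swap e' y) = 1 := by
        rw [D_neg, D_swap_both, ← D_neg]; omega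
      rw [heq] at h12
      have h14 : D e e' (τ * Equiv.swap e' y) = 0 := by
        have := D_add y e e' (τ * Equiv.swap e' y)
        omega
      have h15 := D_eq_zero h14
      subst h15
      exact swap_inj heq
    · rintro σ hσ ⟨h1, h2⟩ τ hτ ⟨⟨h1', h2'⟩, h16⟩ heq
      obtain ⟨e, h3, h4, h5, h6, h7, h8, h9, h10, h11⟩ := two_data hr h hσ h1
      obtain ⟨e', h3', h4', h5', h6', h7', h8', h9', h10', h11'⟩ := two_data hr h hτ h1'
      rw [h7] at h2
      rw [h7, h7'] at heq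
      have h12 : D e x (σ * Equiv.swap x e) = 1 := by
        rw [D_neg, D_swap_both, ← D_neg]; omega
      rw [heq] at h12
      -- the predecessor of `x` in `τ` is `e`
      have h17 : e ≠ y := h6
      have h18 : e ≠ e' := by
        rintro rfl
        have h19 : D x e (τ * Equiv.swap e y) = D x y τ := by
          rw [D_neg, D_swap_left h5.symm hne, ← D_neg]
        rw [D_neg] at h19
        omega
      have h20 : D e x τ = 1 := by
        rw [D_swap_none h18 h17 h5'.symm hne] at h12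
        exact h12
      exact h16 ⟨e, h20, h9⟩
  have e3 : Pr r (fun σ => (D x y σ = 2 ∧ r x (el σ x 1)) ∧ PI r x σ) ≤ gp r x y 3 := by
    refine Pr_le_of_inj' _ _ (fun σ => σ * Equiv.swap (el σ x (-1)) x)
      (fun σ => σ * Equiv.swap (el σ x 1) x) ?_ ?_
    · rintro σ hσ ⟨⟨h1, h2⟩, w, h3, h4⟩
      have h5 : D x w σ = -1 := by
        rw [D_neg]; omega
      have hw1 : w ≠ x := by
        rintro rfl
        rw [D_self] at h3; omega
      have hw2 : w ≠ y := by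
        rintro rfl
        omega
      rw [el_eq h5]
      refine ⟨swap_mem hσ h3 h4, ?_⟩
      rw [D_swap_right hw2.symm hne.symm, D_add w x y]
      omega
    · rintro σ hσ ⟨⟨h1, h2⟩, w, h3, h4⟩
      have h5 : D x w σ = -1 := by
        rw [D_neg]; omega
      have hw1 : w ≠ x := by
        rintro rfl
        rw [D_self] at h3; omega
      rw [el_eq h5]
      have h6 : D x w (σ * Equiv.swap w x) = 1 := by
        rw [D_neg, D_swap_both, D_neg]; omega
      rw [el_eq h6]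
      simp [mul_assoc]
  linarith

theorem Pr_add_le_of_inj' (p p' q s : Equiv.Perm (Fin n) → Prop)
    (f g f' g' : Equiv.Perm (Fin n) → Equiv.Perm (Fin n))
    (h1 : ∀ σ ∈ LEs r, p σ → f σ ∈ LEs r ∧ q (f σ) ∧ s (f σ) ∧ g (f σ) = σ)
    (h2 : ∀ σ ∈ LEs r, p' σ → f' σ ∈ LEs r ∧ q (f' σ) ∧ ¬ s (f' σ) ∧ g' (f' σ) = σ) :
    Pr r p + Pr r p' ≤ Pr r q := by
  refine Pr_add_le_of_inj r p p' q f f' (fun σ hσ hp => ⟨(h1 σ hσ hp).1, (h1 σ hσ hp).2.1⟩) ?_
    (fun σ hσ hp => ⟨(h2 σ hσ hp).1, (h2 σ hσ hp).2.1⟩) ?_ ?_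
  · intro σ hσ hp τ hτ hq h
    rw [← (h1 σ hσ hp).2.2.2, ← (h1 τ hτ hq).2.2.2, h]
  · intro σ hσ hp τ hτ hq h
    rw [← (h2 σ hσ hp).2.2.2, ← (h2 τ hτ hq).2.2.2, h]
  · intro σ hσ hp τ hτ hq h
    apply (h2 τ hτ hq).2.2.1
    rw [← h]
    exact (h1 σ hσ hp).2.2.1

/-- `x e y` with `e` not above `x` goes to `e x y` -/
theorem left_map (hr : IsPoset r) {x y : Fin n} (hne : x ≠ y) {σ : Equiv.Perm (Fin n)}
    (hσ : σ ∈ LEs r) {e : Fin n} (h1 : D x e σ = 1) (hey : e ≠ y) (h2 : ¬ r x e) :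
    σ * Equiv.swap x (el σ x 1) ∈ LEs r ∧
      D x y (σ * Equiv.swap x (el σ x 1)) = D x y σ - 1 ∧
      D e x (σ * Equiv.swap x (el σ x 1)) = 1 ∧ ¬ r e x ∧
      (fun τ : Equiv.Perm (Fin n) => τ * Equiv.swap x (el τ x (-1)))
        (σ * Equiv.swap x (el σ x 1)) = σ := by
  have h3 : e ≠ x := by
    rintro rfl
    rw [D_self] at h1; omega
  rw [el_eq h1]
  have h4 : D e x (σ * Equiv.swap x e) = 1 := by
    rw [D_neg, D_swap_both, ← D_neg]; exact h1
  have h5 : D x e (σ * Equiv.swap x e) = -1 := by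
    rw [D_neg, h4]
  refine ⟨swap_mem hσ h1 h2, ?_, h4, not_rel_of_D hσ (by omega), ?_⟩
  · rw [D_swap_left hne.symm hey.symm]
    have := D_add x e y σ
    omega
  · simp only
    rw [el_eq h5, mul_assoc, Equiv.swap_mul_self, mul_one]

/-- `x .. e y` with `e` not below `y` goes to `x .. y e` -/
theorem right_map (hr : IsPoset r) {x y : Fin n} (hne : x ≠ y) {σ : Equiv.Perm (Fin n)}
    (hσ : σ ∈ LEs r) {e : Fin n} (h1 : D e y σ = 1) (hex : e ≠ x) (h2 : ¬ r e y) :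
    σ * Equiv.swap (el σ y (-1)) y ∈ LEs r ∧
      D x y (σ * Equiv.swap (el σ y (-1)) y) = D x y σ - 1 ∧
      D y e (σ * Equiv.swap (el σ y (-1)) y) = 1 ∧ ¬ r y e ∧
      (fun τ : Equiv.Perm (Fin n) => τ * Equiv.swap (el τ y 1) y)
        (σ * Equiv.swap (el σ y (-1)) y) = σ := by
  have h3 : e ≠ y := by
    rintro rfl
    rw [D_self] at h1; omega
  have h1' : D y e σ = -1 := by rw [D_neg, h1]
  rw [el_eq h1']
  have h4 : D y e (σ * Equiv.swap e y) = 1 := by
    rw [D_neg, D_swap_both, ← D_neg]; exact h1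
  refine ⟨swap_mem hσ h1 h2, ?_, h4, not_rel_of_D hσ (by omega), ?_⟩
  · rw [D_neg, D_swap_right hex.symm hne, ← D_neg]
    have := D_add x e y σ
    omega
  · simp only
    rw [el_eq h4, mul_assoc, Equiv.swap_mul_self, mul_one]

/-- `y x` goes to `x y` -/
theorem pair_map (hr : IsPoset r) {x y : Fin n} {σ : Equiv.Perm (Fin n)}
    (hσ : σ ∈ LEs r) (h1 : D y x σ = 1) (h2 : ¬ r y x) :
    σ * Equiv.swap y x ∈ LEs r ∧ D x y (σ * Equiv.swap y x) = 1 := by
  refine ⟨swap_mem hσ h1 h2, ?_⟩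
  rw [D_neg, D_swap_both, ← D_neg]
  exact h1

/-- (S2) -/
theorem gp_two_add_le (hr : IsPoset r) {x y : Fin n} (h : Inc r x y) :
    gp r x y 2 + gp r x y (-2) ≤ 2 * gp r x y 1 := by
  have hne := h.ne hr
  have e1 : gp r x y 2 = Pr r (fun σ => D x y σ = 2 ∧ r x (el σ x 1)) +
      Pr r (fun σ => D x y σ = 2 ∧ ¬ r x (el σ x 1)) := by
    unfold gp
    rw [Pr_split r (fun σ => D x y σ = 2) (fun σ => r x (el σ x 1))]
  have e2 : gp r x y (-2) = Pr r (fun σ => D x y σ = -2 ∧ r (el σ x (-1)) x) +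
      Pr r (fun σ => D x y σ = -2 ∧ ¬ r (el σ x (-1)) x) := by
    unfold gp
    rw [Pr_split r (fun σ => D x y σ = -2) (fun σ => r (el σ x (-1)) x)]
  have e3 : Pr r (fun σ => D x y σ = 2 ∧ ¬ r x (el σ x 1)) +
      Pr r (fun σ => D x y σ = -2 ∧ r (el σ x (-1)) x) ≤ gp r x y 1 := by
    refine Pr_add_le_of_inj' _ _ _ (fun σ => PI r x σ)
      (fun σ => σ * Equiv.swap x (el σ x 1)) (fun τ => τ * Equiv.swap x (el τ x (-1)))
      (fun σ => σ * Equiv.swap y (el σ x (-1)) * Equiv.swap y x)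
      (fun σ => σ * Equiv.swap y x * Equiv.swap y (el σ x (-1))) ?_ ?_
    · rintro σ hσ ⟨h1, h2⟩
      obtain ⟨e, h3, h4, h5, h6, h7, h8, h9, h10, h11⟩ := two_data hr h hσ h1
      obtain ⟨g1, g2, g3, g4, g5⟩ := left_map hr hne hσ h3 h6 (by rwa [h7] at h2)
      exact ⟨g1, by omega, ⟨e, g3, g4⟩, g5⟩
    · rintro σ hσ ⟨h1, h2⟩
      have h1' : D y x σ = 2 := by rw [D_neg, h1]; norm_num
      obtain ⟨e, h3, h4, h5, h6, h7, h8, h9, h10, h11⟩ := two_data hr h.symm hσ h1'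
      rw [h8] at h2 ⊢
      have h12 : ¬ r y e := fun h13 => h11 h13 h2
      have g1 := swap_mem hσ h3 h12
      have g2 : D y x (σ * Equiv.swap y e) = 1 := by
        rw [D_swap_left hne h6.symm]
        exact h4
      obtain ⟨g3, g4⟩ := pair_map hr g1 g2 h.2
      have g5 : D e x (σ * Equiv.swap y e * Equiv.swap y x) = 1 := by
        rw [D_neg, D_swap_right h5 h6, ← D_neg, D_neg, D_swap_both, D_neg]
        omega
      have g6 : D x e (σ * Equiv.swap y e * Equiv.swap y x) = -1 := by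
        rw [D_neg, g5]
      refine ⟨g3, g4, ?_, ?_⟩
      · rw [PI_iff g5]
        exact fun hh => hh h2
      · rw [el_eq g6]
        simp [mul_assoc]
  have e4 : Pr r (fun σ => D x y σ = 2 ∧ r x (el σ x 1)) +
      Pr r (fun σ => D x y σ = -2 ∧ ¬ r (el σ x (-1)) x) ≤ gp r x y 1 := by
    refine Pr_add_le_of_inj' _ _ _ (fun σ => r x (el σ y 1))
      (fun σ => σ * Equiv.swap (el σ y (-1)) y) (fun τ => τ * Equiv.swap (el τ y 1) y)
      (fun σ => σ * Equiv.swap (el σ x (-1)) x * Equiv.swap y x)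
      (fun σ => σ * Equiv.swap y x * Equiv.swap (el σ y 1) x) ?_ ?_
    · rintro σ hσ ⟨h1, h2⟩
      obtain ⟨e, h3, h4, h5, h6, h7, h8, h9, h10, h11⟩ := two_data hr h hσ h1
      rw [h7] at h2
      obtain ⟨g1, g2, g3, g4, g5⟩ := right_map hr hne hσ h4 h5 (h11 h2)
      refine ⟨g1, by omega, ?_, g5⟩
      rw [el_eq g3]
      exact h2
    · rintro σ hσ ⟨h1, h2⟩
      have h1' : D y x σ = 2 := by rw [D_neg, h1]; norm_num
      obtain ⟨e, h3, h4, h5, h6, h7, h8, h9, h10, h11⟩ := two_data hr h.symm hσ h1'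
      rw [h8] at h2 ⊢
      have g1 := swap_mem hσ h4 h2
      have g2 : D y x (σ * Equiv.swap e x) = 1 := by
        rw [D_neg, D_swap_right h5.symm hne.symm, ← D_neg]
        exact h3
      obtain ⟨g3, g4⟩ := pair_map hr g1 g2 h.2
      have g5 : D y e (σ * Equiv.swap e x * Equiv.swap y x) = 1 := by
        rw [D_swap_left h5 h6, D_neg, D_swap_both, ← D_neg]
        omega
      refine ⟨g3, g4, ?_, ?_⟩
      · rw [el_eq g5]
        exact h10
      · rw [el_eq g5]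
        simp [mul_assoc]
  linarith

/-- (S3) -/
theorem gp_three_le (hr : IsPoset r) {x y : Fin n} (h : Inc r x y) :
    gp r x y 3 ≤ 2 * gp r x y 2 := by
  have hne := h.ne hr
  have e1 : gp r x y 3 = Pr r (fun σ => D x y σ = 3 ∧ ¬ r x (el σ x 1)) +
      (Pr r (fun σ => (D x y σ = 3 ∧ r x (el σ x 1)) ∧ ¬ r (el σ y (-1)) y) +
        Pr r (fun σ => (D x y σ = 3 ∧ r x (el σ x 1)) ∧ r (el σ y (-1)) y)) := by
    unfold gp
    rw [Pr_split r (fun σ => D x y σ = 3) (fun σ => r x (el σ x 1)),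
      Pr_split r (fun σ => D x y σ = 3 ∧ r x (el σ x 1)) (fun σ => r (el σ y (-1)) y)]
    ring
  have key : ∀ σ ∈ LEs r, D x y σ = 3 → ∃ e f, D x e σ = 1 ∧ D e f σ = 1 ∧ D f y σ = 1 ∧
      D y f σ = -1 ∧ e ≠ x ∧ e ≠ y ∧ f ≠ x ∧ f ≠ y ∧ e ≠ f ∧ ¬ r f x ∧ ¬ r y e := by
    intro σ hσ h1
    obtain ⟨e, he⟩ := exists_el σ x y 1 (by norm_num) (by omega)
    obtain ⟨f, hf⟩ := exists_el σ x y 2 (by norm_num) (by omega)
    have h2 := D_add x e f σ
    have h3 := D_add x f y σ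
    have h4 := D_neg y f σ
    have h5 := D_add x e y σ
    refine ⟨e, f, he, by omega, by omega, by omega, ?_, ?_, ?_, ?_, ?_, ?_, ?_⟩
    · rintro rfl
      rw [D_self] at he; omega
    · rintro rfl
      omega
    · rintro rfl
      rw [D_self] at hf; omega
    · rintro rfl
      omega
    · rintro rfl
      omega
    · exact not_rel_of_D hσ (by omega)
    · exact not_rel_of_D hσ (by omega)
  have e2 : Pr r (fun σ => D x y σ = 3 ∧ ¬ r x (el σ x 1)) ≤ gp r x y 2 := by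
    refine Pr_le_of_inj' _ _ (fun σ => σ * Equiv.swap x (el σ x 1))
      (fun τ => τ * Equiv.swap x (el τ x (-1))) ?_ ?_
    · rintro σ hσ ⟨h1, h2⟩
      obtain ⟨e, f, k1, k2, k3, k4, k5, k6, k7, k8, k9, k10, k11⟩ := key σ hσ h1
      obtain ⟨g1, g2, g3, g4, g5⟩ := left_map hr hne hσ k1 k6 (by rwa [el_eq k1] at h2)
      exact ⟨g1, by omega⟩
    · rintro σ hσ ⟨h1, h2⟩
      obtain ⟨e, f, k1, k2, k3, k4, k5, k6, k7, k8, k9, k10, k11⟩ := key σ hσ h1
      exact (left_map hr hne hσ k1 k6 (by rwa [el_eq k1] at h2)).2.2.2.2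
  have e3 : Pr r (fun σ => (D x y σ = 3 ∧ r x (el σ x 1)) ∧ ¬ r (el σ y (-1)) y) +
      Pr r (fun σ => (D x y σ = 3 ∧ r x (el σ x 1)) ∧ r (el σ y (-1)) y) ≤ gp r x y 2 := by
    refine Pr_add_le_of_inj' _ _ _ (fun σ => r x (el σ x 1))
      (fun σ => σ * Equiv.swap (el σ y (-1)) y) (fun τ => τ * Equiv.swap (el τ y 1) y)
      (fun σ => σ * Equiv.swap (el σ x 1) (el σ y (-1)) * Equiv.swap (el σ x 1) y)
      (fun σ => σ * Equiv.swap (el σ y 1) y * Equiv.swap (el σ y 1) (el σ x 1)) ?_ ?_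
    · rintro σ hσ ⟨⟨h1, h2⟩, h3⟩
      obtain ⟨e, f, k1, k2, k3, k4, k5, k6, k7, k8, k9, k10, k11⟩ := key σ hσ h1
      rw [el_eq k4] at h3
      obtain ⟨g1, g2, g3, g4, g5⟩ := right_map hr hne hσ k3 k7 h3
      refine ⟨g1, by omega, ?_, g5⟩
      have g6 : D x e (σ * Equiv.swap (el σ y (-1)) y) = 1 := by
        rw [el_eq k4, D_swap_none k7.symm hne k9 k6]
        exact k1
      rw [el_eq g6]
      rwa [el_eq k1] at h2
    · rintro σ hσ ⟨⟨h1, h2⟩, h3⟩
      obtain ⟨e, f, k1, k2, k3, k4, k5, k6, k7, k8, k9, k10, k11⟩ := key σ hσ h1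
      rw [el_eq k4] at h3 ⊢
      rw [el_eq k1] at h2 ⊢
      -- `x e f y` with `x < e`, `f < y`
      have h4 : ¬ r x f := fun hh => h.1 (hr.2.1 _ _ _ hh h3)
      have h5 : ¬ r e y := fun hh => h.1 (hr.2.1 _ _ _ h2 hh)
      have h6 : ¬ r e f := fun hh => h5 (hr.2.1 _ _ _ hh h3)
      have g1 := swap_mem hσ k2 h6
      have g2 : D e y (σ * Equiv.swap e f) = 1 := by
        rw [D_swap_left k6.symm k8.symm]
        exact k3
      have g3 := swap_mem g1 g2 h5
      have g4 : D x f (σ * Equiv.swap e f) = 1 := by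
        rw [D_neg, D_swap_right k5.symm k7.symm, ← D_neg]
        exact k1
      have g5 : D x f (σ * Equiv.swap e f * Equiv.swap e y) = 1 := by
        rw [D_swap_none k5.symm hne k9.symm k8]
        exact g4
      have g6 : D y e (σ * Equiv.swap e f * Equiv.swap e y) = 1 := by
        rw [D_neg, D_swap_both, ← D_neg]
        exact g2
      have g7 : D x y (σ * Equiv.swap e f * Equiv.swap e y) = 2 := by
        rw [D_neg, D_swap_right k5.symm hne, ← D_neg]
        have g8 : D x e (σ * Equiv.swap e f) = D x f σ := by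
          rw [D_neg, D_swap_left k5.symm k7.symm, ← D_neg]
        have g9 := D_add x e f σ
        omega
      refine ⟨g3, g7, ?_, ?_⟩
      · rw [el_eq g5]
        exact h4
      · rw [el_eq g6, el_eq g5]
        simp [mul_assoc]
  linarith

end Pool.Agent.BFT
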