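import Mathlib
import Pool.Agent.BFT.Defs
import Pool.Agent.BFT.Swap

/-! # Elementary bounds of the mean distance (no exchanges) -/

set_option autoImplicit false

namespace Pool.Agent.BFT

open Finset Pool.Agent.Helper1.Balance Pool.Agent.Helper8.KS Pool.Agent.Helper18.KSC

variable {n : ℕ} {r : Fin n → Fin n → Prop}

namespace Mo

/-- a linear extension with `x` before `y` can be brought to one with `x` just before `y` -/
theorem descent (hr : IsPoset r) {x y : Fin n} (h : Inc r x y) : ∀ d : ℕ,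
    ∀ σ ∈ LEs r, D x y σ = (d : ℤ) + 1 → ∃ τ ∈ LEs r, D x y τ = 1 := by
  have hne := h.ne hr
  intro d
  induction d with
  | zero =>
    intro σ hσ h1
    exact ⟨σ, hσ, by simpa using h1⟩
  | succ d ih =>
    have inner : ∀ j : ℕ, ∀ σ ∈ LEs r, D x y σ = (d : ℤ) + 2 → ∀ e, D x e σ = (j : ℤ) + 1 →
        (j : ℤ) + 1 < (d : ℤ) + 2 → ¬ r x e → ∃ τ ∈ LEs r, D x y τ = 1 := by
      intro j
      induction j with
      | zero =>
        intro σ hσ h1 e h2 h3 h4
        have h5 : e ≠ y := by
          rintro rfl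
          omega
        have h6 : D x e σ = 1 := by simpa using h2
        refine ih (σ * Equiv.swap x e) (swap_mem hσ h6 h4) ?_
        rw [D_swap_left hne.symm h5.symm]
        have := D_add x e y σ
        omega
      | succ j ihj =>
        intro σ hσ h1 e h2 h3 h4
        push_cast at h2 h3
        obtain ⟨e', he'⟩ := exists_el σ x y ((j : ℤ) + 1) (by omega) (by omega)
        by_cases h5 : r x e'
        · have h6 : ¬ r e' e := fun h7 => h4 (hr.2.1 _ _ _ h5 h7)
          have h7 : D e' e σ = 1 := by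
            have := D_add x e' e σ
            omega
          have n1 : x ≠ e' := by
            rintro rfl
            rw [D_self] at he'
            omega
          have n2 : x ≠ e := by
            rintro rfl
            rw [D_self] at h2
            omega
          have n3 : y ≠ e' := by
            rintro rfl
            omega
          have n4 : y ≠ e := by
            rintro rfl
            omega
          refine ihj (σ * Equiv.swap e' e) (swap_mem hσ h7 h6) ?_ e ?_ (by omega) h4
          · rw [D_swap_none n1 n2 n3 n4]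
            exact h1
          · rw [D_neg, D_swap_right n1 n2, ← D_neg]
            exact he'
        · exact ihj σ hσ h1 e' he' (by omega) h5
    intro σ hσ h1
    push_cast at h1
    obtain ⟨e, he⟩ := exists_el σ x y ((d : ℤ) + 1) (by omega) (by omega)
    by_cases h2 : r x e
    · have h3 : ¬ r e y := fun h4 => h.1 (hr.2.1 _ _ _ h2 h4)
      have h4 : D e y σ = 1 := by
        have := D_add x e y σ
        omega
      have n1 : x ≠ e := by
        rintro rfl
        rw [D_self] at he
        omega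
      refine ih (σ * Equiv.swap e y) (swap_mem hσ h4 h3) ?_
      rw [D_neg, D_swap_right n1 hne, ← D_neg]
      exact he
    · exact inner d σ hσ (by omega) e he (by omega) h2

/-- incomparable elements are neighbours in some linear extension -/
theorem exists_adj (hr : IsPoset r) {x y : Fin n} (h : Inc r x y) :
    ∃ τ ∈ LEs r, D x y τ = 1 := by
  obtain ⟨σ, hσ⟩ := Finset.card_pos.1 (LEs_pos hr)
  have hne := h.ne hr
  have h0 : D x y σ ≠ 0 := fun h1 => hne (D_eq_zero h1)
  rcases lt_or_gt_of_ne h0 with h1 | h1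
  · have h2 := D_neg x y σ
    obtain ⟨τ, hτ, h3⟩ := descent hr h.symm (D y x σ - 1).toNat σ hσ (by omega)
    refine ⟨τ * Equiv.swap y x, swap_mem hτ h3 h.2, ?_⟩
    rw [D_neg, D_swap_both, ← D_neg]
    exact h3
  · exact descent hr h (D x y σ - 1).toNat σ hσ (by omega)

open Classical in
theorem Pr_pos_of_mem {p : Equiv.Perm (Fin n) → Prop} {σ : Equiv.Perm (Fin n)}
    (hσ : σ ∈ LEs r) (hp : p σ) : 0 < Pr r p := by
  rw [Pr_eq_card]
  refine div_pos ?_ ?_
  · exact_mod_cast Finset.card_pos.2 ⟨σ, Finset.mem_filter.2 ⟨hσ, hp⟩⟩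
  · exact_mod_cast Finset.card_pos.2 ⟨σ, hσ⟩

theorem Ex_le_on {f g : Equiv.Perm (Fin n) → ℝ} (h : ∀ σ ∈ LEs r, f σ ≤ g σ) :
    Ex r f ≤ Ex r g := by
  unfold Ex
  exact div_le_div_of_nonneg_right (sum_le_sum h) (Nat.cast_nonneg _)

open Classical in
theorem gp_eq_Ex (r : Fin n → Fin n → Prop) (x y : Fin n) (k : ℤ) :
    gp r x y k = Ex r (fun σ => if D x y σ = k then (1:ℝ) else 0) := by
  unfold gp Pr
  refine congrArg (Ex r) (funext fun σ => ?_)
  by_cases h : D x y σ = k <;> simp [h]

open Classical in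
theorem prob_eq_Ex (r : Fin n → Fin n → Prop) (x y : Fin n) :
    prob r y x = Ex r (fun σ => if D x y σ < 0 then (1:ℝ) else 0) := by
  rw [prob_eq_Pr]
  unfold Pr
  refine congrArg (Ex r) (funext fun σ => ?_)
  have h1 : σ y < σ x ↔ D x y σ < 0 := by
    rw [Fin.lt_def]
    unfold D
    omega
  by_cases h : D x y σ < 0
  · rw [if_pos (h1.2 h), if_pos h]
  · rw [if_neg (fun h2 => h (h1.1 h2)), if_neg h]

end Mo

open Mo

theorem prob_nonneg (r : Fin n → Fin n → Prop) (x y : Fin n) : 0 ≤ prob r x y := by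
  unfold prob
  positivity

theorem prob_add (hr : IsPoset r) {x y : Fin n} (h : x ≠ y) : prob r x y + prob r y x = 1 := by
  classical
  rw [prob_eq_Ex, prob_eq_Ex, ← Ex_add]
  refine Eq.trans ?_ (Ex_const hr 1)
  refine congrArg (Ex r) (funext fun σ => ?_)
  have h0 : D x y σ ≠ 0 := fun h1 => h (D_eq_zero h1)
  have h2 := D_neg x y σ
  by_cases h3 : D x y σ < 0
  · rw [if_pos h3, if_neg (by omega)]
    norm_num
  · rw [if_neg h3, if_pos (by omega)]
    norm_num

theorem prob_pos (hr : IsPoset r) {x y : Fin n} (h : Inc r x y) : 0 < prob r y x := by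
  obtain ⟨τ, hτ, h1⟩ := exists_adj hr h.symm
  rw [prob_eq_Pr]
  refine Pr_pos_of_mem hτ ?_
  rw [Fin.lt_def]
  unfold D at h1
  omega

theorem gp_pos (hr : IsPoset r) {x y : Fin n} (h : Inc r x y) : 0 < gp r x y 1 := by
  obtain ⟨τ, hτ, h1⟩ := exists_adj hr h
  exact Pr_pos_of_mem hτ h1

theorem gp_nonneg (r : Fin n → Fin n → Prop) (x y : Fin n) (k : ℤ) : 0 ≤ gp r x y k :=
  Pr_nonneg _

/-- `A_1 + A_2 + A_3 ≤ 1 - q` -/
theorem gp_sum_le (hr : IsPoset r) {x y : Fin n} (h : x ≠ y) :
    gp r x y 1 + gp r x y 2 + gp r x y 3 ≤ 1 - prob r y x := by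
  classical
  rw [gp_eq_Ex, gp_eq_Ex, gp_eq_Ex, prob_eq_Ex, ← Ex_add, ← Ex_add]
  have e : 1 - Ex r (fun σ => if D x y σ < 0 then (1:ℝ) else 0) =
      Ex r (fun σ => 1 - (if D x y σ < 0 then (1:ℝ) else 0)) := by
    rw [Ex_sub, Ex_const hr]
  rw [e]
  · refine Ex_le_on fun σ _ => ?_
    by_cases h1 : D x y σ < 0
    · rw [if_neg (by omega), if_neg (by omega), if_neg (by omega), if_pos h1]
      norm_num
    · by_cases h2 : D x y σ = 1
      · rw [if_pos h2, if_neg (by omega), if_neg (by omega), if_neg h1]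
        norm_num
      · by_cases h3 : D x y σ = 2
        · rw [if_neg h2, if_pos h3, if_neg (by omega), if_neg h1]
          norm_num
        · rw [if_neg h2, if_neg h3, if_neg h1]
          split_ifs <;> norm_num

/-- `B_1 ≤ q` -/
theorem gp_neg_le (_hr : IsPoset r) {x y : Fin n} (_h : x ≠ y) :
    gp r x y (-1) ≤ prob r y x := by
  classical
  rw [gp_eq_Ex, prob_eq_Ex]
  refine Ex_le_on fun σ _ => ?_
  by_cases h1 : D x y σ = -1
  · rw [if_pos h1, if_pos (by omega)]
  · rw [if_neg h1]
    split_ifs <;> norm_num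

theorem mn_ge_three (hr : IsPoset r) {x y : Fin n} (h : x ≠ y) :
    3 * (1 - prob r y x) - 2 * gp r x y 1 - gp r x y 2 - mneg r x y ≤ mn r x y := by
  classical
  have e : 3 * (1 - prob r y x) - 2 * gp r x y 1 - gp r x y 2 - mneg r x y =
      Ex r (fun σ => 3 * (1 - (if D x y σ < 0 then (1:ℝ) else 0)) -
        2 * (if D x y σ = 1 then (1:ℝ) else 0) - (if D x y σ = 2 then (1:ℝ) else 0) -
        max (-((D x y σ : ℤ) : ℝ)) 0) := by
    rw [gp_eq_Ex, gp_eq_Ex, prob_eq_Ex, Ex_sub, Ex_sub, Ex_sub, Ex_mul_left, Ex_mul_left,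
      Ex_sub, Ex_const hr]
    rfl
  rw [e]
  refine Ex_le_on fun σ _ => ?_
  have h0 : D x y σ ≠ 0 := fun h1 => h (D_eq_zero h1)
  by_cases h1 : D x y σ < 0
  · have h2 : ((D x y σ : ℤ) : ℝ) < 0 := by exact_mod_cast h1
    rw [if_pos h1, if_neg (by omega), if_neg (by omega), max_eq_left (by linarith)]
    linarith
  · have h2 : (0:ℝ) ≤ ((D x y σ : ℤ) : ℝ) := by
      have : 0 ≤ D x y σ := by omega
      exact_mod_cast this
    rw [if_neg h1, max_eq_right (by linarith)]
    by_cases h3 : D x y σ = 1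
    · rw [if_pos h3, if_neg (by omega), h3]
      norm_num
    · by_cases h4 : D x y σ = 2
      · rw [if_neg h3, if_pos h4, h4]
        norm_num
      · rw [if_neg h3, if_neg h4]
        have h5 : (3:ℝ) ≤ ((D x y σ : ℤ) : ℝ) := by
          have : (3:ℤ) ≤ D x y σ := by omega
          exact_mod_cast this
        linarith

theorem mn_ge_four (hr : IsPoset r) {x y : Fin n} (h : x ≠ y) :
    4 * (1 - prob r y x) - 3 * gp r x y 1 - 2 * gp r x y 2 - gp r x y 3 - mneg r x y ≤
      mn r x y := by
  classical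
  have e : 4 * (1 - prob r y x) - 3 * gp r x y 1 - 2 * gp r x y 2 - gp r x y 3 -
      mneg r x y =
      Ex r (fun σ => 4 * (1 - (if D x y σ < 0 then (1:ℝ) else 0)) -
        3 * (if D x y σ = 1 then (1:ℝ) else 0) - 2 * (if D x y σ = 2 then (1:ℝ) else 0) -
        (if D x y σ = 3 then (1:ℝ) else 0) - max (-((D x y σ : ℤ) : ℝ)) 0) := by
    rw [gp_eq_Ex, gp_eq_Ex, gp_eq_Ex, prob_eq_Ex, Ex_sub, Ex_sub, Ex_sub, Ex_sub, Ex_mul_left,
      Ex_mul_left, Ex_mul_left, Ex_sub, Ex_const hr]
    rfl
  rw [e]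
  refine Ex_le_on fun σ _ => ?_
  have h0 : D x y σ ≠ 0 := fun h1 => h (D_eq_zero h1)
  by_cases h1 : D x y σ < 0
  · have h2 : ((D x y σ : ℤ) : ℝ) < 0 := by exact_mod_cast h1
    rw [if_pos h1, if_neg (by omega), if_neg (by omega), if_neg (by omega),
      max_eq_left (by linarith)]
    linarith
  · have h2 : (0:ℝ) ≤ ((D x y σ : ℤ) : ℝ) := by
      have : 0 ≤ D x y σ := by omega
      exact_mod_cast this
    rw [if_neg h1, max_eq_right (by linarith)]
    by_cases h3 : D x y σ = 1
    · rw [if_pos h3, if_neg (by omega), if_neg (by omega), h3]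
      norm_num
    · by_cases h4 : D x y σ = 2
      · rw [if_neg h3, if_pos h4, if_neg (by omega), h4]
        norm_num
      · by_cases h5 : D x y σ = 3
        · rw [if_neg h3, if_neg h4, if_pos h5, h5]
          norm_num
        · rw [if_neg h3, if_neg h4, if_neg h5]
          have h5 : (4:ℝ) ≤ ((D x y σ : ℤ) : ℝ) := by
            have : (4:ℤ) ≤ D x y σ := by omega
            exact_mod_cast this
          linarith

theorem mneg_ge (_hr : IsPoset r) {x y : Fin n} (_h : x ≠ y) :
    4 * prob r y x - 3 * gp r x y (-1) - 2 * gp r x y (-2) - gp r x y (-3) ≤ mneg r x y := by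
  classical
  have e : 4 * prob r y x - 3 * gp r x y (-1) - 2 * gp r x y (-2) - gp r x y (-3) =
      Ex r (fun σ => 4 * (if D x y σ < 0 then (1:ℝ) else 0) -
        3 * (if D x y σ = -1 then (1:ℝ) else 0) - 2 * (if D x y σ = -2 then (1:ℝ) else 0) -
        (if D x y σ = -3 then (1:ℝ) else 0)) := by
    rw [gp_eq_Ex, gp_eq_Ex, gp_eq_Ex, prob_eq_Ex, Ex_sub, Ex_sub, Ex_sub, Ex_mul_left,
      Ex_mul_left, Ex_mul_left]
  rw [e]
  refine Ex_le_on fun σ _ => ?_
  have h6 := le_max_left (-((D x y σ : ℤ) : ℝ)) 0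
  have h7 := le_max_right (-((D x y σ : ℤ) : ℝ)) 0
  by_cases h1 : D x y σ < 0
  · rw [if_pos h1]
    by_cases h3 : D x y σ = -1
    · rw [if_pos h3, if_neg (by omega), if_neg (by omega)]
      rw [h3] at h6 ⊢
      push_cast at h6 ⊢
      linarith
    · by_cases h4 : D x y σ = -2
      · rw [if_neg h3, if_pos h4, if_neg (by omega)]
        rw [h4] at h6 ⊢
        push_cast at h6 ⊢
        linarith
      · by_cases h5 : D x y σ = -3
        · rw [if_neg h3, if_neg h4, if_pos h5]
          rw [h5] at h6 ⊢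
          push_cast at h6 ⊢
          linarith
        · rw [if_neg h3, if_neg h4, if_neg h5]
          have h8 : ((D x y σ : ℤ) : ℝ) ≤ -4 := by
            have : D x y σ ≤ -4 := by omega
            exact_mod_cast this
          linarith
  · rw [if_neg h1, if_neg (by omega), if_neg (by omega), if_neg (by omega)]
    linarith

end Pool.Agent.BFT
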