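import Mathlib

/-!
# The pair lemma (numbers)
-/

set_option autoImplicit false

namespace Pool.Agent.BFT

/-- all inequalities for an incomparable pair: `q = Pr (y < x)`, `A k = Pr (X = k)`,
`B k = Pr (X = - k)`, `be = A 1 = B 1`, `m = E [X⁻]`, `EX = E [X]` for `X = s y - s x` -/
structure PairIneq (q be A2 A3 B2 B3 m EX : ℝ) : Prop where
  q_pos : 0 < q
  be_pos : 0 < be
  be_le : be ≤ q
  A2_nonneg : 0 ≤ A2
  B2_nonneg : 0 ≤ B2
  m_nonneg : 0 ≤ m
  S1 : A2 ≤ (1 - q) / 2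
  S2 : A2 + B2 ≤ 2 * be
  S3 : A3 ≤ 2 * A2
  S3' : B3 ≤ 2 * B2
  T1 : m * be ≤ q ^ 2
  T2 : m * (Real.log (1 / q) - 1) ≤ q * EX
  E1 : 3 * (1 - q) - 2 * be - A2 - m ≤ EX
  E2 : 4 * (1 - q) - 3 * be - 2 * A2 - A3 - m ≤ EX
  M : 4 * q - 3 * be - 2 * B2 - B3 ≤ m

variable {q be A2 A3 B2 B3 m EX : ℝ}

lemma log_q (h0 : 0 < q) (h1 : q ≤ 0.2765) : 1.2855 ≤ Real.log (1 / q) := by
  have h2 : Real.exp 1.2855 ≤ 1 / q := by
    have h3 : Real.exp 1.2855 ≤ 1 / 0.2765 := by
      have h4 := Real.exp_bound' (x := 0.2855) (by norm_num) (by norm_num) (n := 8) (by norm_num)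
      have h5 : Real.exp 1.2855 = Real.exp 1 * Real.exp 0.2855 := by
        rw [← Real.exp_add]; norm_num
      have h6 : Real.exp 1 < 2.7182818286 := Real.exp_one_lt_d9
      rw [h5]
      have h7 : Real.exp 0.2855 ≤ 1.33043 := by
        refine h4.trans ?_
        simp only [Finset.sum_range_succ, Finset.sum_range_zero, Nat.factorial]
        norm_num
      have h8 : 0 < Real.exp 0.2855 := Real.exp_pos _
      have h9 : Real.exp 1 * Real.exp 0.2855 ≤ 2.7182818286 * 1.33043 := by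
        apply mul_le_mul h6.le h7 h8.le (by norm_num)
      refine h9.trans ?_
      norm_num
    exact h3.trans (one_div_le_one_div_of_le h0 h1)
  rw [Real.le_log_iff_exp_le (by positivity)]
  exact h2

/-- normalised form -/
lemma PairIneq.norm (h : PairIneq q be A2 A3 B2 B3 m EX) (hq : q ≤ 0.2765) :
    ∃ x mu b : ℝ, 0 < x ∧ x ≤ 1 ∧ 0 ≤ mu ∧ 0 ≤ b ∧ b ≤ 2 * x ∧ be = x * q ∧ m = mu * q ∧
      x * mu ≤ 1 ∧ mu * 0.2855 ≤ EX ∧ 2.5 - 0.2765 * (2.5 + 2 * x + mu) ≤ EX ∧
      3 - 0.2765 * (3 + 4 * x - b + mu) ≤ EX ∧ 4 - 0.2765 * (4 + 11 * x - 4 * b + mu) ≤ EX ∧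
      4 - 3 * x - 4 * b ≤ mu ∧ 2.5 - 0.2765 * (2.5 + x + mu) ≤ EX + be ∧
      3 - 0.2765 * (3 + 3 * x + mu) ≤ EX + be ∧ 4 - 0.2765 * (4 + 10 * x + mu) ≤ EX + be := by
  have q0 := h.q_pos
  have hl := log_q q0 hq
  obtain ⟨x, hx⟩ : ∃ x, be = x * q := ⟨be / q, by field_simp⟩
  obtain ⟨mu, hmu⟩ : ∃ mu, m = mu * q := ⟨m / q, by field_simp⟩
  obtain ⟨b, hb⟩ : ∃ b, B2 = b * q := ⟨B2 / q, by field_simp⟩
  have hb0 := h.be_pos
  have hm0 := h.m_nonneg
  have hB0 := h.B2_nonneg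
  have hA0 := h.A2_nonneg
  have e1 := h.be_le
  have s1 := h.S1
  have s2 := h.S2
  have s3 := h.S3
  have s4 := h.S3'
  have t1 := h.T1
  have t2 := h.T2
  have E1 := h.E1
  have E2 := h.E2
  have M := h.M
  subst hx hmu hb
  have x0 : 0 < x := pos_of_mul_pos_left hb0 q0.le
  have x1 : x ≤ 1 := by
    by_contra hc
    push Not at hc
    nlinarith
  have mu0 : 0 ≤ mu := nonneg_of_mul_nonneg_left hm0 q0
  have b0 : 0 ≤ b := nonneg_of_mul_nonneg_left hB0 q0
  have b1 : b ≤ 2 * x := by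
    by_contra hc
    push Not at hc
    nlinarith
  have t1' : x * mu ≤ 1 := by
    by_contra hc
    push Not at hc
    have : 0 < q ^ 2 * (x * mu - 1) := mul_pos (by positivity) (by linarith)
    nlinarith
  have t2' : mu * 0.2855 ≤ EX := by
    have h1 : mu * q * 0.2855 ≤ q * EX := by
      refine le_trans ?_ t2
      exact mul_le_mul_of_nonneg_left (by linarith) hm0
    have h2 : q * (mu * 0.2855) ≤ q * EX := by linarith
    exact le_of_mul_le_mul_left h2 q0
  have lin : ∀ c d : ℝ, 0 ≤ d → c - q * d ≥ c - 0.2765 * d := by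
    intro c d hd
    nlinarith
  refine ⟨x, mu, b, x0, x1, mu0, b0, b1, rfl, rfl, t1', t2', ?_, ?_, ?_, ?_, ?_, ?_, ?_⟩
  · have := lin 2.5 (2.5 + 2 * x + mu) (by linarith)
    nlinarith
  · have := lin 3 (3 + 4 * x - b + mu) (by linarith)
    nlinarith
  · have := lin 4 (4 + 11 * x - 4 * b + mu) (by linarith)
    nlinarith
  · have h1 : (4 - 3 * x - 4 * b) * q ≤ mu * q := by nlinarith
    exact le_of_mul_le_mul_right h1 q0
  · have := lin 2.5 (2.5 + x + mu) (by linarith)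
    nlinarith
  · have := lin 3 (3 + 3 * x + mu) (by linarith)
    nlinarith
  · have := lin 4 (4 + 10 * x + mu) (by linarith)
    nlinarith

/-- convexity bound: `x μ ≤ 1` on an interval -/
lemma chord {x mu c K lo hi : ℝ} (x0 : 0 < x) (h1 : lo ≤ x) (h2 : x ≤ hi) (h : x * mu ≤ 1)
    (k1 : c * lo ^ 2 - K * lo + 1 ≤ 0) (k2 : c * hi ^ 2 - K * hi + 1 ≤ 0) (hc : 0 ≤ c) :
    c * x + mu ≤ K := by
  by_contra hcon
  push Not at hcon
  have h3 : x * (c * x + mu - K) ≤ c * x ^ 2 - K * x + 1 := by nlinarith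
  have h4 : 0 < x * (c * x + mu - K) := mul_pos x0 (by linarith)
  have h5 : c * x ^ 2 - K * x + 1 ≤ 0 := by
    rcases eq_or_lt_of_le (h1.trans h2) with h6 | h6
    · have : x = lo := by linarith
      subst this; exact k1
    · have h7 : 0 ≤ c * ((x - lo) * (hi - x)) :=
        mul_nonneg hc (mul_nonneg (by linarith) (by linarith))
      have e : (hi - lo) * (c * x ^ 2 - K * x + 1) =
          (hi - x) * (c * lo ^ 2 - K * lo + 1) + (x - lo) * (c * hi ^ 2 - K * hi + 1) -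
            (hi - lo) * (c * ((x - lo) * (hi - x))) := by ring
      have h8 : (hi - x) * (c * lo ^ 2 - K * lo + 1) ≤ 0 :=
        mul_nonpos_of_nonneg_of_nonpos (by linarith) k1
      have h9 : (x - lo) * (c * hi ^ 2 - K * hi + 1) ≤ 0 :=
        mul_nonpos_of_nonneg_of_nonpos (by linarith) k2
      have h10 : 0 ≤ (hi - lo) * (c * ((x - lo) * (hi - x))) := mul_nonneg (by linarith) h7
      have h11 : (hi - lo) * (c * x ^ 2 - K * x + 1) ≤ 0 := by rw [e]; linarith
      by_contra hc2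
      push Not at hc2
      have : 0 < (hi - lo) * (c * x ^ 2 - K * x + 1) := mul_pos (by linarith) hc2
      linarith
  linarith

/-- (a) -/
theorem PairIneq.a (h : PairIneq q be A2 A3 B2 B3 m EX) (hq : q ≤ 0.2765) : 0.979 ≤ EX := by
  obtain ⟨x, mu, b, x0, x1, mu0, b0, b1, -, -, t1, t2, k1, k2, k3, k4, -, -, -⟩ := h.norm hq
  rcases le_total 0.5 x with c | c
  · have := chord (c := 2) (K := 3) x0 c x1 t1 (by norm_num) (by norm_num) (by norm_num)
    linarith
  rcases le_total 0.34 x with c' | c'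
  · have := chord (c := 4) (K := 4.309) x0 c' c t1 (by norm_num) (by norm_num) (by norm_num)
    linarith
  rcases le_total 0.3 x with c'' | c''
  · have := chord (c := 11) (K := 6.9) x0 c'' c' t1 (by norm_num) (by norm_num) (by norm_num)
    linarith
  · linarith

/-- (b) -/
theorem PairIneq.b (h : PairIneq q be A2 A3 B2 B3 m EX) (hq : q ≤ 0.2765)
    (hx : be ≤ 0.73 * q) : 1.021 ≤ EX := by
  have q0 := h.q_pos
  obtain ⟨x, mu, b, x0, x1, mu0, b0, b1, e1, -, t1, t2, k1, k2, k3, k4, -, -, -⟩ := h.norm hq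
  have x2 : x ≤ 0.73 := by
    rw [e1] at hx
    exact le_of_mul_le_mul_right hx q0
  rcases le_total 0.66 x with c | c
  · have := chord (c := 2) (K := 2.849) x0 c x2 t1 (by norm_num) (by norm_num) (by norm_num)
    linarith
  rcases le_total 0.38 x with c' | c'
  · have := chord (c := 4) (K := 4.157) x0 c' c t1 (by norm_num) (by norm_num) (by norm_num)
    linarith
  rcases le_total 0.37 x with c2 | c2
  · have := chord (c := 7) (K := 5.38) x0 c2 c' t1 (by norm_num) (by norm_num) (by norm_num)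
    linarith
  rcases le_total 0.29 x with c3 | c3
  · have := chord (c := 11) (K := 6.7735) x0 c3 c2 t1 (by norm_num) (by norm_num) (by norm_num)
    linarith
  · linarith

/-- (c) -/
theorem PairIneq.c (h : PairIneq q be A2 A3 B2 B3 m EX) :
    2.5 * (1 - q) - 2 * be - q ^ 2 / be ≤ EX := by
  have h1 : m ≤ q ^ 2 / be := by rw [le_div_iff₀ h.be_pos]; exact h.T1
  linarith [h.E1, h.S1]

/-- (d) -/
theorem PairIneq.d (h : PairIneq q be A2 A3 B2 B3 m EX) (hq : q ≤ 0.2765) : 1 ≤ EX + be := by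
  obtain ⟨x, mu, b, x0, x1, mu0, b0, b1, e1, -, t1, t2, -, -, k3, -, k1, k2, k4⟩ := h.norm hq
  rcases le_total 0.5 x with c | c
  · have := chord (c := 1) (K := 2.9) x0 c x1 t1 (by norm_num) (by norm_num) (by norm_num)
    linarith
  rcases le_total 0.33 x with c' | c'
  · have := chord (c := 3) (K := 4.2) x0 c' c t1 (by norm_num) (by norm_num) (by norm_num)
    linarith
  rcases le_total 0.25 x with c2 | c2
  · have := chord (c := 10) (K := 6.8) x0 c2 c' t1 (by norm_num) (by norm_num) (by norm_num)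
    linarith
  · have hb0 := h.be_pos
    linarith

end Pool.Agent.BFT
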