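import Mathlib
import Pool.Agent.BFT.Defs
import Pool.Agent.Helper73.KM.Model

/-! # The law of `t x - t y` in the order polytope model: basic facts (owner: helper46) -/

set_option autoImplicit false

namespace Pool.Agent.BFT

open MeasureTheory Pool.Agent.Helper1.Balance Pool.Agent.Helper8.KS Pool.Agent.Helper18.KSC
  Pool.Agent.Helper73.KM

variable {n : ℕ} {r : Fin n → Fin n → Prop}

/-- tail of `t x - t y` in the order polytope model -/
noncomputable def G (r : Fin n → Fin n → Prop) (x y : Fin n) (s : ℝ) : ℝ :=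
  (nu r).real {t | s ≤ t x - t y}

theorem G_meas (x y : Fin n) (s : ℝ) : MeasurableSet {t : Fin n → ℝ | s ≤ t x - t y} :=
  measurableSet_le measurable_const ((measurable_pi_apply x).sub (measurable_pi_apply y))

theorem ae_ne (r : Fin n → Fin n → Prop) {x y : Fin n} (h : x ≠ y) (c : ℝ) :
    ∀ᵐ t ∂(nu r), t x - t y ≠ c := by
  rw [ae_iff]
  have := nu_noatom r x y h c
  simpa using this

theorem G_zero (hr : IsPoset r) {x y : Fin n} (h : x ≠ y) : G r x y 0 = prob r y x := by
  rw [← nu_prob_lt]
  unfold G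
  refine measureReal_congr ?_
  rw [Filter.eventuallyEq_set]
  filter_upwards [ae_ne r h 0] with t ht
  constructor
  · intro h1
    have h2 : 0 ≤ t x - t y := h1
    have h3 := lt_of_le_of_ne h2 (Ne.symm ht)
    exact sub_pos.1 h3
  · intro h1
    have h2 : t y < t x := h1
    exact (sub_pos.2 h2).le

theorem G_nonneg (r : Fin n → Fin n → Prop) (x y : Fin n) (s : ℝ) : 0 ≤ G r x y s :=
  measureReal_nonneg

theorem G_le_one (hr : IsPoset r) (x y : Fin n) (s : ℝ) : G r x y s ≤ 1 := by
  have := nu_prob hr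
  exact measureReal_le_one

theorem G_antitone (hr : IsPoset r) (x y : Fin n) : Antitone (G r x y) := by
  have := nu_prob hr
  intro a b hab
  refine measureReal_mono ?_
  intro t ht
  exact hab.trans ht

/-- midpoint log-concavity -/
theorem G_mid (hr : IsPoset r) (x y : Fin n) (a b : ℝ) :
    G r x y a * G r x y b ≤ G r x y ((a + b) / 2) ^ 2 := by
  refine nu_mid r _ _ _ (G_meas x y a) (G_meas x y b) (G_meas x y _) ?_
  intro u hu v hv _ _
  have h1 : a ≤ u x - u y := hu
  have h2 : b ≤ v x - v y := hv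
  change (a + b) / 2 ≤ (u x + v x) / 2 - (u y + v y) / 2
  linarith

theorem G_eq_zero (hr : IsPoset r) (x y : Fin n) {s : ℝ} (hs : (n : ℝ) + 1 < s) :
    G r x y s = 0 := by
  unfold G
  rw [measureReal_eq_zero_iff (by have := nu_prob hr; exact measure_ne_top _ _)]
  rw [measure_eq_zero_iff_ae_notMem]
  filter_upwards [nu_mem r] with t ht h1
  have h2 : s ≤ t x - t y := h1
  have h3 := ht.1 x
  have h4 := ht.1 y
  linarith

theorem G_eq_one (hr : IsPoset r) (x y : Fin n) {s : ℝ} (hs : (n : ℝ) + 1 ≤ s) :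
    G r x y (-s) = 1 := by
  have := nu_prob hr
  have h1 : (nu r).real (Set.univ : Set (Fin n → ℝ)) = 1 := by simp
  rw [← h1]
  unfold G
  refine measureReal_congr ?_
  rw [Filter.eventuallyEq_set]
  filter_upwards [nu_mem r] with t ht
  refine iff_of_true ?_ trivial
  have h3 := ht.1 x
  have h4 := ht.1 y
  change -s ≤ t x - t y
  linarith

/-- `E[max (t x - t y) 0]` as an average over linear extensions -/
theorem nu_max (hr : IsPoset r) (x y : Fin n) :
    ∫ t, max (t x - t y) 0 ∂(nu r) = mneg r x y := by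
  have e1 : (fun t : Fin n → ℝ => max (t x - t y) 0) =
      fun t => (1 / 2) * (|t x - t y| + (t x - t y)) := by
    funext t
    rcases le_total 0 (t x - t y) with h | h
    · rw [max_eq_left h, abs_of_nonneg h]; ring
    · rw [max_eq_right h, abs_of_nonpos h]; ring
  have hp := nu_prob hr
  have hi : Integrable (fun t : Fin n → ℝ => t x - t y) (nu r) := by
    refine Integrable.of_bound (C := (n : ℝ) + 1) ?_ ?_
    · exact Continuous.aestronglyMeasurable (by fun_prop)
    · filter_upwards [nu_mem r] with t ht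
      have h3 := ht.1 x
      have h4 := ht.1 y
      rw [Real.norm_eq_abs, abs_le]
      constructor <;> linarith
  rw [e1, integral_const_mul, integral_add hi.abs hi, nu_absm, nu_mean]
  unfold mneg ht
  rw [← Ex_sub, ← Ex_add, ← Ex_mul_left]
  congr 1
  funext σ
  unfold D pos
  push_cast
  have e2 : ∀ a b : ℝ, (1 / 2) * (|a + 1 - (b + 1)| + (a + 1 - (b + 1))) = max (-(b - a)) 0 := by
    intro a b
    rw [show a + 1 - (b + 1) = a - b by ring, show -(b - a) = a - b by ring]
    rcases le_total 0 (a - b) with h | h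
    · rw [max_eq_left h, abs_of_nonneg h]; ring
    · rw [max_eq_right h, abs_of_nonpos h]; ring
  exact e2 _ _

/-- `E[max (t x - t y) 0]` -/
theorem int_G (hr : IsPoset r) {x y : Fin n} (h : x ≠ y) {R : ℝ} (hR : (n : ℝ) + 1 ≤ R) :
    ∫ s in (0 : ℝ)..R, G r x y s = mneg r x y := by
  have hp := nu_prob hr
  have hR0 : 0 ≤ R := by
    have : (0 : ℝ) ≤ n := Nat.cast_nonneg n
    linarith
  have hb : ∀ᵐ t ∂(nu r), max (t x - t y) 0 ≤ R := by
    filter_upwards [nu_mem r] with t ht
    have h3 := ht.1 x
    have h4 := ht.1 y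
    exact max_le (by linarith) hR0
  have hi : Integrable (fun t : Fin n → ℝ => max (t x - t y) 0) (nu r) := by
    refine Integrable.of_bound (C := R) ?_ ?_
    · exact Continuous.aestronglyMeasurable (by fun_prop)
    · filter_upwards [hb] with t ht
      rw [Real.norm_of_nonneg (le_max_right _ _)]
      exact ht
  rw [← nu_max hr, hi.integral_eq_integral_Ioc_meas_le
    (Filter.Eventually.of_forall fun t => le_max_right _ _) hb,
    intervalIntegral.integral_of_le hR0]
  refine setIntegral_congr_fun measurableSet_Ioc fun s hs => ?_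
  unfold G
  congr 1
  ext t
  change s ≤ t x - t y ↔ s ≤ max (t x - t y) 0
  rw [le_max_iff]
  constructor
  · exact Or.inl
  · rintro (h1 | h1)
    · exact h1
    · exact absurd hs.1 (not_lt.2 h1)

theorem G_neg (hr : IsPoset r) {x y : Fin n} (h : x ≠ y) (s : ℝ) :
    1 - G r x y (-s) = G r y x s := by
  have hp := nu_prob hr
  have h1 : (nu r).real {t : Fin n → ℝ | -s ≤ t x - t y}ᶜ =
      1 - (nu r).real {t : Fin n → ℝ | -s ≤ t x - t y} := probReal_compl_eq_one_sub (G_meas x y _)
  unfold G
  rw [← h1]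
  refine measureReal_congr ?_
  rw [Filter.eventuallyEq_set]
  filter_upwards [ae_ne r h (-s)] with t ht
  change ¬ (-s ≤ t x - t y) ↔ s ≤ t y - t x
  rw [not_le]
  constructor
  · intro h2
    linarith
  · intro h2
    exact lt_of_le_of_ne (by linarith) ht

/-- `E[max (t y - t x) 0]` -/
theorem int_G_neg (hr : IsPoset r) {x y : Fin n} (h : x ≠ y) {R : ℝ} (hR : (n : ℝ) + 1 ≤ R) :
    ∫ s in (0 : ℝ)..R, (1 - G r x y (-s)) = mn r x y + mneg r x y := by
  simp only [G_neg hr h]
  rw [int_G hr h.symm hR]
  unfold mneg mn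
  rw [← Ex_add]
  congr 1
  funext σ
  unfold D
  push_cast
  have e2 : ∀ a b : ℝ, max (-(a - b)) 0 = (b - a) + max (-(b - a)) 0 := by
    intro a b
    rcases le_total a b with h | h
    · rw [max_eq_left (by linarith), max_eq_right (by linarith)]; ring
    · rw [max_eq_right (by linarith), max_eq_left (by linarith)]; ring
  exact e2 _ _

end Pool.Agent.BFT
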