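import Mathlib
import Pool.Agent.BFT.TailBase

/-! # Chambers: the mass of `0 ≤ t x - t y < h` (owner: helper68) -/

set_option autoImplicit false

namespace Pool.Agent.BFT

open MeasureTheory Pool.Agent.Helper1.Balance Pool.Agent.Helper8.KS Pool.Agent.Helper18.KSC
  Pool.Agent.Helper73.KM

variable {n : ℕ} {r : Fin n → Fin n → Prop}

namespace Ch

open Pool.Agent.Helper73.KS Set

theorem nu_real_PV (r : Fin n → Fin n → Prop) {A : Set (Fin n → ℝ)} (hA : MeasurableSet A) :
    (nu r).real A = ((PV (Fin n)).real (Cone r))⁻¹ *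
      (PV (Fin n)).real (Cone r ∩ {u | ((n : ℝ) + 1) • u ∈ A}) := by
  have h1 : (nu r).real A = ∫ t, A.indicator (fun _ => (1 : ℝ)) t ∂(nu r) := by
    rw [integral_indicator_const _ hA, smul_eq_mul, mul_one]
  have hm : MeasurableSet {u : Fin n → ℝ | ((n : ℝ) + 1) • u ∈ A} :=
    (measurable_const_smul ((n : ℝ) + 1)) hA
  have e : (fun u : Fin n → ℝ => A.indicator (fun _ => (1 : ℝ)) (((n : ℝ) + 1) • u)) =
      ({u : Fin n → ℝ | ((n : ℝ) + 1) • u ∈ A}).indicator fun _ => (1 : ℝ) := by
    funext u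
    by_cases hu : ((n : ℝ) + 1) • u ∈ A
    · rw [indicator_of_mem hu, indicator_of_mem]
      exact hu
    · rw [indicator_of_notMem hu, indicator_of_notMem]
      exact hu
  rw [h1, nu_int, e, integral_indicator_const _ hm, smul_eq_mul, mul_one,
    measureReal_restrict_apply hm, inter_comm]

theorem Vs_eq (σ : Equiv.Perm (Fin n)) : (PV (Fin n)).real (Dc σ) = Vs n := by
  rw [Dc_vol]
  unfold Vs
  rw [J_Dc, real_eq]

/-- the closed chamber -/
def Ec (σ : Equiv.Perm (Fin n)) : Set (Fin n → ℝ) := {u | ∀ a b, σ a < σ b → u a ≤ u b}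

theorem Ec_vol (σ : Equiv.Perm (Fin n)) : (PV (Fin n)).real (Ec σ) = Vs n := by
  have h := count (Ec σ) (fun τ => τ = σ) fun τ u hu => by
    constructor
    · intro h
      have h1 : ∀ a b, τ a < τ b → σ a < σ b := by
        intro a b hab
        by_contra hc
        have hne : a ≠ b := fun he => by
          subst he
          exact lt_irrefl _ hab
        have hlt : σ b < σ a := lt_of_le_of_ne (not_lt.1 hc) fun he => hne (σ.injective he.symm)
        have := h b a hlt
        exact absurd (hu a b hab) (not_lt.2 this)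
      refine Dc_disj hu (σ' := σ) ?_
      intro a b hab
      refine hu a b ?_
      by_contra hc
      have hne : a ≠ b := fun he => by
        subst he
        exact lt_irrefl _ hab
      have hlt : τ b < τ a := lt_of_le_of_ne (not_lt.1 hc) fun he => hne (τ.injective he.symm)
      exact absurd (h1 b a hlt) (not_lt.2 hab.le)
    · rintro rfl a b hab
      exact (hu a b hab).le
  rw [h, ← Dc_vol (1 : Equiv.Perm (Fin n)), Vs_eq]
  simp

open scoped Pointwise in
/-- the part of a chamber with a large gap -/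
theorem gap_le {σ : Equiv.Perm (Fin n)} {x y : Fin n} (hD : D x y σ = -1) {c : ℝ} (hc : 0 ≤ c) :
    (PV (Fin n)).real (Dc σ ∩ {u | 1 - c ≤ u x - u y}) ≤ c ^ n * Vs n := by
  have hσ : (σ y : ℕ) + 1 = σ x := by
    unfold D at hD
    omega
  have hcub : MeasurableSet (cub (Fin n)) := MeasurableSet.univ_pi fun _ => measurableSet_Icc
  have hEm : MeasurableSet (Ec σ) := by
    have e : Ec σ = ⋂ a : Fin n, ⋂ b : Fin n, {u : Fin n → ℝ | σ a < σ b → u a ≤ u b} := by
      ext u
      simp only [mem_iInter]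
      exact Iff.rfl
    rw [e]
    refine MeasurableSet.iInter fun a => MeasurableSet.iInter fun b => ?_
    by_cases h : σ a < σ b
    · have e2 : {u : Fin n → ℝ | σ a < σ b → u a ≤ u b} = {u : Fin n → ℝ | u a ≤ u b} := by
        ext u
        exact ⟨fun hu => hu h, fun hu _ => hu⟩
      rw [e2]
      exact measurableSet_le (measurable_pi_apply a) (measurable_pi_apply b)
    · have e2 : {u : Fin n → ℝ | σ a < σ b → u a ≤ u b} = univ := by
        ext u
        exact ⟨fun _ => trivial, fun _ hab => absurd hab h⟩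
      rw [e2]
      exact MeasurableSet.univ
  have hgm : MeasurableSet {u : Fin n → ℝ | 1 - c ≤ u x - u y} :=
    measurableSet_le measurable_const ((measurable_pi_apply x).sub (measurable_pi_apply y))
  -- the translation
  set v : Fin n → ℝ := fun a => if σ x ≤ σ a then -(1 - c) else 0 with hv
  have hsub : Dc σ ∩ {u | 1 - c ≤ u x - u y} ∩ cub (Fin n) ⊆
      (fun u => v + u) ⁻¹' (c • (Ec σ ∩ cub (Fin n))) := by
    rintro u ⟨⟨hu, hgap⟩, hcu⟩
    rw [mem_ofPred_eq] at hgap
    have hcu' : ∀ a, 0 ≤ u a ∧ u a ≤ 1 := fun a => hcu a (mem_univ a)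
    have hin : ∀ a, 0 ≤ (v + u) a ∧ (v + u) a ≤ c := by
      intro a
      rw [Pi.add_apply, hv]
      simp only
      split_ifs with h
      · have h1 := (Dc_le hu x a).2 h
        have h2 := hcu' a
        have h3 := hcu' y
        constructor <;> linarith
      · have h1 : σ a ≤ σ y := by
          rw [Fin.le_def] at h ⊢
          omega
        have h2 := (Dc_le hu a y).2 h1
        have h3 := hcu' a
        have h4 := hcu' x
        constructor <;> linarith
    have hord : ∀ a b, σ a < σ b → (v + u) a ≤ (v + u) b := by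
      intro a b hab
      have h0 := hu a b hab
      rw [Pi.add_apply, Pi.add_apply, hv]
      simp only
      split_ifs with h h' h'
      · linarith
      · exfalso
        exact h' (h.trans hab.le)
      · have h1 : σ a ≤ σ y := by
          rw [Fin.le_def] at h ⊢
          omega
        have h2 := (Dc_le hu a y).2 h1
        have h3 := (Dc_le hu x b).2 h'
        linarith
      · linarith
    rw [mem_preimage]
    rcases hc.lt_or_eq with hpos | hzero
    · rw [mem_smul_set_iff_inv_smul_mem₀ hpos.ne']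
      refine ⟨fun a b hab => ?_, fun a _ => ?_⟩
      · rw [Pi.smul_apply, Pi.smul_apply, smul_eq_mul, smul_eq_mul]
        exact mul_le_mul_of_nonneg_left (hord a b hab) (inv_nonneg.2 hc)
      · rw [Pi.smul_apply, smul_eq_mul, mem_Icc, inv_mul_le_iff₀ hpos, mul_one]
        exact ⟨mul_nonneg (inv_nonneg.2 hc) (hin a).1, (hin a).2⟩
    · rw [← hzero]
      refine mem_smul_set.2 ⟨0, ⟨fun _ _ _ => le_rfl, fun _ _ => ⟨le_rfl, zero_le_one⟩⟩, ?_⟩
      rw [zero_smul]
      funext a
      have := hin a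
      rw [← hzero] at this
      exact le_antisymm this.1 this.2
  have key : (volume : Measure (Fin n → ℝ)) (Dc σ ∩ {u | 1 - c ≤ u x - u y} ∩ cub (Fin n)) ≤
      ENNReal.ofReal (c ^ n) * volume (Ec σ ∩ cub (Fin n)) := by
    refine (measure_mono hsub).trans ?_
    rw [measure_preimage_add, Measure.addHaar_smul, Module.finrank_fintype_fun_eq_card,
      Fintype.card_fin, abs_of_nonneg (pow_nonneg hc n)]
  have hPE : (PV (Fin n)) (Ec σ) = volume (Ec σ ∩ cub (Fin n)) := by
    rw [PV_eq, Measure.restrict_apply hEm]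
  have hPD : (PV (Fin n)) (Dc σ ∩ {u | 1 - c ≤ u x - u y}) =
      volume (Dc σ ∩ {u | 1 - c ≤ u x - u y} ∩ cub (Fin n)) := by
    rw [PV_eq, Measure.restrict_apply ((Dc_meas σ).inter hgm)]
  rw [← Ec_vol σ]
  unfold Measure.real
  rw [hPD, hPE]
  have hfin : volume (Ec σ ∩ cub (Fin n)) ≠ ⊤ := by
    rw [← hPE]
    exact measure_ne_top _ _
  have h2 := ENNReal.toReal_mono (ENNReal.mul_ne_top ENNReal.ofReal_ne_top hfin) key
  rw [ENNReal.toReal_mul, ENNReal.toReal_ofReal (pow_nonneg hc n)] at h2
  exact h2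

theorem alg {F L V e : ℝ} (hL : 0 < L) (hV : 0 < V) :
    F / L * e = (L * V)⁻¹ * (F * (e * V)) := by
  field_simp

end Ch

open Ch Pool.Agent.Helper73.KS in
/-- In the chamber of a linear extension with `x` right after `y` translate all coordinates from
`x` upwards by `-h`: the image of `{t x - t y ≥ h}` lies in the chamber scaled by
`1 - h / (n + 1)`. -/
theorem G_le_chamber (hr : IsPoset r) {x y : Fin n} (h : x ≠ y) {s : ℝ} (hs : 0 ≤ s)
    (hs' : s ≤ n + 1) :
    G r x y s ≤ prob r y x - gp r x y (-1) * (1 - (1 - s / (n + 1)) ^ n) := by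
  classical
  have hn0 : (0 : ℝ) < (n : ℝ) + 1 := by positivity
  set c : ℝ := 1 - s / (n + 1) with hcdef
  have hc0 : 0 ≤ c := by
    rw [hcdef, sub_nonneg, div_le_one hn0]
    exact hs'
  have hc1 : c ≤ 1 := by
    rw [hcdef]
    have : 0 ≤ s / ((n : ℝ) + 1) := by positivity
    linarith
  have hsc : s / (n + 1) = 1 - c := by rw [hcdef]; ring
  -- the sets
  have hPVp : IsProbabilityMeasure (PV (Fin n)) := by infer_instance
  set T : Set (Fin n → ℝ) := {u | 1 - c ≤ u x - u y} with hT
  set P : Set (Fin n → ℝ) := {u | u y < u x} with hP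
  have hTm : MeasurableSet T :=
    measurableSet_le measurable_const ((measurable_pi_apply x).sub (measurable_pi_apply y))
  have hPm : MeasurableSet P := measurableSet_lt (measurable_pi_apply y) (measurable_pi_apply x)
  have hG : G r x y s = ((PV (Fin n)).real (Cone r))⁻¹ * (PV (Fin n)).real (Cone r ∩ T) := by
    unfold G
    have hm1 : MeasurableSet {t : Fin n → ℝ | s ≤ t x - t y} :=
      measurableSet_le measurable_const ((measurable_pi_apply x).sub (measurable_pi_apply y))
    rw [nu_real_PV r hm1]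
    congr 3
    ext u
    rw [Set.mem_ofPred_eq, Set.mem_ofPred_eq, hT, Set.mem_ofPred_eq, ← hsc, div_le_iff₀ hn0,
      Pi.smul_apply, Pi.smul_apply, smul_eq_mul, smul_eq_mul, ← mul_sub, mul_comm]
  have hprob : prob r y x = ((PV (Fin n)).real (Cone r))⁻¹ * (PV (Fin n)).real (Cone r ∩ P) := by
    rw [← nu_prob_lt, nu_real_PV r (measurableSet_lt (measurable_pi_apply y)
      (measurable_pi_apply x))]
    congr 3
    ext u
    rw [Set.mem_ofPred_eq, Set.mem_ofPred_eq, hP, Set.mem_ofPred_eq, Pi.smul_apply, Pi.smul_apply,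
      smul_eq_mul, smul_eq_mul, mul_lt_mul_iff_right₀ hn0]
  set Fs : Finset (Equiv.Perm (Fin n)) := (LEs r).filter (fun σ => D x y σ = -1) with hFs
  have hgp : gp r x y (-1) = (Fs.card : ℝ) / ((LEs r).card : ℝ) := by
    unfold gp
    rw [Pr_eq_card, hFs]
    congr!
  set U : Set (Fin n → ℝ) := ⋃ σ ∈ Fs, (Dc σ \ T) with hU
  have hUm : ∀ σ ∈ Fs, MeasurableSet (Dc σ \ T) := fun σ _ => (Dc_meas σ).diff hTm
  have hUmeas : MeasurableSet U := Finset.measurableSet_biUnion _ hUm
  -- the measure of `U`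
  have hUvol : (Fs.card : ℝ) * ((1 - c ^ n) * Vs n) ≤ (PV (Fin n)).real U := by
    rw [hU, measureReal_biUnion_finset _ hUm]
    · rw [← nsmul_eq_mul, ← Finset.sum_const]
      refine Finset.sum_le_sum fun σ hσ => ?_
      have h1 := gap_le (Finset.mem_filter.1 hσ).2 hc0
      have h2 := measureReal_inter_add_sdiff (μ := PV (Fin n)) (s := Dc σ) hTm
      rw [Vs_eq] at h2
      rw [← hT] at h1
      linarith
    · intro σ _ τ _ hne
      rw [Function.onFun, Set.disjoint_left]
      rintro u ⟨hu, -⟩ ⟨hu', -⟩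
      exact hne (Dc_disj hu hu')
  -- `U` and `Cone ∩ T` inside `Cone ∩ P`
  have hcone : ∀ σ ∈ LEs r, ∀ u ∈ Dc σ, u ∈ Cone r := by
    intro σ hσ u hu a b hab
    exact (Dc_le hu a b).2 (mem_LEs.1 hσ a b hab)
  have hsum : (PV (Fin n)).real (Cone r ∩ T) + (PV (Fin n)).real U ≤
      (PV (Fin n)).real (Cone r ∩ P) := by
    have e1 : (PV (Fin n)).real (Cone r ∩ T) = (PV (Fin n)).real (Cone r ∩ T ∩ P) := by
      refine measureReal_congr ?_
      rw [Filter.eventuallyEq_set]
      filter_upwards [ae_inj n] with u hu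
      constructor
      · intro h1
        refine ⟨h1, ?_⟩
        have h2 : 1 - c ≤ u x - u y := h1.2
        have h3 : u y ≤ u x := by linarith
        exact lt_of_le_of_ne h3 fun he => h (hu he.symm)
      · exact fun h1 => h1.1
    rw [e1, ← measureReal_union _ hUmeas (measure_ne_top _ _) (measure_ne_top _ _)]
    · refine measureReal_mono ?_
      rintro u (⟨⟨h1, -⟩, h3⟩ | h1)
      · exact ⟨h1, h3⟩
      · rw [hU] at h1
        simp only [Set.mem_iUnion, exists_prop] at h1
        obtain ⟨σ, hσ, h2, -⟩ := h1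
        have h3 := Finset.mem_filter.1 hσ
        refine ⟨hcone σ h3.1 u h2, h2 y x ?_⟩
        have h4 := h3.2
        unfold D at h4
        rw [Fin.lt_def]
        omega
    · rw [Set.disjoint_left]
      rintro u ⟨⟨-, h1⟩, -⟩ h2
      rw [hU] at h2
      simp only [Set.mem_iUnion, exists_prop] at h2
      obtain ⟨σ, -, -, h3⟩ := h2
      exact h3 h1
  have hV := Vs_pos n
  have hL : (0 : ℝ) < ((LEs r).card : ℝ) := Nat.cast_pos.2 (LEs_nonempty hr).card_pos
  rw [hG, hprob, hgp, cone_count]
  have hpos : 0 < ((LEs r).card : ℝ) * Vs n := mul_pos hL hV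
  have e2 : (Fs.card : ℝ) / ((LEs r).card : ℝ) * (1 - c ^ n) =
      (((LEs r).card : ℝ) * Vs n)⁻¹ * ((Fs.card : ℝ) * ((1 - c ^ n) * Vs n)) := alg hL hV
  rw [e2, ← mul_sub]
  refine mul_le_mul_of_nonneg_left ?_ (inv_nonneg.2 hpos.le)
  linarith

end Pool.Agent.BFT
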