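import Mathlib
import Pool.Agent.BFT.TailCh

/-! # (T1) (owner: helper18) -/

set_option autoImplicit false

namespace Pool.Agent.BFT

open MeasureTheory Pool.Agent.Helper1.Balance Pool.Agent.Helper8.KS Pool.Agent.Helper18.KSC
  Pool.Agent.Helper73.KM

variable {n : ℕ} {r : Fin n → Fin n → Prop}

/-- ratios of a log-concave antitone sequence -/
theorem ratio_le {a : ℕ → ℝ} (h0 : ∀ k, 0 ≤ a k) (ha : Antitone a)
    (hm : ∀ k, a k * a (k + 2) ≤ a (k + 1) ^ 2) (k : ℕ) : a (k + 1) * a 0 ≤ a k * a 1 := by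
  induction k with
  | zero => rw [mul_comm]
  | succ k ih =>
    rcases (h0 (k + 1)).eq_or_lt with h1 | h1
    · have h2 : a (k + 2) ≤ a (k + 1) := ha (by omega)
      have h3 : a (k + 1 + 1) = 0 := le_antisymm (by rw [h1]; exact h2) (h0 _)
      rw [h3, ← h1]
      simp
    · have h2 : a (k + 1) ≤ a k := ha (by omega)
      have h3 : 0 < a k := lt_of_lt_of_le h1 h2
      have h4 : a k * (a (k + 1 + 1) * a 0) ≤ a k * (a (k + 1) * a 1) := by
        calc a k * (a (k + 1 + 1) * a 0) = (a k * a (k + 2)) * a 0 := by ring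
          _ ≤ a (k + 1) ^ 2 * a 0 := mul_le_mul_of_nonneg_right (hm k) (h0 0)
          _ = a (k + 1) * (a (k + 1) * a 0) := by ring
          _ ≤ a (k + 1) * (a k * a 1) := mul_le_mul_of_nonneg_left ih h1.le
          _ = a k * (a (k + 1) * a 1) := by ring
      exact le_of_mul_le_mul_left h4 h3

/-- sums of a log-concave antitone sequence -/
theorem sum_logconc {a : ℕ → ℝ} (h0 : ∀ k, 0 ≤ a k) (ha : Antitone a)
    (hm : ∀ k, a k * a (k + 2) ≤ a (k + 1) ^ 2) (N : ℕ) :
    (∑ k ∈ Finset.range N, a k) * (a 0 - a 1) ≤ a 0 ^ 2 := by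
  have h1 : ∑ k ∈ Finset.range N, a (k + 1) * a 0 ≤ ∑ k ∈ Finset.range N, a k * a 1 :=
    Finset.sum_le_sum (fun k _ => ratio_le h0 ha hm k)
  rw [← Finset.sum_mul, ← Finset.sum_mul] at h1
  have h2 : ∑ k ∈ Finset.range N, a (k + 1) = ∑ k ∈ Finset.range N, a k + a N - a 0 := by
    have := Finset.sum_range_succ' a N
    rw [Finset.sum_range_succ] at this
    linarith
  rw [h2] at h1
  have h3 := mul_nonneg (h0 N) (h0 0)
  nlinarith

/-- integral of an antitone midpoint log-concave function -/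
theorem int_logconc {g : ℝ → ℝ} (h0 : ∀ s, 0 ≤ g s) (hg : Antitone g)
    (hm : ∀ a b, g a * g b ≤ g ((a + b) / 2) ^ 2) {h : ℝ} (hh : 0 < h) (N : ℕ) :
    (∫ s in (0 : ℝ)..(h * N), g s) * (g 0 - g h) ≤ h * g 0 ^ 2 := by
  have h1 : ∫ s in (0 : ℝ)..(h * N), g s = h * ∫ u in (0 : ℝ)..N, g (h * u) := by
    rw [intervalIntegral.mul_integral_comp_mul_left, mul_zero]
  have h2 : (∫ u in (0 : ℝ)..N, g (h * u)) ≤ ∑ k ∈ Finset.range N, g (h * k) := by
    have h3 : AntitoneOn (fun u => g (h * u)) (Set.Icc (0 : ℝ) (0 + (N : ℝ))) := by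
      intro a _ b _ hab
      exact hg (mul_le_mul_of_nonneg_left hab hh.le)
    have h4 := h3.integral_le_sum
    simpa using h4
  have h5 := sum_logconc (a := fun k : ℕ => g (h * k)) (fun k => h0 _)
    (fun a b hab => hg (mul_le_mul_of_nonneg_left (by exact_mod_cast hab) hh.le))
    (fun k => by
      have := hm (h * (k : ℝ)) (h * ((k + 2 : ℕ) : ℝ))
      have e : (h * (k : ℝ) + h * ((k + 2 : ℕ) : ℝ)) / 2 = h * ((k + 1 : ℕ) : ℝ) := by
        push_cast
        ring
      rw [e] at this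
      exact this) N
  simp only [Nat.cast_zero, mul_zero, Nat.cast_one, mul_one] at h5
  have h6 : 0 ≤ g 0 - g h := sub_nonneg.2 (hg hh.le)
  rw [h1]
  calc (h * ∫ u in (0 : ℝ)..N, g (h * u)) * (g 0 - g h)
      = h * ((∫ u in (0 : ℝ)..N, g (h * u)) * (g 0 - g h)) := by ring
    _ ≤ h * ((∑ k ∈ Finset.range N, g (h * k)) * (g 0 - g h)) :=
        mul_le_mul_of_nonneg_left (mul_le_mul_of_nonneg_right h2 h6) hh.le
    _ ≤ h * g 0 ^ 2 := mul_le_mul_of_nonneg_left h5 hh.le

/-- a lower bound for `1 - (1 - u) ^ n` -/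
theorem one_sub_pow_ge {u : ℝ} (h0 : 0 ≤ u) (h1 : u ≤ 1) (n : ℕ) :
    n * u ≤ (1 - (1 - u) ^ n) * (1 + n * u) := by
  have h2 : (1 : ℝ) + n * u ≤ (1 + u) ^ n := one_add_mul_le_pow (by linarith) n
  have h3 : (0 : ℝ) ≤ (1 - u) ^ n := pow_nonneg (by linarith) n
  have h4 : (1 - u) ^ n * (1 + n * u) ≤ 1 := by
    calc (1 - u) ^ n * (1 + n * u) ≤ (1 - u) ^ n * (1 + u) ^ n :=
          mul_le_mul_of_nonneg_left h2 h3
      _ = (1 - u ^ 2) ^ n := by
          rw [← mul_pow]
          ring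
      _ ≤ 1 := pow_le_one₀ (by nlinarith) (by nlinarith [sq_nonneg u])
  linarith

/-- with the loss `n / (n + 1)` -/
theorem tail_one_aux (hr : IsPoset r) {x y : Fin n} (h : x ≠ y) :
    mneg r x y * (gp r x y (-1) * (n / (n + 1))) ≤ prob r y x ^ 2 := by
  have hn : (0 : ℝ) < (n : ℝ) + 1 := by positivity
  have hβ : 0 ≤ gp r x y (-1) := by
    unfold gp
    rw [Pr_eq_card]
    positivity
  have hm : 0 ≤ mneg r x y := by
    rw [← int_G hr h le_rfl]
    exact intervalIntegral.integral_nonneg hn.le (fun s _ => G_nonneg r x y s)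
  -- the bound for every mesh
  have key : ∀ N : ℕ, 0 < N →
      mneg r x y * (gp r x y (-1) * (n / (n + 1))) ≤ prob r y x ^ 2 * (1 + n * (1 / N)) := by
    intro N hN
    have hN' : (0 : ℝ) < N := by exact_mod_cast hN
    have hN1 : (1 : ℝ) ≤ N := by exact_mod_cast hN
    set s : ℝ := ((n : ℝ) + 1) / N with hs
    have hs0 : 0 < s := div_pos hn hN'
    have hs1 : s ≤ n + 1 := div_le_self hn.le hN1
    have hsN : s * N = n + 1 := by
      rw [hs]
      field_simp
    have h1 := int_logconc (G_nonneg r x y) (G_antitone hr x y) (G_mid hr x y) hs0 N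
    rw [hsN, int_G hr h le_rfl, G_zero hr h] at h1
    have h2 := G_le_chamber hr h hs0.le hs1
    have h3 : s / (n + 1) = 1 / N := by
      rw [hs]
      field_simp
    rw [h3] at h2
    have h4 := one_sub_pow_ge (u := 1 / (N : ℝ)) (by positivity)
      (by rw [div_le_one hN']; exact hN1) n
    set w : ℝ := 1 - (1 - 1 / (N : ℝ)) ^ n with hw
    have hc : 0 ≤ 1 + (n : ℝ) * (1 / N) := by positivity
    -- `mneg * β * w ≤ s q^2`
    have h5 : mneg r x y * (gp r x y (-1) * w) ≤ s * prob r y x ^ 2 := by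
      refine le_trans (mul_le_mul_of_nonneg_left ?_ hm) h1
      linarith
    have h6 : mneg r x y * (gp r x y (-1) * (n * (1 / N))) ≤
        s * prob r y x ^ 2 * (1 + n * (1 / N)) := by
      calc mneg r x y * (gp r x y (-1) * (n * (1 / N)))
          ≤ mneg r x y * (gp r x y (-1) * (w * (1 + n * (1 / N)))) :=
            mul_le_mul_of_nonneg_left (mul_le_mul_of_nonneg_left h4 hβ) hm
        _ = mneg r x y * (gp r x y (-1) * w) * (1 + n * (1 / N)) := by ring
        _ ≤ s * prob r y x ^ 2 * (1 + n * (1 / N)) := mul_le_mul_of_nonneg_right h5 hc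
    have h7 : mneg r x y * (gp r x y (-1) * (n * (1 / N))) =
        s * (mneg r x y * (gp r x y (-1) * (n / (n + 1)))) := by
      rw [hs]
      field_simp
    rw [h7, mul_assoc] at h6
    exact le_of_mul_le_mul_left h6 hs0
  refine le_of_forall_pos_le_add (fun ε hε => ?_)
  obtain ⟨N, hN⟩ := exists_nat_gt (prob r y x ^ 2 * n / ε)
  have hq : 0 ≤ prob r y x ^ 2 * n := by positivity
  have hN0 : (0 : ℝ) < N := lt_of_le_of_lt (div_nonneg hq hε.le) hN
  have hN1 : 0 < N := by exact_mod_cast hN0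
  refine (key N hN1).trans ?_
  rw [mul_add, mul_one]
  gcongr
  rw [div_lt_iff₀ hε] at hN
  rw [mul_one_div, mul_div_assoc', div_le_iff₀ hN0]
  linarith

end Pool.Agent.BFT
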