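import Mathlib
import Pool.Agent.BFT.TailBase

/-! # (T2) (owner: helper9) -/

set_option autoImplicit false

namespace Pool.Agent.BFT

open MeasureTheory Pool.Agent.Helper1.Balance Pool.Agent.Helper8.KS Pool.Agent.Helper18.KSC
  Pool.Agent.Helper73.KM

variable {n : ℕ} {r : Fin n → Fin n → Prop}

/-- decay of a log-concave antitone sequence: if `a N ≤ θ ^ N * a 0` then `a (N + j) ≤ θ ^ j * a N` -/
theorem lc_seq (a : ℕ → ℝ) (h0 : ∀ k, 0 ≤ a k) (hlc : ∀ k, a k * a (k + 2) ≤ a (k + 1) ^ 2)
    (hanti : ∀ k, a (k + 1) ≤ a k) (N : ℕ) (hN : 1 ≤ N) (hpos : 0 < a N) (θ : ℝ) (hθ : 0 < θ)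
    (h : a N = θ ^ N * a 0) : ∀ j, a (N + j) ≤ θ ^ j * a N := by
  have hmono : ∀ i j, i ≤ j → a j ≤ a i := by
    intro i j hij
    induction hij with
    | refl => exact le_rfl
    | step _ ih => exact (hanti _).trans ih
  have hposk : ∀ k ≤ N, 0 < a k := fun k hk => hpos.trans_le (hmono k N hk)
  -- some step below `N` has ratio at most `θ`
  have hex : ∃ k < N, a (k + 1) ≤ θ * a k := by
    by_contra hcon
    push Not at hcon
    have h1 : ∀ k ≤ N, θ ^ k * a 0 ≤ a k ∧ (1 ≤ k → θ ^ k * a 0 < a k) := by
      intro k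
      induction k with
      | zero => intro _; simp
      | succ k ih =>
        intro hk
        have h2 := (ih (by omega)).1
        have h3 := hcon k (by omega)
        have h4 : θ ^ (k + 1) * a 0 < a (k + 1) := by
          refine lt_of_le_of_lt ?_ h3
          rw [pow_succ]
          nlinarith
        exact ⟨h4.le, fun _ => h4⟩
    have h2 := (h1 N le_rfl).2 hN
    linarith
  obtain ⟨k0, hk0, hk0'⟩ := hex
  have hstep : ∀ k, k0 ≤ k → a (k + 1) ≤ θ * a k := by
    intro k hk
    induction hk with
    | refl => exact hk0'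
    | @step k hk ih =>
      rcases (h0 k).eq_or_lt with hz | hz
      · have h1 : a (k + 1) ≤ 0 := by rw [hz]; exact hanti k
        have h2 : a (k + 1 + 1) ≤ 0 := (hanti _).trans h1
        have h3 : a (k + 1) = 0 := le_antisymm h1 (h0 _)
        rw [Nat.succ_eq_add_one, h3, mul_zero]
        exact h2
      · have h1 := hlc k
        have h2 : a (k + 1) * a (k + 1) ≤ (θ * a k) * a (k + 1) :=
          mul_le_mul_of_nonneg_right ih (h0 _)
        have h3 : a k * a (k + 2) ≤ a k * (θ * a (k + 1)) := by nlinarith
        exact le_of_mul_le_mul_left h3 hz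
  intro j
  induction j with
  | zero => simp
  | succ j ih =>
    have h1 := hstep (N + j) (by omega)
    rw [pow_succ]
    have e : N + (j + 1) = N + j + 1 := by ring
    rw [e]
    nlinarith

/-- the growth of the tail to the left -/
theorem left_growth (g : ℝ → ℝ) (hanti : Antitone g) (h0 : ∀ s, 0 ≤ g s)
    (mid : ∀ a b, g a * g b ≤ g ((a + b) / 2) ^ 2) (q m A : ℝ) (hq : 0 < q) (hg0 : g 0 = q)
    (hm : 0 < m) (hint : ∀ R, A ≤ R → ∫ s in (0 : ℝ)..R, g s = m) (t : ℝ) (ht : 0 < t) :
    g (-t) ≤ q * Real.exp (t * (q / m)) := by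
  by_contra hcon
  push Not at hcon
  set c := Real.log (g (-t) / q) / t with hc
  have hgt : 0 < g (-t) := lt_of_le_of_lt (by positivity) hcon
  have hcm : q / m < c := by
    rw [hc, lt_div_iff₀ ht, Real.lt_log_iff_exp_lt (by positivity), lt_div_iff₀ hq, mul_comm (q / m)]
    linarith
  have hc0 : 0 < c := lt_trans (by positivity) hcm
  have hct : Real.exp (c * t) = g (-t) / q := by
    rw [hc, div_mul_cancel₀ _ ht.ne', Real.exp_log (by positivity)]
  -- the bound for every grid
  have key : ∀ N : ℕ, 1 ≤ N → m * c ≤ q * (1 + c * (t / N)) := by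
    intro N hN
    have hN0 : (0 : ℝ) < N := by exact_mod_cast hN
    set h := t / N with hh
    have hh0 : 0 < h := by positivity
    have hNh : (N : ℝ) * h = t := by rw [hh]; field_simp
    set θ := Real.exp (-(c * h)) with hθ
    have hθ0 : 0 < θ := Real.exp_pos _
    have hθN : θ ^ N * g (-t) = q := by
      rw [hθ, ← Real.exp_nat_mul, show (N : ℝ) * -(c * h) = -(c * (N * h)) by ring, hNh,
        Real.exp_neg, hct]
      field_simp
    have hdec := lc_seq (fun k : ℕ => g (-t + k * h)) (fun k => h0 _) (fun k => by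
        have := mid (-t + k * h) (-t + ((k + 2 : ℕ) : ℝ) * h)
        have e : (-t + (k : ℝ) * h + (-t + ((k + 2 : ℕ) : ℝ) * h)) / 2 =
            -t + ((k + 1 : ℕ) : ℝ) * h := by push_cast; ring
        rw [e] at this
        exact this) (fun k => hanti (by push_cast; nlinarith)) N hN (by
        show 0 < g (-t + N * h)
        rw [hNh, neg_add_cancel, hg0]; exact hq) θ hθ0 (by
        show g (-t + N * h) = θ ^ N * g (-t + (0 : ℕ) * h)
        rw [hNh, neg_add_cancel, hg0, Nat.cast_zero, zero_mul, add_zero, hθN])
    have hdec' : ∀ j : ℕ, g (j * h) ≤ θ ^ j * q := by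
      intro j
      have := hdec j
      have e1 : -t + ((N + j : ℕ) : ℝ) * h = j * h := by push_cast; linarith
      simp only [e1] at this
      rw [hNh, neg_add_cancel, hg0] at this
      exact this
    obtain ⟨K, hK⟩ := exists_nat_ge (A / h)
    have hKA : A ≤ (K : ℝ) * h := by
      rw [div_le_iff₀ hh0] at hK; exact hK
    have hI := hint (K * h) hKA
    have hsc : ∫ s in (0 : ℝ)..(K * h), g s = h * ∫ u in (0 : ℝ)..K, g (h * u) := by
      have := intervalIntegral.integral_comp_mul_left (a := (0 : ℝ)) (b := (K : ℝ)) g hh0.ne'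
      rw [this, smul_eq_mul, ← mul_assoc, mul_inv_cancel₀ hh0.ne', one_mul, mul_zero, mul_comm h]
    have hanti' : AntitoneOn (fun u => g (h * u)) (Set.Icc (0 : ℝ) (0 + (K : ℕ))) := by
      intro u _ v _ huv
      exact hanti (mul_le_mul_of_nonneg_left huv hh0.le)
    have hsum := hanti'.integral_le_sum
    rw [zero_add] at hsum
    have hgeo : ∑ i ∈ Finset.range K, g (h * (0 + (i : ℝ))) ≤ q / (1 - θ) := by
      have hθ1 : θ < 1 := by
        rw [hθ, Real.exp_lt_one_iff]
        have : 0 < c * h := by positivity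
        linarith
      have h1 : ∑ i ∈ Finset.range K, g (h * (0 + (i : ℝ))) ≤ ∑ i ∈ Finset.range K, θ ^ i * q := by
        refine Finset.sum_le_sum fun i _ => ?_
        rw [zero_add, mul_comm h]
        exact hdec' i
      refine h1.trans ?_
      rw [← Finset.sum_mul, geom_sum_eq hθ1.ne, div_eq_mul_inv q, mul_comm q]
      refine mul_le_mul_of_nonneg_right ?_ hq.le
      have e : (θ ^ K - 1) / (θ - 1) = (1 - θ ^ K) / (1 - θ) := by
        rw [← neg_sub 1 (θ ^ K), ← neg_sub 1 θ, neg_div_neg_eq]
      rw [e, inv_eq_one_div]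
      refine div_le_div_of_nonneg_right ?_ (by linarith)
      have : 0 ≤ θ ^ K := by positivity
      linarith
    have h1θ : c * h / (1 + c * h) ≤ 1 - θ := by
      have hx : 0 < c * h := by positivity
      have h1 : 1 + c * h ≤ Real.exp (c * h) := by
        have := Real.add_one_le_exp (c * h); linarith
      have h2 : θ ≤ 1 / (1 + c * h) := by
        rw [hθ, Real.exp_neg, ← one_div]
        exact one_div_le_one_div_of_le (by positivity) h1
      have h3 : c * h / (1 + c * h) = 1 - 1 / (1 + c * h) := by field_simp; ring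
      rw [h3]
      linarith
    have hm1 : m ≤ h * (q / (1 - θ)) := by
      rw [← hI, hsc]
      exact mul_le_mul_of_nonneg_left (hsum.trans hgeo) hh0.le
    have hpos : 0 < c * h / (1 + c * h) := by positivity
    have hm2 : m ≤ h * (q / (c * h / (1 + c * h))) := by
      refine hm1.trans (mul_le_mul_of_nonneg_left ?_ hh0.le)
      exact div_le_div_of_nonneg_left hq.le hpos h1θ
    have e : h * (q / (c * h / (1 + c * h))) * c = q * (1 + c * h) := by
      field_simp
    calc m * c ≤ h * (q / (c * h / (1 + c * h))) * c := mul_le_mul_of_nonneg_right hm2 hc0.le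
      _ = q * (1 + c * h) := e
  -- let the grid become fine
  have hgap : 0 < m * c - q := by
    rw [div_lt_iff₀ hm] at hcm
    linarith
  obtain ⟨N, hN⟩ := exists_nat_gt (q * c * t / (m * c - q))
  have hN1 : 1 ≤ N := by
    by_contra hcon
    have : N = 0 := by omega
    rw [this, Nat.cast_zero] at hN
    have : 0 < q * c * t / (m * c - q) := by positivity
    linarith
  have hk := key N hN1
  have hN0 : (0 : ℝ) < N := by exact_mod_cast hN1
  rw [div_lt_iff₀ hgap] at hN
  have h2 : q * (1 + c * (t / N)) = q + q * c * t / N := by ring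
  rw [h2] at hk
  have h3 : m * c - q ≤ q * c * t / N := by linarith
  rw [le_div_iff₀ hN0] at h3
  linarith

theorem tail_two' (hr : IsPoset r) {x y : Fin n} (h : x ≠ y) (hq : 0 < prob r y x) :
    mneg r x y * (Real.log (1 / prob r y x) - 1) ≤ prob r y x * mn r x y := by
  set q := prob r y x with hqdef
  set m := mneg r x y with hmdef
  have hg0 := G_zero hr h
  have hq1 : q ≤ 1 := by
    rw [hqdef, ← hg0]; exact G_le_one hr x y 0
  have hanti := G_antitone hr x y
  have hii : ∀ a b : ℝ, IntervalIntegrable (G r x y) volume a b := fun a b =>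
    hanti.intervalIntegrable
  have hii' : ∀ a b : ℝ, IntervalIntegrable (fun s => 1 - G r x y (-s)) volume a b := by
    intro a b
    refine (intervalIntegrable_const).sub ?_
    have hmono : Monotone fun s => G r x y (-s) := fun s t hst => hanti (neg_le_neg hst)
    exact hmono.intervalIntegrable
  have hm0 : 0 ≤ m := by
    rw [hmdef, ← int_G hr h (le_refl ((n : ℝ) + 1))]
    exact intervalIntegral.integral_nonneg (by positivity) fun s _ => G_nonneg r x y s
  have hM0 : 0 ≤ mn r x y + m := by
    rw [hmdef, ← int_G_neg hr h (le_refl ((n : ℝ) + 1))]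
    exact intervalIntegral.integral_nonneg (by positivity) fun s _ => by
      have := G_le_one hr x y (-s); linarith
  rcases hm0.eq_or_lt with hz | hmpos
  · rw [← hz, add_zero] at hM0
    rw [← hz, zero_mul]
    positivity
  · set L := Real.log (1 / q) with hL
    have hL0 : 0 ≤ L := by
      rw [hL]
      exact Real.log_nonneg (by rw [le_div_iff₀ hq]; linarith)
    set T := m / q * L with hT
    have hT0 : 0 ≤ T := by positivity
    set R := max ((n : ℝ) + 1) T with hR
    have hRn : (n : ℝ) + 1 ≤ R := le_max_left _ _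
    have hRT : T ≤ R := le_max_right _ _
    have hgrow : ∀ s, 0 ≤ s → G r x y (-s) ≤ q * Real.exp (s * (q / m)) := by
      intro s hs
      rcases hs.eq_or_lt with hs0 | hs0
      · rw [← hs0]; simp [hg0, hqdef]
      · exact left_growth (G r x y) hanti (G_nonneg r x y) (G_mid hr x y) q m ((n : ℝ) + 1) hq hg0
          hmpos (fun R hR => int_G hr h hR) s hs0
    have hM : mn r x y + m = ∫ s in (0 : ℝ)..R, (1 - G r x y (-s)) := (int_G_neg hr h hRn).symm
    have hsplit : ∫ s in (0 : ℝ)..T, (1 - G r x y (-s)) ≤ mn r x y + m := by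
      rw [hM, ← intervalIntegral.integral_add_adjacent_intervals (hii' 0 T) (hii' T R)]
      have : 0 ≤ ∫ s in T..R, (1 - G r x y (-s)) :=
        intervalIntegral.integral_nonneg hRT fun s _ => by
          have := G_le_one hr x y (-s); linarith
      linarith
    have hcont : Continuous fun s : ℝ => 1 - q * Real.exp (s * (q / m)) := by fun_prop
    have hlow : ∫ s in (0 : ℝ)..T, (1 - q * Real.exp (s * (q / m))) ≤
        ∫ s in (0 : ℝ)..T, (1 - G r x y (-s)) := by
      refine intervalIntegral.integral_mono_on hT0 (hcont.intervalIntegrable _ _) (hii' 0 T) ?_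
      intro s hs
      have := hgrow s hs.1
      linarith
    have hcalc : ∫ s in (0 : ℝ)..T, (1 - q * Real.exp (s * (q / m))) =
        T - m * (Real.exp (T * (q / m)) - 1) := by
      have hd : ∀ s ∈ Set.uIcc (0 : ℝ) T, HasDerivAt
          (fun s => s - m * Real.exp (s * (q / m))) (1 - q * Real.exp (s * (q / m))) s := by
        intro s _
        have h1 : HasDerivAt (fun s : ℝ => s * (q / m)) (q / m) s := by
          simpa using (hasDerivAt_id s).mul_const (q / m)
        have h2 := (h1.exp).const_mul m
        have h3 := (hasDerivAt_id s).sub h2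
        have e : (1 : ℝ) - q * Real.exp (s * (q / m)) =
            1 - m * (Real.exp (s * (q / m)) * (q / m)) := by
          have hmn : m ≠ 0 := hmpos.ne'
          field_simp
        rw [e]
        exact h3
      rw [intervalIntegral.integral_eq_sub_of_hasDerivAt hd (hcont.intervalIntegrable _ _)]
      simp only [zero_mul, Real.exp_zero, zero_sub]
      ring
    have hexpT : Real.exp (T * (q / m)) = 1 / q := by
      have : T * (q / m) = L := by rw [hT]; field_simp
      rw [this, hL, Real.exp_log (by positivity)]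
    rw [hcalc, hexpT] at hlow
    have hfin : T - m * (1 / q - 1) ≤ mn r x y + m := hlow.trans hsplit
    have h4 : q * (T - m * (1 / q - 1)) = m * L - m * (1 - q) := by
      rw [hT]; field_simp
    have h5 := mul_le_mul_of_nonneg_left hfin hq.le
    rw [h4] at h5
    nlinarith

end Pool.Agent.BFT
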