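import Mathlib
import Pool.Agent.BFT.TailOne
import Pool.Agent.BFT.TailTwo
import Pool.Agent.BFT.Swap

/-! # Adding bottom elements; (T1) without loss -/

set_option autoImplicit false

namespace Pool.Agent.BFT

open Finset Pool.Agent.Helper1.Balance Pool.Agent.Helper8.KS Pool.Agent.Helper18.KSC

variable {n : ℕ} {r : Fin n → Fin n → Prop}

namespace Ext

/-- one new element below everything -/
def ext (r : Fin n → Fin n → Prop) : Fin (n + 1) → Fin (n + 1) → Prop :=
  fun a b => a = 0 ∨ ∃ a' b' : Fin n, a = a'.succ ∧ b = b'.succ ∧ r a' b'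

theorem ext_succ (x y : Fin n) : ext r x.succ y.succ ↔ r x y := by
  constructor
  · rintro (h | ⟨a, b, h1, h2, h3⟩)
    · exact absurd h (Fin.succ_ne_zero x)
    · rw [Fin.succ_inj] at h1 h2
      subst h1 h2
      exact h3
  · exact fun h => Or.inr ⟨x, y, rfl, rfl, h⟩

theorem ext_poset (hr : IsPoset r) : IsPoset (ext r) := by
  refine ⟨fun a => ?_, fun a b c hab hbc => ?_, fun a b hab hba => ?_⟩
  · rcases Fin.eq_zero_or_eq_succ a with h | ⟨a', rfl⟩
    · exact Or.inl h
    · exact (ext_succ a' a').2 (hr.1 a')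
  · rcases hab with h | ⟨a', b', rfl, rfl, h1⟩
    · exact Or.inl h
    · rcases hbc with h | ⟨b'', c', h2, rfl, h3⟩
      · exact absurd h (Fin.succ_ne_zero b')
      · rw [Fin.succ_inj] at h2
        subst h2
        exact (ext_succ a' c').2 (hr.2.1 _ _ _ h1 h3)
  · rcases hab with h | ⟨a', b', rfl, rfl, h1⟩
    · rcases hba with h' | ⟨b', a', rfl, rfl, h1⟩
      · rw [h, h']
      · exact absurd h (Fin.succ_ne_zero a')
    · rw [ext_succ] at hba
      rw [hr.2.2 _ _ h1 hba]

/-- the extended permutation -/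
def up (σ : Equiv.Perm (Fin n)) : Equiv.Perm (Fin (n + 1)) :=
  Equiv.Perm.decomposeFin.symm (0, σ)

theorem up_zero (σ : Equiv.Perm (Fin n)) : up σ 0 = 0 := by
  unfold up
  rw [Equiv.Perm.decomposeFin_symm_apply_zero]

theorem up_succ (σ : Equiv.Perm (Fin n)) (x : Fin n) : up σ x.succ = (σ x).succ := by
  unfold up
  rw [Equiv.Perm.decomposeFin_symm_apply_succ, Equiv.swap_self, Equiv.refl_apply]

theorem up_inj : Function.Injective (up : Equiv.Perm (Fin n) → Equiv.Perm (Fin (n + 1))) := by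
  intro σ τ h
  have := Equiv.Perm.decomposeFin.symm.injective h
  exact (Prod.ext_iff.1 this).2

theorem mem_LEs_up {σ : Equiv.Perm (Fin n)} : up σ ∈ LEs (ext r) ↔ σ ∈ LEs r := by
  rw [mem_LEs, mem_LEs]
  constructor
  · intro h a b hab
    have := h a.succ b.succ ((ext_succ a b).2 hab)
    rw [up_succ, up_succ, Fin.succ_le_succ_iff] at this
    exact this
  · rintro h a b (rfl | ⟨a', b', rfl, rfl, h1⟩)
    · rw [up_zero]
      exact Fin.zero_le _
    · rw [up_succ, up_succ, Fin.succ_le_succ_iff]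
      exact h _ _ h1

theorem exists_up {τ : Equiv.Perm (Fin (n + 1))} (hτ : τ ∈ LEs (ext r)) :
    ∃ σ, up σ = τ := by
  have h0 : τ 0 = 0 := by
    rw [mem_LEs] at hτ
    have h1 := hτ 0 (τ.symm 0) (Or.inl rfl)
    rw [Equiv.apply_symm_apply] at h1
    exact Fin.le_zero_iff.1 h1
  obtain ⟨⟨p, σ⟩, h⟩ := Equiv.Perm.decomposeFin.symm.surjective τ
  have h1 : p = 0 := by
    have := congrArg (fun f : Equiv.Perm (Fin (n + 1)) => f 0) h
    simp only [Equiv.Perm.decomposeFin_symm_apply_zero] at this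
    rw [this, h0]
  subst h1
  exact ⟨σ, h⟩

theorem LEs_ext [DecidableEq (Equiv.Perm (Fin (n + 1)))] (r : Fin n → Fin n → Prop) :
    LEs (ext r) = (LEs r).image up := by
  ext τ
  rw [Finset.mem_image]
  constructor
  · intro h
    obtain ⟨σ, rfl⟩ := exists_up h
    exact ⟨σ, mem_LEs_up.1 h, rfl⟩
  · rintro ⟨σ, hσ, rfl⟩
    exact mem_LEs_up.2 hσ

theorem Ex_ext (r : Fin n → Fin n → Prop) (f : Equiv.Perm (Fin (n + 1)) → ℝ) :
    Ex (ext r) f = Ex r (fun σ => f (up σ)) := by
  classical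
  unfold Ex
  rw [LEs_ext, Finset.sum_image (fun a _ b _ h => up_inj h), Finset.card_image_of_injective _ up_inj]

theorem D_up (x y : Fin n) (σ : Equiv.Perm (Fin n)) : D x.succ y.succ (up σ) = D x y σ := by
  unfold D
  rw [up_succ, up_succ, Fin.val_succ, Fin.val_succ]
  push_cast
  ring

theorem gp_ext (r : Fin n → Fin n → Prop) (x y : Fin n) (k : ℤ) :
    gp (ext r) x.succ y.succ k = gp r x y k := by
  unfold gp Pr
  rw [Ex_ext]
  simp only [D_up]
  congr!

theorem mneg_ext (r : Fin n → Fin n → Prop) (x y : Fin n) :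
    mneg (ext r) x.succ y.succ = mneg r x y := by
  unfold mneg
  rw [Ex_ext]
  simp only [D_up]

theorem prob_ext (r : Fin n → Fin n → Prop) (x y : Fin n) :
    prob (ext r) x.succ y.succ = prob r x y := by
  rw [prob_eq_Pr, prob_eq_Pr]
  unfold Pr
  rw [Ex_ext]
  simp only [up_succ, Fin.succ_lt_succ_iff]
  congr!

end Ext

open Ext

theorem tail_one_ext (m : ℕ) : ∀ (n : ℕ) (r : Fin n → Fin n → Prop), IsPoset r →
    ∀ x y : Fin n, x ≠ y →
    mneg r x y * (gp r x y (-1) * (((n + m : ℕ) : ℝ) / (((n + m : ℕ) : ℝ) + 1))) ≤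
      prob r y x ^ 2 := by
  induction m with
  | zero =>
    intro n r hr x y h
    simpa using tail_one_aux hr h
  | succ m ih =>
    intro n r hr x y h
    have h1 := ih (n + 1) (ext r) (ext_poset hr) x.succ y.succ
      (fun he => h (Fin.succ_inj.1 he))
    rw [mneg_ext, gp_ext, prob_ext] at h1
    have e : n + 1 + m = n + (m + 1) := by ring
    rw [e] at h1
    exact h1

/-- (T1) -/
theorem tail_one' (hr : IsPoset r) {x y : Fin n} (h : Inc r x y) :
    mneg r x y * gp r x y 1 ≤ prob r y x ^ 2 := by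
  rw [← gp_neg_one hr h]
  have hlim : Filter.Tendsto (fun m : ℕ => mneg r x y *
      (gp r x y (-1) * (((n + m : ℕ) : ℝ) / (((n + m : ℕ) : ℝ) + 1)))) Filter.atTop
      (nhds (mneg r x y * (gp r x y (-1) * 1))) := by
    refine Filter.Tendsto.const_mul _ (Filter.Tendsto.const_mul _ ?_)
    have h1 := tendsto_natCast_div_add_atTop (𝕜 := ℝ) (1 : ℝ)
    exact h1.comp (Filter.tendsto_atTop_mono (fun m => Nat.le_add_left m n) Filter.tendsto_id)
  rw [mul_one] at hlim
  exact le_of_tendsto hlim (Filter.Eventually.of_forall fun m =>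
    tail_one_ext m n r hr x y (h.ne hr))

end Pool.Agent.BFT
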