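import Mathlib
import Pool.Agent.BFT.TailExt

/-! # Tails of the distance of two elements, from the order polytope model -/

set_option autoImplicit false

namespace Pool.Agent.BFT

open Finset Pool.Agent.Helper1.Balance Pool.Agent.Helper8.KS Pool.Agent.Helper18.KSC

variable {n : ℕ} {r : Fin n → Fin n → Prop}

/-- (T1) `E[max(s x - s y, 0)] * Pr[s y - s x = 1] ≤ Pr[y < x]^2` -/
theorem tail_one (hr : IsPoset r) {x y : Fin n} (h : Inc r x y) :
    mneg r x y * gp r x y 1 ≤ prob r y x ^ 2 := tail_one' hr h

/-- (T2) -/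
theorem tail_two (hr : IsPoset r) {x y : Fin n} (h : Inc r x y) :
    mneg r x y * (Real.log (1 / prob r y x) - 1) ≤ prob r y x * mn r x y := by
  have h0 : 0 ≤ prob r y x := by
    rw [prob_eq_Pr, Pr_eq_card]
    positivity
  rcases h0.eq_or_lt with h1 | h1
  · have hm : 0 ≤ mneg r x y := by
      unfold mneg
      exact Ex_nonneg fun _ => le_max_right _ _
    rw [← h1]
    simp only [div_zero, Real.log_zero, zero_sub, mul_neg, mul_one, zero_mul]
    linarith
  · exact tail_two' hr (h.ne hr) h1

end Pool.Agent.BFT
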