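import Mathlib
import Pool.Agent.BFT.Swap
import Pool.Agent.BFT.Moments
import Pool.Agent.BFT.Tail
import Pool.Agent.BFT.PairNum

/-! # The pair lemma (numbers) -/

set_option autoImplicit false

namespace Pool.Agent.BFT

open Finset Pool.Agent.Helper1.Balance Pool.Agent.Helper8.KS Pool.Agent.Helper18.KSC

variable {n : ℕ} {r : Fin n → Fin n → Prop}

theorem gp_symm (r : Fin n → Fin n → Prop) (x y : Fin n) (k : ℤ) :
    gp r y x k = gp r x y (-k) := by
  unfold gp
  congr 1
  funext σ
  have : (D y x σ = k) = (D x y σ = -k) := by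
    unfold D
    apply propext
    constructor <;> intro h <;> omega
  exact this

theorem pairIneq (hr : IsPoset r) {x y : Fin n} (h : Inc r x y) :
    PairIneq (prob r y x) (gp r x y 1) (gp r x y 2) (gp r x y 3) (gp r x y (-2)) (gp r x y (-3))
      (mneg r x y) (mn r x y) := by
  have hne := h.ne hr
  have e1 := gp_neg_one hr h
  have e2 := gp_neg_le hr hne
  have e3 := gp_two_le hr h
  have e4 := gp_sum_le hr hne
  have e5 := gp_three_le hr h.symm
  rw [gp_symm r x y 3, gp_symm r x y 2] at e5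
  have e6 := mneg_ge hr hne
  rw [e1] at e6 e2
  refine ⟨prob_pos hr h, gp_pos hr h, e2, gp_nonneg _ _ _ _, gp_nonneg _ _ _ _, ?_, by linarith,
    gp_two_add_le hr h, gp_three_le hr h, e5, tail_one hr h, tail_two hr h, mn_ge_three hr hne,
    mn_ge_four hr hne, e6⟩
  unfold mneg
  refine Ex_nonneg fun σ => ?_
  exact le_max_right _ _

theorem pair_a (hr : IsPoset r) {x y : Fin n} (h : Inc r x y) (hq : prob r y x ≤ 0.2765) :
    0.979 ≤ mn r x y := (pairIneq hr h).a hq

theorem pair_b (hr : IsPoset r) {x y : Fin n} (h : Inc r x y) (hq : prob r y x ≤ 0.2765)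
    (hb : gp r x y 1 ≤ 0.73 * prob r y x) : 1.021 ≤ mn r x y := (pairIneq hr h).b hq hb

theorem pair_c (hr : IsPoset r) {x y : Fin n} (h : Inc r x y) :
    2.5 * (1 - prob r y x) - 2 * gp r x y 1 - prob r y x ^ 2 / gp r x y 1 ≤ mn r x y :=
  (pairIneq hr h).c

theorem pair_d (hr : IsPoset r) {x y : Fin n} (h : Inc r x y) (hq : prob r y x ≤ 0.2765) :
    1 ≤ mn r x y + gp r x y 1 := (pairIneq hr h).d hq

end Pool.Agent.BFT
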