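import Mathlib
import Pool.Agent.BFT.Defs

/-! # Exchanges for triples, case (4): pairwise incomparable -/

set_option autoImplicit false

namespace Pool.Agent.BFT

open Finset Pool.Agent.Helper1.Balance Pool.Agent.Helper8.KS Pool.Agent.Helper18.KSC

variable {n : ℕ} {r : Fin n → Fin n → Prop}

namespace Four

/-- exchanging two incomparable neighbours -/
theorem swap_mem {σ : Equiv.Perm (Fin n)} (hσ : σ ∈ LEs r) {u v : Fin n} (h : Inc r u v)
    (hD : (σ v : ℕ) = σ u + 1 ∨ (σ u : ℕ) = σ v + 1) : σ * Equiv.swap u v ∈ LEs r := by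
  rw [mem_LEs] at hσ ⊢
  intro a b hab
  have hne : ∀ c d : Fin n, c ≠ d → (σ c : ℕ) ≠ σ d := fun c d hcd he =>
    hcd (σ.injective (Fin.ext he))
  have h1 := hσ a b hab
  rw [Fin.le_def] at h1 ⊢
  rw [Equiv.Perm.mul_apply, Equiv.Perm.mul_apply]
  by_cases hau : a = u
  · subst hau
    by_cases hbu : b = a
    · subst hbu
      exact le_rfl
    by_cases hbv : b = v
    · subst hbv
      exact absurd hab h.1
    rw [Equiv.swap_apply_left, Equiv.swap_apply_of_ne_of_ne hbu hbv]
    have := hne b a hbu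
    have := hne b v hbv
    omega
  · by_cases hav : a = v
    · subst hav
      by_cases hbu : b = u
      · subst hbu
        exact absurd hab h.2
      by_cases hbv : b = a
      · subst hbv
        exact le_rfl
      rw [Equiv.swap_apply_right, Equiv.swap_apply_of_ne_of_ne hbu hbv]
      have := hne b a hbv
      have := hne b u hbu
      omega
    · rw [Equiv.swap_apply_of_ne_of_ne hau hav]
      by_cases hbu : b = u
      · subst hbu
        rw [Equiv.swap_apply_left]
        have := hne a b hau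
        have := hne a v hav
        omega
      by_cases hbv : b = v
      · subst hbv
        rw [Equiv.swap_apply_right]
        have := hne a b hav
        have := hne a u hau
        omega
      rw [Equiv.swap_apply_of_ne_of_ne hbu hbv]
      exact h1

theorem D_swap_self (σ : Equiv.Perm (Fin n)) (u v : Fin n) :
    D u v (σ * Equiv.swap u v) = -D u v σ := by
  unfold D
  rw [Equiv.Perm.mul_apply, Equiv.Perm.mul_apply, Equiv.swap_apply_left, Equiv.swap_apply_right]
  ring

theorem D_swap_left (σ : Equiv.Perm (Fin n)) {u v w : Fin n} (hu : w ≠ u) (hv : w ≠ v) :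
    D u w (σ * Equiv.swap u v) = D v w σ := by
  unfold D
  rw [Equiv.Perm.mul_apply, Equiv.Perm.mul_apply, Equiv.swap_apply_left,
    Equiv.swap_apply_of_ne_of_ne hu hv]

theorem D_swap_right (σ : Equiv.Perm (Fin n)) {u v w : Fin n} (hu : w ≠ u) (hv : w ≠ v) :
    D w v (σ * Equiv.swap u v) = D w u σ := by
  unfold D
  rw [Equiv.Perm.mul_apply, Equiv.Perm.mul_apply, Equiv.swap_apply_right,
    Equiv.swap_apply_of_ne_of_ne hu hv]

/-- the exchange of two incomparable neighbours, for averages -/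
theorem Ex_swap {u v : Fin n} (h : Inc r u v) (g : Equiv.Perm (Fin n) → ℝ) :
    Ex r (fun σ => if D u v σ = -1 then g σ else 0) =
      Ex r (fun σ => if D u v σ = 1 then g (σ * Equiv.swap u v) else 0) := by
  unfold Ex
  congr 1
  rw [← sum_filter, ← sum_filter]
  refine sum_nbij' (fun σ => σ * Equiv.swap u v) (fun σ => σ * Equiv.swap u v) ?_ ?_ ?_ ?_ ?_
  · intro σ hσ
    rw [mem_filter] at hσ ⊢
    refine ⟨swap_mem hσ.1 h ?_, ?_⟩
    · have := hσ.2
      unfold D at this
      right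
      omega
    · rw [D_swap_self, hσ.2]
      rfl
  · intro σ hσ
    rw [mem_filter] at hσ ⊢
    refine ⟨swap_mem hσ.1 h ?_, ?_⟩
    · have := hσ.2
      unfold D at this
      left
      omega
    · rw [D_swap_self, hσ.2]
  · intro σ _
    rw [mul_assoc, Equiv.swap_mul_self, mul_one]
  · intro σ _
    rw [mul_assoc, Equiv.swap_mul_self, mul_one]
  · intro σ _
    rw [mul_assoc, Equiv.swap_mul_self, mul_one]

theorem Pr_def (r : Fin n → Fin n → Prop) (p : Equiv.Perm (Fin n) → Prop) [DecidablePred p] :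
    Pr r p = Ex r (fun σ => if p σ then (1 : ℝ) else 0) := by
  unfold Pr
  congr 1
  funext σ
  by_cases h : p σ
  · rw [if_pos h, if_pos h]
  · rw [if_neg h, if_neg h]

theorem D_ne (σ : Equiv.Perm (Fin n)) {u v : Fin n} (h : u ≠ v) : D u v σ ≠ 0 := by
  intro h0
  unfold D at h0
  exact h (σ.injective (Fin.ext (by omega)))

theorem D_add (σ : Equiv.Perm (Fin n)) (u v w : Fin n) : D u v σ + D v w σ = D u w σ := by
  unfold D
  ring

end Four

open Four

theorem four_B' {x y z : Fin n} (hxy : Inc r x y) (hyz : y ≠ z) (hxz : x ≠ z) :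
    Pr r (fun σ => σ y < σ z ∧ σ z < σ x) ≤ prob r y x - gp r x y 1 := by
  classical
  have h1 : gp r x y 1 = Ex r (fun σ => if D x y σ = -1 then (1 : ℝ) else 0) := by
    rw [Ex_swap hxy (fun _ => (1 : ℝ))]
    unfold gp
    rw [Pr_def]
  rw [h1, prob_eq_Pr, Pr_def, Pr_def, ← Ex_sub]
  refine Ex_mono fun σ => ?_
  have hne := D_ne σ hyz
  have hne' := D_ne σ hxz
  have key : (if (σ y < σ z ∧ σ z < σ x) then (1 : ℤ) else 0) ≤
      (if σ y < σ x then (1 : ℤ) else 0) - (if D x y σ = -1 then (1 : ℤ) else 0) := by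
    unfold D at *
    simp only [Fin.lt_def]
    omega
  have := Int.cast_le (R := ℝ).2 key
  push_cast at this
  exact this

theorem four_B (hr : IsPoset r) {x y z : Fin n} (hxy : Inc r x y) (hyz : Inc r y z)
    (hxz : Inc r x z) :
    Pr r (fun σ => σ y < σ z ∧ σ z < σ x) ≤ prob r y x - gp r x y 1 :=
  four_B' hxy (hyz.ne hr) (hxz.ne hr)

theorem four_C (hr : IsPoset r) {x y z : Fin n} (hxy : Inc r x y) (hyz : Inc r y z)
    (hxz : Inc r x z) :
    Pr r (fun σ => σ z < σ x ∧ σ x < σ y) ≤ prob r z y - gp r y z 1 :=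
  four_B' hyz (hxz.ne hr).symm (hxy.ne hr).symm

theorem four_D (_hr : IsPoset r) {x y z : Fin n} (hxy : x ≠ y) (hyz : y ≠ z) (hxz : x ≠ z) :
    prob r z x = Pr r (fun σ => σ y < σ z ∧ σ z < σ x) + Pr r (fun σ => σ z < σ x ∧ σ x < σ y) +
      Pr r (fun σ => σ z < σ y ∧ σ y < σ x) := by
  classical
  rw [prob_eq_Pr, Pr_def, Pr_def, Pr_def, Pr_def, ← Ex_add, ← Ex_add]
  congr 1
  funext σ
  have h1 := D_ne σ hxy
  have h2 := D_ne σ hyz
  have h3 := D_ne σ hxz
  have key : (if σ z < σ x then (1 : ℤ) else 0) = (if (σ y < σ z ∧ σ z < σ x) then (1 : ℤ) else 0) +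
      (if (σ z < σ x ∧ σ x < σ y) then (1 : ℤ) else 0) +
      (if (σ z < σ y ∧ σ y < σ x) then (1 : ℤ) else 0) := by
    unfold D at *
    simp only [Fin.lt_def]
    omega
  have := congrArg (Int.cast (R := ℝ)) key
  push_cast at this
  exact this

/-- `x y z` consecutive is at most `y z x` in this order -/
theorem four_u (hr : IsPoset r) {x y z : Fin n} (hxy : Inc r x y) (hyz : Inc r y z)
    (hxz : Inc r x z) :
    Pr r (fun σ => D x y σ = 1 ∧ D y z σ = 1) ≤ Pr r (fun σ => σ y < σ z ∧ σ z < σ x) := by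
  refine Pr_le_of_inj r _ _ (fun σ => σ * Equiv.swap x y * Equiv.swap x z) ?_ ?_
  · intro σ hσ hp
    obtain ⟨h1, h2⟩ := hp
    have hxy' := hxy.ne hr
    have hyz' := hyz.ne hr
    have hxz' := hxz.ne hr
    have e1 : (σ * Equiv.swap x y) x = σ y := by simp
    have e2 : (σ * Equiv.swap x y) y = σ x := by simp
    have e3 : (σ * Equiv.swap x y) z = σ z := by
      rw [Equiv.Perm.mul_apply, Equiv.swap_apply_of_ne_of_ne hxz'.symm hyz'.symm]
    have f1 : (σ * Equiv.swap x y * Equiv.swap x z) x = σ z := by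
      rw [Equiv.Perm.mul_apply, Equiv.swap_apply_left, e3]
    have f2 : (σ * Equiv.swap x y * Equiv.swap x z) y = σ x := by
      rw [Equiv.Perm.mul_apply, Equiv.swap_apply_of_ne_of_ne hxy'.symm hyz', e2]
    have f3 : (σ * Equiv.swap x y * Equiv.swap x z) z = σ y := by
      rw [Equiv.Perm.mul_apply, Equiv.swap_apply_right, e1]
    unfold D at h1 h2
    refine ⟨swap_mem (swap_mem hσ hxy (Or.inl (by omega))) hxz (Or.inl ?_), ?_⟩
    · rw [e1, e3]
      omega
    · simp only [f1, f2, f3, Fin.lt_def]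
      omega
  · intro σ _ _ τ _ _ h
    exact mul_right_cancel (mul_right_cancel h)

/-- `x y z` consecutive is at most `z x y` in this order -/
theorem four_u' (hr : IsPoset r) {x y z : Fin n} (hxy : Inc r x y) (hyz : Inc r y z)
    (hxz : Inc r x z) :
    Pr r (fun σ => D x y σ = 1 ∧ D y z σ = 1) ≤ Pr r (fun σ => σ z < σ x ∧ σ x < σ y) := by
  refine Pr_le_of_inj r _ _ (fun σ => σ * Equiv.swap y z * Equiv.swap x z) ?_ ?_
  · intro σ hσ hp
    obtain ⟨h1, h2⟩ := hp
    have hxy' := hxy.ne hr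
    have hyz' := hyz.ne hr
    have hxz' := hxz.ne hr
    have e1 : (σ * Equiv.swap y z) x = σ x := by
      rw [Equiv.Perm.mul_apply, Equiv.swap_apply_of_ne_of_ne hxy' hxz']
    have e2 : (σ * Equiv.swap y z) y = σ z := by simp
    have e3 : (σ * Equiv.swap y z) z = σ y := by simp
    have f1 : (σ * Equiv.swap y z * Equiv.swap x z) x = σ y := by
      rw [Equiv.Perm.mul_apply, Equiv.swap_apply_left, e3]
    have f2 : (σ * Equiv.swap y z * Equiv.swap x z) y = σ z := by
      rw [Equiv.Perm.mul_apply, Equiv.swap_apply_of_ne_of_ne hxy'.symm hyz', e2]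
    have f3 : (σ * Equiv.swap y z * Equiv.swap x z) z = σ x := by
      rw [Equiv.Perm.mul_apply, Equiv.swap_apply_right, e1]
    unfold D at h1 h2
    refine ⟨swap_mem (swap_mem hσ hyz (Or.inl (by omega))) hxz (Or.inl ?_), ?_⟩
    · rw [e1, e3]
      omega
    · simp only [f1, f2, f3, Fin.lt_def]
      omega
  · intro σ _ _ τ _ _ h
    exact mul_right_cancel (mul_right_cancel h)

theorem four_A (hr : IsPoset r) {x y z : Fin n} (hxy : Inc r x y) (hyz : Inc r y z)
    (hxz : Inc r x z) :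
    4 - 3 * (prob r y x + prob r z y) - 2 * (Pr r (fun σ => σ y < σ z ∧ σ z < σ x) +
      Pr r (fun σ => σ z < σ x ∧ σ x < σ y)) + 2 * Pr r (fun σ => σ z < σ y ∧ σ y < σ x) -
      mneg r x z ≤ mn r x z := by
  classical
  have hxy' := hxy.ne hr
  have hyz' := hyz.ne hr
  have hxz' := hxz.ne hr
  have hu := four_u hr hxy hyz hxz
  have hu' := four_u' hr hxy hyz hxz
  -- the positive part of the distance
  have hZ : mn r x z = Ex r (fun σ => ((if 0 < D x z σ then D x z σ else 0 : ℤ) : ℝ)) -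
      mneg r x z := by
    unfold mn mneg
    rw [← Ex_sub]
    congr 1
    funext σ
    rcases lt_or_ge 0 (D x z σ) with h | h
    · rw [if_pos h, max_eq_right]
      · ring
      · have : (0 : ℝ) < ((D x z σ : ℤ) : ℝ) := by exact_mod_cast h
        linarith
    · rw [if_neg (not_lt.2 h), max_eq_left]
      · simp
      · have : ((D x z σ : ℤ) : ℝ) ≤ 0 := by exact_mod_cast h
        linarith
  -- exchanges
  have s1 := Ex_swap hxy (fun σ => ((if 1 < D x z σ then D x z σ - 1 else 0 : ℤ) : ℝ))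
  have s2 := Ex_swap hyz (fun σ => ((if 1 < D x z σ then D x z σ - 1 else 0 : ℤ) : ℝ))
  simp only [D_swap_left _ hxz'.symm hyz'.symm] at s1
  simp only [D_swap_right _ hxy' hxz'] at s2
  have k1 : Ex r (fun σ => (if (D x y σ = 1 ∧ D y z σ = 2) then (1 : ℝ) else 0)) ≤
      Ex r (fun σ => if D x y σ = 1 then
        ((if 1 < D y z σ then D y z σ - 1 else 0 : ℤ) : ℝ) else 0) := by
    refine Ex_mono fun σ => ?_
    have key : (if (D x y σ = 1 ∧ D y z σ = 2) then (1 : ℤ) else 0) ≤
      (if D x y σ = 1 then (if 1 < D y z σ then D y z σ - 1 else 0) else 0) := by omega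
    have := Int.cast_le (R := ℝ).2 key
    push_cast at this
    push_cast
    exact this
  have k2 : Ex r (fun σ => (if (D x y σ = 2 ∧ D y z σ = 1) then (1 : ℝ) else 0)) ≤
      Ex r (fun σ => if D y z σ = 1 then
        ((if 1 < D x y σ then D x y σ - 1 else 0 : ℤ) : ℝ) else 0) := by
    refine Ex_mono fun σ => ?_
    have key : (if (D x y σ = 2 ∧ D y z σ = 1) then (1 : ℤ) else 0) ≤
      (if D y z σ = 1 then (if 1 < D x y σ then D x y σ - 1 else 0) else 0) := by omega
    have := Int.cast_le (R := ℝ).2 key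
    push_cast at this
    push_cast
    exact this
  have main : Ex r (fun σ => 4 + 2 * (if (σ z < σ y ∧ σ y < σ x) then (1 : ℝ) else 0) +
      (if D x y σ = -1 then ((if 1 < D x z σ then D x z σ - 1 else 0 : ℤ) : ℝ) else 0) +
      (if D y z σ = -1 then ((if 1 < D x z σ then D x z σ - 1 else 0 : ℤ) : ℝ) else 0)) ≤
    Ex r (fun σ => ((if 0 < D x z σ then D x z σ else 0 : ℤ) : ℝ) +
      3 * (if σ y < σ x then (1 : ℝ) else 0) + 3 * (if σ z < σ y then (1 : ℝ) else 0) +
      (if (σ y < σ z ∧ σ z < σ x) then (1 : ℝ) else 0) +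
      (if (σ z < σ x ∧ σ x < σ y) then (1 : ℝ) else 0) +
      2 * (if (D x y σ = 1 ∧ D y z σ = 1) then (1 : ℝ) else 0) +
      (if (D x y σ = 1 ∧ D y z σ = 2) then (1 : ℝ) else 0) +
      (if (D x y σ = 2 ∧ D y z σ = 1) then (1 : ℝ) else 0)) := by
    refine Ex_mono fun σ => ?_
    have h1 := D_ne σ hxy'
    have h2 := D_ne σ hyz'
    have h3 := D_ne σ hxz'
    have key : 4 + 2 * (if (σ z < σ y ∧ σ y < σ x) then (1 : ℤ) else 0) +
        (if D x y σ = -1 then (if 1 < D x z σ then D x z σ - 1 else 0 : ℤ) else 0) +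
        (if D y z σ = -1 then (if 1 < D x z σ then D x z σ - 1 else 0 : ℤ) else 0) ≤
      (if 0 < D x z σ then D x z σ else 0 : ℤ) +
        3 * (if σ y < σ x then (1 : ℤ) else 0) + 3 * (if σ z < σ y then (1 : ℤ) else 0) +
        (if (σ y < σ z ∧ σ z < σ x) then (1 : ℤ) else 0) +
        (if (σ z < σ x ∧ σ x < σ y) then (1 : ℤ) else 0) +
        2 * (if (D x y σ = 1 ∧ D y z σ = 1) then (1 : ℤ) else 0) +
        (if (D x y σ = 1 ∧ D y z σ = 2) then (1 : ℤ) else 0) +
        (if (D x y σ = 2 ∧ D y z σ = 1) then (1 : ℤ) else 0) := by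
      unfold D at *
      simp only [Fin.lt_def]
      omega
    have := Int.cast_le (R := ℝ).2 key
    push_cast at this
    push_cast
    exact this
  simp only [Ex_add, Ex_mul_left, Ex_const hr] at main
  rw [← Pr_def, ← Pr_def, ← Pr_def, ← Pr_def, ← Pr_def, ← Pr_def, s1, s2] at main
  rw [← prob_eq_Pr, ← prob_eq_Pr] at main
  linarith

end Pool.Agent.BFT
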