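import Mathlib
import Pool.Agent.BFT.Defs

/-! # Exchanges for triples, case (1): `x < z`, `y` incomparable to both (owner: helper46) -/

set_option autoImplicit false

namespace Pool.Agent.BFT.One

open Finset Pool.Agent.Helper1.Balance Pool.Agent.Helper8.KS Pool.Agent.Helper18.KSC
open Pool.Agent.BFT

variable {n : ℕ} {r : Fin n → Fin n → Prop}

open Classical in
/-- integer indicator -/
noncomputable def ii (p : Prop) : ℤ := if p then 1 else 0

theorem Ex_mono_on {f g : Equiv.Perm (Fin n) → ℝ} (h : ∀ σ ∈ LEs r, f σ ≤ g σ) :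
    Ex r f ≤ Ex r g := by
  unfold Ex
  exact div_le_div_of_nonneg_right (sum_le_sum h) (Nat.cast_nonneg _)

theorem Ex_congr_on {f g : Equiv.Perm (Fin n) → ℝ} (h : ∀ σ ∈ LEs r, f σ = g σ) :
    Ex r f = Ex r g := by
  unfold Ex
  rw [sum_congr rfl h]

theorem Ex_ii (p : Equiv.Perm (Fin n) → Prop) :
    Ex r (fun σ => ((ii (p σ) : ℤ) : ℝ)) = Pr r p := by
  unfold Pr ii
  congr 1
  funext σ
  split_ifs <;> simp

theorem D_neg_iff (x y : Fin n) (σ : Equiv.Perm (Fin n)) : D x y σ < 0 ↔ σ y < σ x := by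
  unfold D
  rw [Fin.lt_def]
  omega

theorem D_ne {x y : Fin n} (h : x ≠ y) (σ : Equiv.Perm (Fin n)) : D x y σ ≠ 0 := by
  unfold D
  intro h1
  apply h
  apply σ.injective
  apply Fin.ext
  omega

theorem D_add (x y z : Fin n) (σ : Equiv.Perm (Fin n)) : D x y σ + D y z σ = D x z σ := by
  unfold D; ring

theorem D_pos {x y : Fin n} (h : r x y) (hne : x ≠ y) {σ : Equiv.Perm (Fin n)}
    (hσ : σ ∈ LEs r) : 1 ≤ D x y σ := by
  have h1 := mem_LEs.1 hσ x y h
  rw [Fin.le_def] at h1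
  have h2 := D_ne hne σ
  unfold D at h2 ⊢
  omega

theorem prob_D (x y : Fin n) : prob r y x = Pr r (fun σ => D x y σ < 0) := by
  rw [prob_eq_Pr]
  congr 1
  funext σ
  rw [D_neg_iff]

theorem sw_mem {σ : Equiv.Perm (Fin n)} (hσ : σ ∈ LEs r) {u v : Fin n} (h : D u v σ = 1)
    (huv : ¬ r u v) : σ * Equiv.swap u v ∈ LEs r := by
  rw [mem_LEs] at hσ ⊢
  intro a b hab
  have h1 := hσ a b hab
  unfold D at h
  have hne : u ≠ v := by
    rintro rfl
    omega
  have key : ∀ c : Fin n, c ≠ u → (σ c : ℕ) ≠ σ u :=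
    fun c hc h2 => hc (σ.injective (Fin.ext h2))
  have key' : ∀ c : Fin n, c ≠ v → (σ c : ℕ) ≠ σ v :=
    fun c hc h2 => hc (σ.injective (Fin.ext h2))
  rw [Equiv.Perm.mul_apply, Equiv.Perm.mul_apply, Fin.le_def]
  rw [Fin.le_def] at h1
  by_cases hau : a = u
  · subst hau
    by_cases hbv : b = v
    · subst hbv
      exact absurd hab huv
    · by_cases hbu : b = a
      · subst hbu; exact le_refl _
      · rw [Equiv.swap_apply_left, Equiv.swap_apply_of_ne_of_ne hbu hbv]
        have := key b hbu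
        have := key' b hbv
        omega
  · by_cases hav : a = v
    · subst hav
      by_cases hbv : b = a
      · subst hbv; exact le_refl _
      · by_cases hbu : b = u
        · subst hbu
          omega
        · rw [Equiv.swap_apply_right, Equiv.swap_apply_of_ne_of_ne hbu hbv]
          omega
    · rw [Equiv.swap_apply_of_ne_of_ne hau hav]
      by_cases hbu : b = u
      · subst hbu
        rw [Equiv.swap_apply_left]
        omega
      · by_cases hbv : b = v
        · subst hbv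
          rw [Equiv.swap_apply_right]
          have := key a hau
          have := key' a hav
          omega
        · rw [Equiv.swap_apply_of_ne_of_ne hbu hbv]
          exact h1

theorem sw_left (σ : Equiv.Perm (Fin n)) (u v : Fin n) : (σ * Equiv.swap u v) u = σ v := by
  rw [Equiv.Perm.mul_apply, Equiv.swap_apply_left]

theorem sw_right (σ : Equiv.Perm (Fin n)) (u v : Fin n) : (σ * Equiv.swap u v) v = σ u := by
  rw [Equiv.Perm.mul_apply, Equiv.swap_apply_right]

theorem sw_ne (σ : Equiv.Perm (Fin n)) {u v a : Fin n} (h1 : a ≠ u) (h2 : a ≠ v) :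
    (σ * Equiv.swap u v) a = σ a := by
  rw [Equiv.Perm.mul_apply, Equiv.swap_apply_of_ne_of_ne h1 h2]

theorem sw_sw (σ : Equiv.Perm (Fin n)) (u v : Fin n) :
    σ * Equiv.swap u v * Equiv.swap u v = σ := by
  rw [mul_assoc, Equiv.swap_mul_self, mul_one]

theorem sum_ii (p : Equiv.Perm (Fin n) → Prop) [DecidablePred p] (g : Equiv.Perm (Fin n) → ℤ) :
    ∑ σ ∈ LEs r, ((ii (p σ) * g σ : ℤ) : ℝ) = ∑ σ ∈ (LEs r).filter p, ((g σ : ℤ) : ℝ) := by
  rw [sum_filter]
  apply sum_congr rfl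
  intro σ _
  unfold ii
  by_cases hp : p σ
  · rw [if_pos hp, if_pos hp, one_mul]
  · rw [if_neg hp, if_neg hp, zero_mul, Int.cast_zero]

/-- exchanging two adjacent incomparable elements -/
theorem Ex_swap {x y : Fin n} (h : Inc r x y) (f : Equiv.Perm (Fin n) → ℤ) :
    Ex r (fun σ => ((ii (D x y σ = -1) * f σ : ℤ) : ℝ)) =
      Ex r (fun σ => ((ii (D x y σ = 1) * f (σ * Equiv.swap x y) : ℤ) : ℝ)) := by
  unfold Ex
  congr 1
  rw [sum_ii, sum_ii (fun σ => D x y σ = 1) (fun σ => f (σ * Equiv.swap x y))]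
  have hsw : ∀ σ : Equiv.Perm (Fin n), D x y (σ * Equiv.swap x y) = - D x y σ := by
    intro σ
    unfold D
    rw [sw_left, sw_right]
    ring
  apply sum_bij' (fun σ _ => σ * Equiv.swap x y) (fun σ _ => σ * Equiv.swap x y)
  · intro σ hσ0
    have hσ := Finset.mem_filter.1 hσ0
    refine Finset.mem_filter.2 ⟨?_, by rw [hsw, hσ.2]; norm_num⟩
    have h1 : D y x σ = 1 := by
      have := hσ.2
      unfold D at this ⊢
      omega
    have := sw_mem hσ.1 h1 h.2
    rwa [Equiv.swap_comm] at this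
  · intro σ hσ0
    have hσ := Finset.mem_filter.1 hσ0
    exact Finset.mem_filter.2 ⟨sw_mem hσ.1 hσ.2 h.1, by rw [hsw, hσ.2]⟩
  · intro σ _
    exact sw_sw σ x y
  · intro σ _
    exact sw_sw σ x y
  · intro σ _
    rw [sw_sw]

theorem Pr_swap {x y : Fin n} (h : Inc r x y) :
    Pr r (fun σ => D x y σ = -1) = Pr r (fun σ => D x y σ = 1) := by
  have := Ex_swap h (fun _ => 1)
  simp only [mul_one] at this
  rw [Ex_ii, Ex_ii] at this
  exact this

/-- the element right after `x` -/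
noncomputable def nx (x : Fin n) (σ : Equiv.Perm (Fin n)) : Fin n :=
  if h : (σ x : ℕ) + 1 < n then σ.symm ⟨(σ x : ℕ) + 1, h⟩ else x

theorem nx_pos {x : Fin n} {σ : Equiv.Perm (Fin n)} {y : Fin n} (h : 1 ≤ D x y σ) :
    D x (nx x σ) σ = 1 := by
  unfold D at h
  have h1 : (σ x : ℕ) + 1 < n := by
    have := (σ y).2
    omega
  unfold nx D
  rw [dif_pos h1, Equiv.apply_symm_apply]
  simp

/-- recovering a permutation from an exchange at known positions -/
theorem sw_inj {σ σ' : Equiv.Perm (Fin n)} {u v u' v' : Fin n}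
    (h : σ * Equiv.swap u v = σ' * Equiv.swap u' v') (h1 : σ u = σ' u') (h2 : σ v = σ' v') :
    σ = σ' := by
  have hv : v = v' := by
    have e1 : (σ * Equiv.swap u v) v = σ u := sw_right σ u v
    have e2 : (σ' * Equiv.swap u' v') v' = σ' u' := sw_right σ' u' v'
    rw [← h] at e2
    exact (σ * Equiv.swap u v).injective (by rw [e1, e2, h1])
  have hu : u = u' := by
    have e1 : (σ * Equiv.swap u v) u = σ v := sw_left σ u v
    have e2 : (σ' * Equiv.swap u' v') u' = σ' v' := sw_left σ' u' v'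
    rw [← h] at e2
    exact (σ * Equiv.swap u v).injective (by rw [e1, e2, h2])
  subst hv hu
  exact mul_right_cancel h

theorem Pr_split (p q : Equiv.Perm (Fin n) → Prop) :
    Pr r p = Pr r (fun σ => p σ ∧ q σ) + Pr r (fun σ => p σ ∧ ¬ q σ) := by
  classical
  unfold Pr
  rw [← Ex_add]
  congr 1
  funext σ
  by_cases h1 : p σ <;> by_cases h2 : q σ <;> simp [h1, h2]

theorem F23 (hr : IsPoset r) {x y z : Fin n} (hxy : Inc r x y) :
    F r x y z 2 3 ≤ F r x y z 1 3 + F r x y z 1 4 := by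
  unfold F
  rw [Pr_split _ (fun σ => ¬ r x (nx x σ))]
  apply add_le_add
  · apply Pr_le_of_inj r _ _ (fun σ => σ * Equiv.swap x (nx x σ))
    · rintro σ hσ ⟨⟨h1, h2⟩, h3⟩
      have h4 := nx_pos (x := x) (σ := σ) (y := y) (by omega)
      obtain ⟨e, he⟩ : ∃ e, e = nx x σ := ⟨_, rfl⟩
      rw [← he] at h3 h4
      simp only [← he]
      refine ⟨sw_mem hσ h4 h3, ?_⟩
      have hye : y ≠ e := by
        rintro rfl
        omega
      have hyx : y ≠ x := by
        rintro rfl
        unfold D at h1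
        omega
      have hze : z ≠ e := by
        rintro rfl
        unfold D at h1 h2 h4
        omega
      have hzx : z ≠ x := by
        rintro rfl
        unfold D at h1 h2
        omega
      unfold D at h1 h2 h4 ⊢
      rw [sw_left, sw_ne σ hyx hye, sw_ne σ hzx hze]
      omega
    · rintro σ hσ ⟨⟨h1, h2⟩, h3⟩ τ hτ ⟨⟨h1', h2'⟩, h3'⟩ h
      have h4 := nx_pos (x := x) (σ := σ) (y := y) (by omega)
      have h4' := nx_pos (x := x) (σ := τ) (y := y) (by omega)
      have e1 := congrArg (fun ρ : Equiv.Perm (Fin n) => ρ x) h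
      simp only [sw_left] at e1
      refine sw_inj h ?_ e1
      apply Fin.ext
      unfold D at h4 h4'
      rw [e1] at h4
      omega
  · apply Pr_le_of_inj r _ _ (fun σ => σ * Equiv.swap (nx x σ) y)
    · rintro σ hσ ⟨⟨h1, h2⟩, h3⟩
      push Not at h3
      have h4 := nx_pos (x := x) (σ := σ) (y := y) (by omega)
      obtain ⟨e, he⟩ : ∃ e, e = nx x σ := ⟨_, rfl⟩
      rw [← he] at h3 h4
      simp only [← he]
      have hey : ¬ r e y := fun h => hxy.1 (hr.2.1 _ _ _ h3 h)
      have h5 : D e y σ = 1 := by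
        unfold D at h1 h4 ⊢
        omega
      refine ⟨sw_mem hσ h5 hey, ?_⟩
      have hxe : x ≠ e := by
        rintro rfl
        unfold D at h4
        omega
      have hxy' : x ≠ y := by
        rintro rfl
        unfold D at h1
        omega
      have hze : z ≠ e := by
        rintro rfl
        unfold D at h1 h2 h4
        omega
      have hzy : z ≠ y := by
        rintro rfl
        unfold D at h2
        omega
      unfold D at h1 h2 h4 ⊢
      rw [sw_right, sw_ne σ hxe hxy', sw_ne σ hze hzy]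
      omega
    · rintro σ hσ ⟨⟨h1, h2⟩, h3⟩ τ hτ ⟨⟨h1', h2'⟩, h3'⟩ h
      have h4 := nx_pos (x := x) (σ := σ) (y := y) (by omega)
      have h4' := nx_pos (x := x) (σ := τ) (y := y) (by omega)
      have e1 := congrArg (fun ρ : Equiv.Perm (Fin n) => ρ y) h
      simp only [sw_right] at e1
      refine sw_inj h e1 ?_
      apply Fin.ext
      unfold D at h1 h1' h4 h4'
      rw [e1] at h4
      omega

theorem F32 (hr : IsPoset r) {x y z : Fin n} (hyz : Inc r y z) :
    F r x y z 3 2 ≤ F r x y z 3 1 + F r x y z 4 1 := by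
  unfold F
  rw [Pr_split _ (fun σ => ¬ r (nx y σ) z)]
  apply add_le_add
  · apply Pr_le_of_inj r _ _ (fun σ => σ * Equiv.swap (nx y σ) z)
    · rintro σ hσ ⟨⟨h1, h2⟩, h3⟩
      have h4 := nx_pos (x := y) (σ := σ) (y := z) (by omega)
      obtain ⟨e, he⟩ : ∃ e, e = nx y σ := ⟨_, rfl⟩
      rw [← he] at h3 h4
      simp only [← he]
      have h5 : D e z σ = 1 := by
        unfold D at h2 h4 ⊢
        omega
      refine ⟨sw_mem hσ h5 h3, ?_⟩
      have hye : y ≠ e := by
        rintro rfl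
        unfold D at h4
        omega
      have hyz' : y ≠ z := by
        rintro rfl
        unfold D at h2
        omega
      have hxe : x ≠ e := by
        rintro rfl
        unfold D at h1 h4
        omega
      have hxz : x ≠ z := by
        rintro rfl
        unfold D at h1 h2
        omega
      unfold D at h1 h2 h4 ⊢
      rw [sw_right, sw_ne σ hye hyz', sw_ne σ hxe hxz]
      omega
    · rintro σ hσ ⟨⟨h1, h2⟩, h3⟩ τ hτ ⟨⟨h1', h2'⟩, h3'⟩ h
      have h4 := nx_pos (x := y) (σ := σ) (y := z) (by omega)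
      have h4' := nx_pos (x := y) (σ := τ) (y := z) (by omega)
      have e1 := congrArg (fun ρ : Equiv.Perm (Fin n) => ρ z) h
      simp only [sw_right] at e1
      refine sw_inj h e1 ?_
      apply Fin.ext
      unfold D at h2 h2' h4 h4'
      rw [e1] at h4
      omega
  · apply Pr_le_of_inj r _ _ (fun σ => σ * Equiv.swap y (nx y σ))
    · rintro σ hσ ⟨⟨h1, h2⟩, h3⟩
      push Not at h3
      have h4 := nx_pos (x := y) (σ := σ) (y := z) (by omega)
      obtain ⟨e, he⟩ : ∃ e, e = nx y σ := ⟨_, rfl⟩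
      rw [← he] at h3 h4
      simp only [← he]
      have hye : ¬ r y e := fun h => hyz.1 (hr.2.1 _ _ _ h h3)
      refine ⟨sw_mem hσ h4 hye, ?_⟩
      have hze : z ≠ e := by
        rintro rfl
        omega
      have hzy : z ≠ y := by
        rintro rfl
        unfold D at h2
        omega
      have hxe : x ≠ e := by
        rintro rfl
        unfold D at h1 h4
        omega
      have hxy : x ≠ y := by
        rintro rfl
        unfold D at h1
        omega
      unfold D at h1 h2 h4 ⊢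
      rw [sw_left, sw_ne σ hxy hxe, sw_ne σ hzy hze]
      omega
    · rintro σ hσ ⟨⟨h1, h2⟩, h3⟩ τ hτ ⟨⟨h1', h2'⟩, h3'⟩ h
      have h4 := nx_pos (x := y) (σ := σ) (y := z) (by omega)
      have h4' := nx_pos (x := y) (σ := τ) (y := z) (by omega)
      have e1 := congrArg (fun ρ : Equiv.Perm (Fin n) => ρ y) h
      simp only [sw_left] at e1
      refine sw_inj h ?_ e1
      apply Fin.ext
      unfold D at h4 h4'
      rw [e1] at h4
      omega

/-- disjoint events -/
theorem Pr_four_le (p1 p2 p3 p4 q : Equiv.Perm (Fin n) → Prop)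
    (h : ∀ σ ∈ LEs r, ii (p1 σ) + ii (p2 σ) + ii (p3 σ) + ii (p4 σ) ≤ ii (q σ)) :
    Pr r p1 + Pr r p2 + Pr r p3 + Pr r p4 ≤ Pr r q := by
  have h1 : Ex r (fun σ => (((ii (p1 σ) : ℤ) : ℝ) + ((ii (p2 σ) : ℤ) : ℝ) +
      ((ii (p3 σ) : ℤ) : ℝ) + ((ii (p4 σ) : ℤ) : ℝ))) ≤ Ex r (fun σ => ((ii (q σ) : ℤ) : ℝ)) := by
    apply Ex_mono_on
    intro σ hσ
    exact_mod_cast h σ hσ
  simp only [Ex_add, Ex_ii] at h1
  exact h1


/-- the basic inequality -/
theorem base (hr : IsPoset r) {x y z : Fin n} (hxz : r x z) (hne : x ≠ z) (hxy : Inc r x y)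
    (hyz : Inc r y z) (φ : Equiv.Perm (Fin n) → ℤ)
    (h : ∀ σ ∈ LEs r, φ σ ≤ ii (1 ≤ D x y σ ∧ 1 ≤ D y z σ) * D x z σ +
      ii (D x y σ = 1) * D y z σ + ii (D y z σ = 1) * D x y σ - ii (D x y σ = 1) -
      ii (D y z σ = 1)) :
    Ex r (fun σ => ((φ σ : ℤ) : ℝ)) + prob r y x + prob r z y ≤ mn r x z := by
  have hxy' := hxy.ne hr
  have hyz' := hyz.ne hr
  have h1 : Ex r (fun σ => (((ii (1 ≤ D x y σ ∧ 1 ≤ D y z σ) * D x z σ : ℤ) : ℝ) +
      ((ii (D x y σ = -1) * D x z σ : ℤ) : ℝ) + ((ii (D y z σ = -1) * D x z σ : ℤ) : ℝ) +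
      (((ii (D x y σ < 0) : ℤ) : ℝ) - ((ii (D x y σ = -1) : ℤ) : ℝ)) +
      (((ii (D y z σ < 0) : ℤ) : ℝ) - ((ii (D y z σ = -1) : ℤ) : ℝ)))) ≤ mn r x z := by
    unfold mn
    apply Ex_mono_on
    intro σ hσ
    have hZ := D_pos hxz hne hσ
    have hX := D_ne hxy' σ
    have hY := D_ne hyz' σ
    have hs := D_add x y z σ
    have : ii (1 ≤ D x y σ ∧ 1 ≤ D y z σ) * D x z σ + ii (D x y σ = -1) * D x z σ +
        ii (D y z σ = -1) * D x z σ + (ii (D x y σ < 0) - ii (D x y σ = -1)) +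
        (ii (D y z σ < 0) - ii (D y z σ = -1)) ≤ D x z σ := by
      unfold ii
      split_ifs <;> omega
    exact_mod_cast this
  simp only [Ex_add, Ex_sub, Ex_ii] at h1
  rw [Ex_swap hxy, Ex_swap hyz, Pr_swap hxy, Pr_swap hyz, ← prob_D, ← prob_D] at h1
  have h2 : Ex r (fun σ => ((φ σ : ℤ) : ℝ)) ≤
      Ex r (fun σ => (((ii (1 ≤ D x y σ ∧ 1 ≤ D y z σ) * D x z σ : ℤ) : ℝ) +
      ((ii (D x y σ = 1) * D x z (σ * Equiv.swap x y) : ℤ) : ℝ) +
      ((ii (D y z σ = 1) * D x z (σ * Equiv.swap y z) : ℤ) : ℝ) -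
      ((ii (D x y σ = 1) : ℤ) : ℝ) - ((ii (D y z σ = 1) : ℤ) : ℝ))) := by
    apply Ex_mono_on
    intro σ hσ
    have e1 : D x z (σ * Equiv.swap x y) = D y z σ := by
      unfold D
      rw [sw_left, sw_ne σ (Ne.symm hne) (Ne.symm hyz')]
    have e2 : D x z (σ * Equiv.swap y z) = D x y σ := by
      unfold D
      rw [sw_right, sw_ne σ hxy' hne]
    rw [e1, e2]
    exact_mod_cast h σ hσ
  simp only [Ex_add, Ex_sub, Ex_ii] at h2
  linarith

end Pool.Agent.BFT.One

namespace Pool.Agent.BFT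

open Finset Pool.Agent.Helper1.Balance Pool.Agent.Helper8.KS Pool.Agent.Helper18.KSC
open Pool.Agent.BFT.One

variable {n : ℕ} {r : Fin n → Fin n → Prop}

theorem one_A (hr : IsPoset r) {x y z : Fin n} (hxz : r x z) (hne : x ≠ z) (hxy : Inc r x y)
    (hyz : Inc r y z) :
    4 - 3 * (prob r y x + prob r z y) - 2 * F r x y z 1 1 ≤ mn r x z := by
  have hxy' := hxy.ne hr
  have hyz' := hyz.ne hr
  have h1 := base hr hxz hne hxy hyz (fun σ => 4 * (1 - ii (D x y σ < 0) - ii (D y z σ < 0)) -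
    2 * ii (D x y σ = 1 ∧ D y z σ = 1)) (by
    intro σ hσ
    have hZ := D_pos hxz hne hσ
    have hX := D_ne hxy' σ
    have hY := D_ne hyz' σ
    have hs := D_add x y z σ
    unfold ii
    split_ifs <;> omega)
  have h2 : Ex r (fun σ => (((4 * (1 - ii (D x y σ < 0) - ii (D y z σ < 0)) -
      2 * ii (D x y σ = 1 ∧ D y z σ = 1) : ℤ) : ℝ))) =
      4 * (1 - prob r y x - prob r z y) - 2 * F r x y z 1 1 := by
    have : Ex r (fun σ => (4 * ((1 : ℝ) - ((ii (D x y σ < 0) : ℤ) : ℝ) -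
        ((ii (D y z σ < 0) : ℤ) : ℝ)) - 2 * ((ii (D x y σ = 1 ∧ D y z σ = 1) : ℤ) : ℝ))) =
        4 * (1 - prob r y x - prob r z y) - 2 * F r x y z 1 1 := by
      simp only [Ex_sub, Ex_mul_left, Ex_ii, Ex_const hr, prob_D]
      rfl
    rw [← this]
    congr 1
    funext σ
    push_cast
    ring
  rw [h2] at h1
  linarith

theorem one_C (hr : IsPoset r) {x y z : Fin n} (hxz : r x z) (hne : x ≠ z) (hxy : Inc r x y)
    (hyz : Inc r y z) :
    F r x y z 1 2 + F r x y z 2 1 + 2 * F r x y z 1 1 ≤ prob r y x + prob r z y := by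
  have h1 : F r x y z 1 1 + F r x y z 1 2 ≤ prob r y x := by
    rw [prob_D, ← add_zero (F r x y z 1 1 + F r x y z 1 2)]
    have e0 : Pr r (fun σ => D x y σ = -1) ≤ Pr r (fun σ => D x y σ < 0) :=
      Pr_mono (fun σ h => by omega)
    refine le_trans ?_ e0
    rw [Pr_swap hxy]
    have := Pr_four_le (r := r) (fun σ => D x y σ = 1 ∧ D y z σ = 1)
      (fun σ => D x y σ = 1 ∧ D y z σ = 2) (fun _ => False) (fun _ => False)
      (fun σ => D x y σ = 1) (by
        intro σ _
        unfold ii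
        rw [if_neg not_false]
        split_ifs <;> omega)
    have h0 := Pr_nonneg (r := r) (fun _ => False)
    unfold F
    linarith
  have h2 : F r x y z 1 1 + F r x y z 2 1 ≤ prob r z y := by
    rw [prob_D]
    have e0 : Pr r (fun σ => D y z σ = -1) ≤ Pr r (fun σ => D y z σ < 0) :=
      Pr_mono (fun σ h => by omega)
    refine le_trans ?_ e0
    rw [Pr_swap hyz]
    have := Pr_four_le (r := r) (fun σ => D x y σ = 1 ∧ D y z σ = 1)
      (fun σ => D x y σ = 2 ∧ D y z σ = 1) (fun _ => False) (fun _ => False)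
      (fun σ => D y z σ = 1) (by
        intro σ _
        unfold ii
        rw [if_neg not_false]
        split_ifs <;> omega)
    have h0 := Pr_nonneg (r := r) (fun _ => False)
    unfold F
    linarith
  linarith

theorem one_B (hr : IsPoset r) {x y z : Fin n} (hxz : r x z) (hne : x ≠ z) (hxy : Inc r x y)
    (hyz : Inc r y z) :
    6 - 7 * (prob r y x + prob r z y) - 2 * F r x y z 2 2 ≤ mn r x z := by
  have hxy' := hxy.ne hr
  have hyz' := hyz.ne hr
  have h1 := base hr hxz hne hxy hyz (fun σ => 6 * (1 - ii (D x y σ < 0) - ii (D y z σ < 0)) -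
    4 * ii (D x y σ = 1 ∧ D y z σ = 1) - 2 * ii (D x y σ = 1 ∧ D y z σ = 2) -
    2 * ii (D x y σ = 2 ∧ D y z σ = 1) - 2 * ii (D x y σ = 2 ∧ D y z σ = 2) -
    ii (D x y σ = 2 ∧ D y z σ = 3) - ii (D x y σ = 3 ∧ D y z σ = 2)) (by
    intro σ hσ
    have hZ := D_pos hxz hne hσ
    have hX := D_ne hxy' σ
    have hY := D_ne hyz' σ
    have hs := D_add x y z σ
    by_cases c1 : D x y σ < 0
    · unfold ii
      rw [if_pos c1]
      split_ifs <;> omega
    · by_cases c2 : D y z σ < 0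
      · unfold ii
        rw [if_pos c2, if_neg c1]
        split_ifs <;> omega
      · unfold ii
        rw [if_neg c1, if_neg c2, if_pos (show 1 ≤ D x y σ ∧ 1 ≤ D y z σ by omega)]
        by_cases c3 : D x y σ = 1
        · rw [if_pos c3]
          split_ifs <;> omega
        · rw [if_neg c3, if_neg (fun h => c3 h.1), if_neg (fun h => c3 h.1)]
          split_ifs <;> omega)
  have h2 : Ex r (fun σ => (((6 * (1 - ii (D x y σ < 0) - ii (D y z σ < 0)) -
      4 * ii (D x y σ = 1 ∧ D y z σ = 1) - 2 * ii (D x y σ = 1 ∧ D y z σ = 2) -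
      2 * ii (D x y σ = 2 ∧ D y z σ = 1) - 2 * ii (D x y σ = 2 ∧ D y z σ = 2) -
      ii (D x y σ = 2 ∧ D y z σ = 3) - ii (D x y σ = 3 ∧ D y z σ = 2) : ℤ) : ℝ))) =
      6 * (1 - prob r y x - prob r z y) - 4 * F r x y z 1 1 - 2 * F r x y z 1 2 -
      2 * F r x y z 2 1 - 2 * F r x y z 2 2 - F r x y z 2 3 - F r x y z 3 2 := by
    have : Ex r (fun σ => (6 * ((1 : ℝ) - ((ii (D x y σ < 0) : ℤ) : ℝ) -
        ((ii (D y z σ < 0) : ℤ) : ℝ)) - 4 * ((ii (D x y σ = 1 ∧ D y z σ = 1) : ℤ) : ℝ) -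
        2 * ((ii (D x y σ = 1 ∧ D y z σ = 2) : ℤ) : ℝ) -
        2 * ((ii (D x y σ = 2 ∧ D y z σ = 1) : ℤ) : ℝ) -
        2 * ((ii (D x y σ = 2 ∧ D y z σ = 2) : ℤ) : ℝ) -
        ((ii (D x y σ = 2 ∧ D y z σ = 3) : ℤ) : ℝ) -
        ((ii (D x y σ = 3 ∧ D y z σ = 2) : ℤ) : ℝ))) =
        6 * (1 - prob r y x - prob r z y) - 4 * F r x y z 1 1 - 2 * F r x y z 1 2 -
        2 * F r x y z 2 1 - 2 * F r x y z 2 2 - F r x y z 2 3 - F r x y z 3 2 := by
      simp only [Ex_sub, Ex_mul_left, Ex_ii, Ex_const hr, prob_D]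
      rfl
    rw [← this]
    congr 1
    funext σ
    push_cast
    ring
  rw [h2] at h1
  have h3 : F r x y z 1 1 + F r x y z 1 2 + F r x y z 1 3 + F r x y z 1 4 ≤ prob r y x := by
    rw [prob_D]
    have e0 : Pr r (fun σ => D x y σ = -1) ≤ Pr r (fun σ => D x y σ < 0) :=
      Pr_mono (fun σ h => by omega)
    refine le_trans ?_ e0
    rw [Pr_swap hxy]
    exact Pr_four_le (r := r) _ _ _ _ (fun σ => D x y σ = 1) (by
        intro σ _
        unfold ii
        split_ifs <;> omega)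
  have h4 : F r x y z 1 1 + F r x y z 2 1 + F r x y z 3 1 + F r x y z 4 1 ≤ prob r z y := by
    rw [prob_D]
    have e0 : Pr r (fun σ => D y z σ = -1) ≤ Pr r (fun σ => D y z σ < 0) :=
      Pr_mono (fun σ h => by omega)
    refine le_trans ?_ e0
    rw [Pr_swap hyz]
    exact Pr_four_le (r := r) _ _ _ _ (fun σ => D y z σ = 1) (by
        intro σ _
        unfold ii
        split_ifs <;> omega)
  have h5 := F23 hr (z := z) hxy
  have h6 := F32 hr (x := x) hyz
  have h7 : 0 ≤ F r x y z 2 3 := Pr_nonneg _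
  have h8 : 0 ≤ F r x y z 3 2 := Pr_nonneg _
  linarith

end Pool.Agent.BFT
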