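import Mathlib
import Pool.Agent.BFT.Swap

/-! # Triples with at least one comparability: cases (0), (2), (2'), (3), (3') -/

set_option autoImplicit false

namespace Pool.Agent.BFT

open Finset Pool.Agent.Helper1.Balance Pool.Agent.Helper8.KS Pool.Agent.Helper18.KSC

variable {n : ℕ} {r : Fin n → Fin n → Prop}

namespace TT

theorem Ex_le_LE {f g : Equiv.Perm (Fin n) → ℝ} (h : ∀ σ ∈ LEs r, f σ ≤ g σ) :
    Ex r f ≤ Ex r g := by
  unfold Ex
  exact div_le_div_of_nonneg_right (sum_le_sum h) (Nat.cast_nonneg _)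

open Classical in
theorem mn_ge_one (hr : IsPoset r) {x y : Fin n} {p : Equiv.Perm (Fin n) → Prop}
    (h : ∀ σ ∈ LEs r, 1 ≤ D x y σ) (hp : ∀ σ ∈ LEs r, p σ → 2 ≤ D x y σ) :
    1 + Pr r p ≤ mn r x y := by
  have h1 : 1 + Pr r p = Ex r (fun σ => 1 + (if p σ then (1:ℝ) else 0)) := by
    rw [Ex_add, Ex_const hr]
    rfl
  rw [h1]
  refine Ex_le_LE fun σ hσ => ?_
  by_cases h2 : p σ
  · have h3 : (2:ℝ) ≤ ((D x y σ : ℤ) : ℝ) := by exact_mod_cast hp σ hσ h2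
    rw [if_pos h2]
    linarith
  · have h3 : (1:ℝ) ≤ ((D x y σ : ℤ) : ℝ) := by exact_mod_cast h σ hσ
    rw [if_neg h2]
    linarith

open Classical in
theorem mn_ge_two (hr : IsPoset r) {x y : Fin n} (h : ∀ σ ∈ LEs r, 1 ≤ D x y σ) :
    3 - 2 * gp r x y 1 - gp r x y 2 ≤ mn r x y := by
  have h1 : 3 - 2 * gp r x y 1 - gp r x y 2 = Ex r (fun σ => 3 -
      2 * (if D x y σ = 1 then (1:ℝ) else 0) - (if D x y σ = 2 then (1:ℝ) else 0)) := by
    have h0 : ∀ k : ℤ, gp r x y k = Ex r (fun σ => if D x y σ = k then (1:ℝ) else 0) := by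
      intro k
      unfold gp Pr
      refine congrArg (Ex r) (funext fun σ => ?_)
      by_cases h : D x y σ = k <;> simp [h]
    rw [Ex_sub, Ex_sub, Ex_const hr, Ex_mul_left, ← h0, ← h0]
  rw [h1]
  refine Ex_le_LE fun σ hσ => ?_
  have h2 := h σ hσ
  by_cases h3 : D x y σ = 1
  · rw [if_pos h3, if_neg (by omega), h3]
    norm_num
  · by_cases h4 : D x y σ = 2
    · rw [if_neg h3, if_pos h4, h4]
      norm_num
    · rw [if_neg h3, if_neg h4]
      have h5 : (3:ℝ) ≤ ((D x y σ : ℤ) : ℝ) := by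
        have : (3:ℤ) ≤ D x y σ := by omega
        exact_mod_cast this
      linarith

theorem Pr_add_le_disj {p p' q : Equiv.Perm (Fin n) → Prop}
    (h1 : ∀ σ ∈ LEs r, p σ → q σ) (h2 : ∀ σ ∈ LEs r, p' σ → q σ)
    (h3 : ∀ σ ∈ LEs r, p σ → ¬ p' σ) : Pr r p + Pr r p' ≤ Pr r q := by
  refine Pr_add_le_of_inj r p p' q id id (fun σ hσ hp => ⟨hσ, h1 σ hσ hp⟩)
    (fun σ _ _ τ _ _ h => h) (fun σ hσ hp => ⟨hσ, h2 σ hσ hp⟩) (fun σ _ _ τ _ _ h => h) ?_
  intro σ hσ hp τ hτ hp' h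
  have h4 : σ = τ := h
  subst h4
  exact h3 σ hσ hp hp'

theorem Pr_le_LE {p q : Equiv.Perm (Fin n) → Prop} (h1 : ∀ σ ∈ LEs r, p σ → q σ) :
    Pr r p ≤ Pr r q :=
  Pr_le_of_inj' p q id id (fun σ hσ hp => ⟨hσ, h1 σ hσ hp⟩) (fun _ _ _ => rfl)

end TT

open TT

/-! case (0), (2), (2') -/

theorem zero_A (hr : IsPoset r) {x y z : Fin n} (hxy : r x y) (hyz : r y z) (h1 : x ≠ y)
    (h2 : y ≠ z) : 2 ≤ mn r x z := by
  have h : 2 = Ex r (fun _ => (2:ℝ)) := (Ex_const hr 2).symm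
  rw [h]
  refine Ex_le_LE fun σ hσ => ?_
  have e1 := D_pos_of_rel hσ hxy h1
  have e2 := D_pos_of_rel hσ hyz h2
  have e3 := D_add x y z σ
  have e4 : (2:ℤ) ≤ D x z σ := by omega
  exact_mod_cast e4

theorem two_A (hr : IsPoset r) {x y z : Fin n} (hxy : r x y) (h1 : x ≠ y) (hxz : r x z)
    (h2 : x ≠ z) (hyz : Inc r y z) : 3 - 3 * prob r z y ≤ mn r x z := by
  have hyz' := hyz.ne hr
  have e1 : 3 - 2 * gp r x z 1 - gp r x z 2 ≤ mn r x z :=
    mn_ge_two hr fun σ hσ => by have := D_pos_of_rel hσ hxz h2; omega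
  have e2 : gp r x z 1 ≤ prob r z y := by
    rw [prob_eq_Pr]
    refine Pr_le_LE fun σ hσ hp => ?_
    have g1 := D_pos_of_rel hσ hxy h1
    have g2 := D_add x z y σ
    have g3 : D z y σ ≠ 0 := fun h => hyz' (D_eq_zero h).symm
    have g4 : 0 < D z y σ := by omega
    rw [Fin.lt_def]
    unfold D at g4
    omega
  have e3 : gp r x z 2 = Pr r (fun σ => D x z σ = 2 ∧ 0 < D y z σ) +
      Pr r (fun σ => D x z σ = 2 ∧ ¬ 0 < D y z σ) := Pr_split r _ _
  have e4 : Pr r (fun σ => D x z σ = 2 ∧ 0 < D y z σ) ≤ gp r x z 1 := by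
    refine Pr_le_of_inj' _ _ (fun σ => σ * Equiv.swap y z) (fun σ => σ * Equiv.swap y z) ?_ ?_
    · rintro σ hσ ⟨g1, g2⟩
      have g3 := D_pos_of_rel hσ hxy h1
      have g4 := D_add x y z σ
      have g5 : D y z σ = 1 := by omega
      refine ⟨swap_mem hσ g5 hyz.1, ?_⟩
      rw [D_neg, D_swap_right h1 h2, ← D_neg]
      omega
    · intro σ _ _
      simp [mul_assoc]
  have e5 : gp r x z 1 + Pr r (fun σ => D x z σ = 2 ∧ ¬ 0 < D y z σ) ≤ prob r z y := by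
    rw [prob_eq_Pr]
    refine Pr_add_le_disj ?_ ?_ ?_
    · intro σ hσ hp
      have g1 := D_pos_of_rel hσ hxy h1
      have g2 := D_add x z y σ
      have g3 : D z y σ ≠ 0 := fun h => hyz' (D_eq_zero h).symm
      have g4 : 0 < D z y σ := by omega
      rw [Fin.lt_def]
      unfold D at g4
      omega
    · rintro σ hσ ⟨-, hp⟩
      have g3 : D y z σ ≠ 0 := fun h => hyz' (D_eq_zero h)
      have g4 : D y z σ < 0 := by omega
      rw [Fin.lt_def]
      unfold D at g4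
      omega
    · rintro σ hσ hp ⟨hp', -⟩
      omega
  linarith

theorem two_B (hr : IsPoset r) {x y z : Fin n} (hyz : r y z) (h1 : y ≠ z) (hxz : r x z)
    (h2 : x ≠ z) (hxy : Inc r x y) : 3 - 3 * prob r y x ≤ mn r x z := by
  have hxy' := hxy.ne hr
  have e1 : 3 - 2 * gp r x z 1 - gp r x z 2 ≤ mn r x z :=
    mn_ge_two hr fun σ hσ => by have := D_pos_of_rel hσ hxz h2; omega
  have lt_of : ∀ σ : Equiv.Perm (Fin n), 0 < D y x σ → σ y < σ x := by
    intro σ g4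
    rw [Fin.lt_def]
    unfold D at g4
    omega
  have first : ∀ σ ∈ LEs r, D x z σ = 1 → 0 < D y x σ := by
    intro σ hσ hp
    have g1 := D_pos_of_rel hσ hyz h1
    have g2 := D_add y x z σ
    have g3 : D y x σ ≠ 0 := fun h => hxy' (D_eq_zero h).symm
    omega
  have e3 : gp r x z 2 = Pr r (fun σ => D x z σ = 2 ∧ 0 < D x y σ) +
      Pr r (fun σ => D x z σ = 2 ∧ ¬ 0 < D x y σ) := Pr_split r _ _
  have e4 : Pr r (fun σ => D x z σ = 2 ∧ 0 < D x y σ) ≤ gp r x z 1 := by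
    refine Pr_le_of_inj' _ _ (fun σ => σ * Equiv.swap x y) (fun σ => σ * Equiv.swap x y) ?_ ?_
    · rintro σ hσ ⟨g1, g2⟩
      have g3 := D_pos_of_rel hσ hyz h1
      have g4 := D_add x y z σ
      have g5 : D x y σ = 1 := by omega
      refine ⟨swap_mem hσ g5 hxy.1, ?_⟩
      rw [D_swap_left h2.symm h1.symm]
      omega
    · intro σ _ _
      simp [mul_assoc]
  have e2 : gp r x z 1 ≤ prob r y x := by
    rw [prob_eq_Pr]
    exact Pr_le_LE fun σ hσ hp => lt_of σ (first σ hσ hp)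
  have e5 : gp r x z 1 + Pr r (fun σ => D x z σ = 2 ∧ ¬ 0 < D x y σ) ≤ prob r y x := by
    rw [prob_eq_Pr]
    refine Pr_add_le_disj ?_ ?_ ?_
    · exact fun σ hσ hp => lt_of σ (first σ hσ hp)
    · rintro σ hσ ⟨-, hp⟩
      have g3 : D x y σ ≠ 0 := fun h => hxy' (D_eq_zero h)
      have g4 := D_neg x y σ
      exact lt_of σ (by omega)
    · rintro σ hσ hp ⟨hp', -⟩
      omega
  linarith

/-! case (3), (3') -/

theorem three_A (hr : IsPoset r) {x y z : Fin n} (hxy : r x y) (h1 : x ≠ y) (hxz : Inc r x z)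
    (hyz : Inc r y z) : 1 + gp r y z 1 ≤ mn r x y := by
  have hxz' := hxz.ne hr
  rw [← gp_neg_one hr hyz]
  refine mn_ge_one hr (fun σ hσ => ?_) fun σ hσ hp => ?_
  · have := D_pos_of_rel hσ hxy h1
    omega
  · have g1 := D_pos_of_rel hσ hxy h1
    have g2 := D_add x z y σ
    have g3 : D x z σ ≠ 0 := fun h => hxz' (D_eq_zero h)
    have g4 := D_neg z y σ
    omega

theorem three_B (hr : IsPoset r) {x y z : Fin n} (hyz : r y z) (h1 : y ≠ z) (hxz : Inc r x z)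
    (hxy : Inc r x y) : 1 + gp r x y 1 ≤ mn r y z := by
  have hxz' := hxz.ne hr
  rw [← gp_neg_one hr hxy]
  refine mn_ge_one hr (fun σ hσ => ?_) fun σ hσ hp => ?_
  · have := D_pos_of_rel hσ hyz h1
    omega
  · have g1 := D_pos_of_rel hσ hyz h1
    have g2 := D_add y x z σ
    have g3 : D x z σ ≠ 0 := fun h => hxz' (D_eq_zero h)
    have g4 := D_neg x y σ
    omega

end Pool.Agent.BFT
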