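import Mathlib
import Pool.Agent.BFT.Defs
import Pool.Agent.BFT.Moments
import Pool.Agent.BFT.TripleOne
import Pool.Agent.BFT.TripleFour
import Pool.Agent.BFT.TripleTwo

/-! # Exchanges for triples -/

set_option autoImplicit false

namespace Pool.Agent.BFT

open Finset Pool.Agent.Helper1.Balance Pool.Agent.Helper8.KS Pool.Agent.Helper18.KSC

variable {n : ℕ} {r : Fin n → Fin n → Prop}

/-! case (1): `one_A`, `one_B`, `one_C` are in `TripleOne` -/

/-! cases (0), (2), (2'), (3), (3'): `zero_A`, `two_A`, `two_B`, `three_A`, `three_B` are in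
`TripleTwo` -/

/-! case (4): pairwise incomparable: see TripleFour -/

end Pool.Agent.BFT
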