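import Mathlib
import Pool.Agent.BFT.TripleEx
import Pool.Agent.BFT.Pair
import Pool.Agent.BFT.CP

/-! # The triple lemma (owner: helper16) -/

set_option autoImplicit false

namespace Pool.Agent.BFT

open Finset Pool.Agent.Helper1.Balance Pool.Agent.Helper8.KS Pool.Agent.Helper18.KSC

theorem log_small {q : ℝ} (h0 : 0 < q) (h1 : q ≤ 0.151) : 1.88 ≤ Real.log (1 / q) := by
  have h3 : Real.exp 1.88 ≤ 1 / 0.151 := by
    have h4 := Real.exp_bound' (x := 0.88) (by norm_num) (by norm_num) (n := 8) (by norm_num)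
    have h5 : Real.exp 1.88 = Real.exp 1 * Real.exp 0.88 := by
      rw [← Real.exp_add]; norm_num
    have h6 : Real.exp 1 < 2.7182818286 := Real.exp_one_lt_d9
    rw [h5]
    have h7 : Real.exp 0.88 ≤ 2.411 := by
      refine h4.trans ?_
      simp only [Finset.sum_range_succ, Finset.sum_range_zero, Nat.factorial]
      norm_num
    have h8 : 0 < Real.exp 0.88 := Real.exp_pos _
    have h9 : Real.exp 1 * Real.exp 0.88 ≤ 2.7182818286 * 2.411 := by
      apply mul_le_mul h6.le h7 h8.le (by norm_num)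
    refine h9.trans ?_
    norm_num
  rw [Real.le_log_iff_exp_le (by positivity)]
  exact h3.trans (one_div_le_one_div_of_le h0 h1)

/-- case (1): numbers -/
theorem num_one {Q u v f12 f21 E s5 ε η : ℝ} (hs : s5 ^ 2 = 5) (hs0 : 2.236 ≤ s5)
    (hη : 0 < η) (hε0 : 0 < ε) (hε : ε ≤ 1 / 10000) (hεη : 30 * ε ≤ η)
    (hQ : Q ≤ 2 * ((5 - s5) / 10 + ε)) (hv : 0 ≤ v) (h12 : 0 ≤ f12)
    (h21 : 0 ≤ f21) (hA : 4 - 3 * Q - 2 * u ≤ E) (hB : 6 - 7 * Q - 2 * v ≤ E)
    (hC : f12 + f21 + 2 * u ≤ Q) (hcp : u * v ≤ f12 * f21) : 2 - η ≤ E := by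
  by_cases h : u ≤ 1 - 1.5 * Q
  · linarith
  · push Not at h
    have hQ1 : Q ≤ 0.553 := by linarith
    have hw : 0.17 ≤ 1 - 1.5 * Q := by linarith
    have h1 : f12 * f21 ≤ ((Q - 2 * u) / 2) ^ 2 := by
      nlinarith [sq_nonneg (f12 - f21), mul_nonneg h12 h21]
    have h2 : 0 ≤ Q - 2 * u := by linarith
    have h3 : Q - 2 * u ≤ 4 * Q - 2 := by linarith
    have h4 : ((Q - 2 * u) / 2) ^ 2 ≤ (2 * Q - 1) ^ 2 := by
      have : 0 ≤ (Q - 2 * u) / 2 := by linarith
      exact pow_le_pow_left₀ this (by linarith) 2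
    have h5 : (1 - 1.5 * Q) * v ≤ (2 * Q - 1) ^ 2 := by
      have : (1 - 1.5 * Q) * v ≤ u * v := mul_le_mul_of_nonneg_right h.le hv
      linarith
    have h6 : 0 ≤ 2.5 * ((1 - Q) ^ 2 - 0.2) + 5 * ε := by
      have h7 : s5 / 5 - 2 * ε ≤ 1 - Q := by linarith
      have h8 : 0 ≤ s5 / 5 - 2 * ε := by linarith
      have h9 : (s5 / 5 - 2 * ε) ^ 2 ≤ (1 - Q) ^ 2 := pow_le_pow_left₀ h8 h7 2
      have h10 : s5 ≤ 2.24 := by nlinarith
      nlinarith
    -- `(E - 2 + η) (1 - 1.5 Q) ≥ 0`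
    have h11 : 0 ≤ (E - 2 + η) * (1 - 1.5 * Q) := by
      have h12 : (4 - 7 * Q - 2 * v + η) * (1 - 1.5 * Q) ≤ (E - 2 + η) * (1 - 1.5 * Q) :=
        mul_le_mul_of_nonneg_right (by linarith) (by linarith)
      have h13 : 0.17 * η ≤ η * (1 - 1.5 * Q) := by nlinarith
      nlinarith
    have h14 : 0 ≤ E - 2 + η := by
      by_contra hc
      push Not at hc
      nlinarith
    linarith

/-- case (4): one adjacency probability is large -/
theorem num_chord {q b E : ℝ} (hq0 : 0 < q) (hq : q ≤ 0.2765) (hb : 0.73 * q ≤ b) (hbq : b ≤ q)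
    (hE : 2.5 * (1 - q) - 2 * b - q ^ 2 / b ≤ E) : 0.979 + 0.6 * (q - b) ≤ E := by
  have hb0 : 0 < b := by nlinarith
  refine le_trans ?_ hE
  obtain ⟨x, hx⟩ : ∃ x, b = x * q := ⟨b / q, by field_simp⟩
  subst hx
  have x1 : x ≤ 1 := by
    by_contra hc
    push Not at hc
    nlinarith
  have x0 : 0.73 ≤ x := by
    by_contra hc
    push Not at hc
    nlinarith
  have e1 : q ^ 2 / (x * q) = q / x := by
    field_simp
  rw [e1]
  have h1 : 0 ≤ 1.521 * x - q * (2.5 * x + 2 * x ^ 2 + 1 + 0.6 * x * (1 - x)) := by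
    have h2 : 0 ≤ 2.5 * x + 2 * x ^ 2 + 1 + 0.6 * x * (1 - x) := by nlinarith
    have h3 : q * (2.5 * x + 2 * x ^ 2 + 1 + 0.6 * x * (1 - x)) ≤
        0.2765 * (2.5 * x + 2 * x ^ 2 + 1 + 0.6 * x * (1 - x)) :=
      mul_le_mul_of_nonneg_right hq h2
    nlinarith [mul_nonneg (sub_nonneg.2 x0) (sub_nonneg.2 x1)]
  have h4 : q / x = (q / x) := rfl
  have hx0 : 0 < x := by linarith
  have h5 : q / x ≤ 1.521 - q * (2.5 + 2 * x + 0.6 * (1 - x)) := by
    rw [div_le_iff₀ hx0]
    nlinarith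
  nlinarith

/-- case (4), few separated inversions: numbers -/
theorem num_four {q1 q2 q3 t s1 s2 r3 m E L : ℝ} (h1 : q1 ≤ 0.2765) (h2 : q2 ≤ 0.2765)
    (p1 : 0 < q1) (p3 : 0 < q3) (n3 : 0 ≤ r3) (hm : 0 ≤ m) (ht : t ≤ 0.0745)
    (hst : s1 + s2 ≤ t) (hr3 : r3 ≤ q2 * q1) (h3 : q3 = s1 + s2 + r3)
    (hE : 4 - 3 * (q1 + q2) - 2 * (s1 + s2) + 2 * r3 - m ≤ E)
    (hL : q3 ≤ 0.151 → 1.88 ≤ L) (t2 : m * (L - 1) ≤ q3 * E) : 2 ≤ E := by
  have e1 : q2 * q1 ≤ 0.2765 * 0.2765 := mul_le_mul h2 h1 p1.le (by norm_num)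
  have e2 : r3 ≤ 0.0765 := by linarith
  have e3 : 1.88 ≤ L := hL (by linarith)
  by_cases hmm : 2 * q3 ≤ 0.88 * m
  · have e4 : m * 0.88 ≤ m * (L - 1) := mul_le_mul_of_nonneg_left (by linarith) hm
    have e5 : 2 * q3 ≤ q3 * E := by linarith
    by_contra hc
    push Not at hc
    nlinarith
  · push Not at hmm
    linarith

/-- **Triple lemma.** -/
theorem triple (η : ℝ) (hη : 0 < η) : ∃ ε : ℝ, 0 < ε ∧ ∀ (n : ℕ) (r : Fin n → Fin n → Prop)
    (x y z : Fin n), IsPoset r → x ≠ y → y ≠ z → x ≠ z → ¬ r y x → ¬ r z y → ¬ r z x →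
    prob r y x ≤ (5 - Real.sqrt 5) / 10 + ε → prob r z y ≤ (5 - Real.sqrt 5) / 10 + ε →
    prob r z x ≤ (5 - Real.sqrt 5) / 10 + ε → 2 - η ≤ mn r x z := by
  have hs : Real.sqrt 5 ^ 2 = 5 := Real.sq_sqrt (by norm_num)
  have hs0 : 2.236 ≤ Real.sqrt 5 := by
    apply Real.le_sqrt_of_sq_le
    norm_num
  refine ⟨min (1 / 10000) (η / 30), by positivity, ?_⟩
  intro n r x y z hr hxy hyz hxz nyx nzy nzx q1 q2 q3
  set ε := min (1 / 10000) (η / 30) with hεdef
  have hε1 : ε ≤ 1 / 10000 := min_le_left _ _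
  have hε2 : 30 * ε ≤ η := by
    have : ε ≤ η / 30 := min_le_right _ _
    linarith
  have hε0 : 0 < ε := by positivity
  set s5 := Real.sqrt 5
  have hq1 : prob r y x ≤ 0.2765 := by linarith
  have hq2 : prob r z y ≤ 0.2765 := by linarith
  have hq3 : prob r z x ≤ 0.2765 := by linarith
  by_cases hxy' : r x y
  · by_cases hyz' : r y z
    · have := zero_A hr hxy' hyz' hxy hyz
      linarith
    · by_cases hxz' : r x z
      · have := two_A hr hxy' hxy hxz' hxz ⟨hyz', nzy⟩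
        linarith
      · -- case (3)
        have h1 := three_A hr hxy' hxy ⟨hxz', nzx⟩ ⟨hyz', nzy⟩
        have h2 := pair_d hr (x := y) (y := z) ⟨hyz', nzy⟩ hq2
        have h3 := mn_add r x y z
        linarith
  · by_cases hyz' : r y z
    · by_cases hxz' : r x z
      · have := two_B hr hyz' hyz hxz' hxz ⟨hxy', nyx⟩
        linarith
      · have h1 := three_B hr hyz' hyz ⟨hxz', nzx⟩ ⟨hxy', nyx⟩
        have h2 := pair_d hr (x := x) (y := y) ⟨hxy', nyx⟩ hq1
        have h3 := mn_add r x y z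
        linarith
    · by_cases hxz' : r x z
      · -- case (1)
        refine num_one (Q := prob r y x + prob r z y) (u := F r x y z 1 1) (v := F r x y z 2 2)
          (f12 := F r x y z 1 2) (f21 := F r x y z 2 1) (s5 := s5) (ε := ε) hs hs0 hη hε0 hε1
          hε2 (by linarith) (Pr_nonneg _) (Pr_nonneg _) (Pr_nonneg _)
          (one_A hr hxz' hxz ⟨hxy', nyx⟩ ⟨hyz', nzy⟩)
          (one_B hr hxz' hxz ⟨hxy', nyx⟩ ⟨hyz', nzy⟩)
          (one_C hr hxz' hxz ⟨hxy', nyx⟩ ⟨hyz', nzy⟩) (cross hr hxy hyz hxz)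
      · -- case (4)
        have ixy : Inc r x y := ⟨hxy', nyx⟩
        have iyz : Inc r y z := ⟨hyz', nzy⟩
        have ixz : Inc r x z := ⟨hxz', nzx⟩
        have p1 := prob_pos hr ixy
        have p2 := prob_pos hr iyz
        have p3 := prob_pos hr ixz
        have b1 := gp_pos hr ixy
        have b2 := gp_pos hr iyz
        have c1 : gp r x y 1 ≤ prob r y x := by
          rw [← gp_neg_one hr ixy]
          exact gp_neg_le hr hxy
        have c2 : gp r y z 1 ≤ prob r z y := by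
          rw [← gp_neg_one hr iyz]
          exact gp_neg_le hr hyz
        have hadd := mn_add r x y z
        by_cases ht : 0.0745 ≤ prob r y x + prob r z y - gp r x y 1 - gp r y z 1
        · by_cases k1 : gp r x y 1 ≤ 0.73 * prob r y x
          · have h1 := pair_b hr ixy hq1 k1
            have h2 := pair_a hr iyz hq2
            linarith
          · by_cases k2 : gp r y z 1 ≤ 0.73 * prob r z y
            · have h1 := pair_b hr iyz hq2 k2
              have h2 := pair_a hr ixy hq1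
              linarith
            · push Not at k1 k2
              have h1 := num_chord p1 hq1 k1.le c1 (pair_c hr ixy)
              have h2 := num_chord p2 hq2 k2.le c2 (pair_c hr iyz)
              linarith
        · push Not at ht
          have fA := four_A hr ixy iyz ixz
          have fB := four_B hr ixy iyz ixz
          have fC := four_C hr ixy iyz ixz
          have fD := four_D hr hxy hyz hxz
          have hx := xyz hr hxy hyz hxz
          have t2 := tail_two hr ixz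
          have hm : 0 ≤ mneg r x z := Ex_nonneg fun σ => le_max_right _ _
          exact (num_four hq1 hq2 p1 p3 (Pr_nonneg _) hm ht.le (by linarith) hx fD fA
            (log_small p3) t2).trans' (by linarith)

end Pool.Agent.BFT
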