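import Mathlib
import Pool.Agent.BFT.Triple
import Pool.Agent.BFT.Reord
import Pool.Agent.BFT.Seq
import Pool.Agent.BFT.Major
import Pool.Agent.BFT.Swap

/-! # The global argument (owner: helper8) -/

set_option autoImplicit false

namespace Pool.Agent.BFT

open Finset Pool.Agent.Helper1.Balance Pool.Agent.Helper8.KS Pool.Agent.Helper18.KSC

/-- a block of size two -/
theorem block_two {n : ℕ} {r : Fin n → Fin n → Prop} (hr : IsPoset r)
    {π : Equiv.Perm (Fin n)} (hπ : π ∈ LEs r) {m0 : ℕ} (h0 : II r π m0 = 0)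
    (h1 : II r π (m0 + 1) ≠ 0) (h2 : II r π (m0 + 2) = 0) : 1 / 2 ≤ balance r := by
  classical
  obtain ⟨u, v, hu, hv, huv⟩ := exists_of_II π h1
  have hum : (π u : ℕ) = m0 := by
    by_contra hne
    exact huv (prob_zero_of_II π h0 (by omega) (by omega))
  have hvm : (π v : ℕ) = m0 + 1 := by
    by_contra hne
    exact huv (prob_zero_of_II π h2 (by omega) (by omega))
  have hlt : π u < π v := by rw [Fin.lt_def]; omega
  have hinc := inc_of_cross hr hπ hlt huv
  have hne := hinc.ne hr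
  -- nothing comes between u and v
  have hbet : ∀ σ ∈ LEs r, ∀ z : Fin n, z ≠ u → z ≠ v →
      (σ z < σ u ∧ σ z < σ v) ∨ (σ u < σ z ∧ σ v < σ z) := by
    intro σ hσ z hzu hzv
    have h3 : (π z : ℕ) ≠ m0 := by
      intro h
      exact hzu (π.injective (Fin.ext (by omega)))
    have h4 : (π z : ℕ) ≠ m0 + 1 := by
      intro h
      exact hzv (π.injective (Fin.ext (by omega)))
    by_cases h5 : (π z : ℕ) < m0
    · left
      exact ⟨lt_of_prob_zero hr (prob_zero_of_II π h0 h5 (by omega)) hzu hσ,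
        lt_of_prob_zero hr (prob_zero_of_II π h0 h5 (by omega)) hzv hσ⟩
    · right
      exact ⟨lt_of_prob_zero hr (prob_zero_of_II π h2 (by omega) (by omega)) (Ne.symm hzu) hσ,
        lt_of_prob_zero hr (prob_zero_of_II π h2 (by omega) (by omega)) (Ne.symm hzv) hσ⟩
  have hadj : ∀ σ ∈ LEs r, (σ u < σ v → (σ v : ℕ) = (σ u : ℕ) + 1) ∧
      (σ v < σ u → (σ u : ℕ) = (σ v : ℕ) + 1) := by
    intro σ hσ
    have key : ∀ a b : Fin n, (∀ z, z ≠ a → z ≠ b → (σ z < σ a ∧ σ z < σ b) ∨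
        (σ a < σ z ∧ σ b < σ z)) → σ a < σ b → (σ b : ℕ) = (σ a : ℕ) + 1 := by
      intro a b hab hlt
      by_contra hcon
      rw [Fin.lt_def] at hlt
      have hb := (σ b).2
      set z := σ.symm ⟨(σ a : ℕ) + 1, by omega⟩ with hz
      have hσz : (σ z : ℕ) = (σ a : ℕ) + 1 := by rw [hz]; simp
      have hza : z ≠ a := by
        intro h
        rw [h] at hσz
        omega
      have hzb : z ≠ b := by
        intro h
        rw [h] at hσz
        omega
      rcases hab z hza hzb with h | h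
      · have := h.1
        rw [Fin.lt_def] at this
        omega
      · have := h.2
        rw [Fin.lt_def] at this
        omega
    refine ⟨key u v (hbet σ hσ), key v u ?_⟩
    intro z h3 h4
    rcases hbet σ hσ z h4 h3 with h | h
    · left; exact ⟨h.2, h.1⟩
    · right; exact ⟨h.2, h.1⟩
  -- Pr congruence on linear extensions
  have hcongr : ∀ p q : Equiv.Perm (Fin n) → Prop, (∀ σ ∈ LEs r, p σ ↔ q σ) →
      Pr r p = Pr r q := by
    intro p q h
    rw [Pr_eq_card, Pr_eq_card]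
    congr 2
    exact congrArg Finset.card (Finset.filter_congr h)
  have e1 : gp r u v 1 = prob r u v := by
    rw [prob_eq_Pr]
    refine hcongr _ _ fun σ hσ => ?_
    have h3 := hadj σ hσ
    have h4 : σ u ≠ σ v := fun h => hne (σ.injective h)
    have h5 : (σ u : ℕ) ≠ (σ v : ℕ) := fun h => h4 (Fin.ext h)
    rw [Fin.lt_def, Fin.lt_def] at h3
    rw [Fin.lt_def]
    show ((σ v : ℕ) : ℤ) - ((σ u : ℕ) : ℤ) = 1 ↔ _
    omega
  have e2 : gp r u v (-1) = prob r v u := by
    rw [prob_eq_Pr]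
    refine hcongr _ _ fun σ hσ => ?_
    have h3 := hadj σ hσ
    have h4 : σ u ≠ σ v := fun h => hne (σ.injective h)
    have h5 : (σ u : ℕ) ≠ (σ v : ℕ) := fun h => h4 (Fin.ext h)
    rw [Fin.lt_def, Fin.lt_def] at h3
    rw [Fin.lt_def]
    show ((σ v : ℕ) : ℤ) - ((σ u : ℕ) : ℤ) = -1 ↔ _
    omega
  have h3 := gp_neg_one hr hinc
  have h4 := prob_add' r hr hne
  have h5 := min_le_balance' r hr hinc.1 hinc.2
  have h6 : prob r u v = 1 / 2 := by linarith
  have h7 : prob r v u = 1 / 2 := by linarith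
  rw [h6, h7, min_self] at h5
  exact h5

/-- posets with bounded incomparability degrees -/
theorem thin_gap (K : ℕ) : ∃ ε : ℝ, 0 < ε ∧ ∀ (n : ℕ) (r : Fin n → Fin n → Prop), IsPoset r →
    (∀ x : Fin n, Nat.card {y : Fin n // ¬ r x y ∧ ¬ r y x} ≤ K) →
    (∃ x y : Fin n, Inc r x y) → (5 - Real.sqrt 5) / 10 + ε ≤ balance r := by
  classical
  obtain ⟨c, hc, hR⟩ := reord K
  obtain ⟨η, hη, hseq⟩ := seq_contra c (((2 * K + 2) ^ 2 : ℕ) : ℝ) hc
  obtain ⟨ε₁, hε₁, htri⟩ := triple η hη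
  refine ⟨min ε₁ 0.05, lt_min hε₁ (by norm_num), ?_⟩
  intro n r hr hK hex
  by_contra hcon
  push Not at hcon
  have hs5 : 2.2 < Real.sqrt 5 := by
    rw [Real.lt_sqrt (by norm_num)]; norm_num
  have hs6 : Real.sqrt 5 < 3 := by
    rw [Real.sqrt_lt' (by norm_num)]; norm_num
  set t : ℝ := (5 - Real.sqrt 5) / 10 + min ε₁ 0.05 with htd
  have ht0 : 0 ≤ t := by
    have : 0 < min ε₁ 0.05 := lt_min hε₁ (by norm_num)
    rw [htd]; linarith
  have ht3 : t < 1 / 3 := by
    have : min ε₁ 0.05 ≤ 0.05 := min_le_right _ _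
    rw [htd]; linarith
  have htε : t ≤ (5 - Real.sqrt 5) / 10 + ε₁ := by
    have : min ε₁ 0.05 ≤ ε₁ := min_le_left _ _
    rw [htd]; linarith
  obtain ⟨π, hπ, hmaj⟩ := exists_major hr ht0 ht3 hcon.le
  have hcpos : ∀ m, II r π m ≠ 0 → c ≤ II r π m := by
    intro m hm
    obtain ⟨x, y, h1, h2, h3⟩ := exists_of_II π hm
    have hlt : π x < π y := by rw [Fin.lt_def]; omega
    exact (hR n r hr hK x y (inc_of_cross hr hπ hlt h3)).trans (prob_le_II π h1 h2)
  have hM : ∀ m, II r π m ≤ (((2 * K + 2) ^ 2 : ℕ) : ℝ) :=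
    II_le hr hπ (fun x y hxy => window hr hK hxy hπ)
  -- a nonzero level
  obtain ⟨x0, y0, hlt0, hinc0⟩ : ∃ x y : Fin n, π x < π y ∧ Inc r x y := by
    obtain ⟨x, y, hxy⟩ := hex
    rcases lt_trichotomy (π x) (π y) with h | h | h
    · exact ⟨x, y, h, hxy⟩
    · exact absurd (π.injective h) (hxy.ne hr)
    · exact ⟨y, x, h, hxy.symm⟩
  set p : ℕ := (π x0 : ℕ) with hp
  have hpn : p + 1 < n := by
    have := (π y0).2
    rw [Fin.lt_def] at hlt0
    omega
  have hp1 : II r π (p + 1) ≠ 0 := by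
    have h1 := hR n r hr hK x0 y0 hinc0
    have h2 : prob r y0 x0 ≤ II r π (p + 1) := prob_le_II π (by omega) (by
      rw [Fin.lt_def] at hlt0
      omega)
    intro h
    rw [h] at h2
    linarith
  -- the last zero before and the first zero after
  obtain ⟨m0, hm0p, hm0z, hm0⟩ : ∃ m0, m0 ≤ p ∧ II r π m0 = 0 ∧
      ∀ m, m0 < m → m ≤ p → II r π m ≠ 0 := by
    have h1 : II r π (Nat.findGreatest (fun m => II r π m = 0) p) = 0 :=
      Nat.findGreatest_spec (P := fun m => II r π m = 0) (Nat.zero_le p) (II_zero π)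
    refine ⟨Nat.findGreatest (fun m => II r π m = 0) p, Nat.findGreatest_le p, h1, ?_⟩
    intro m h2 h3 h4
    exact Nat.findGreatest_is_greatest h2 h3 h4
  obtain ⟨m1, hm1p, hm1n, hm1z, hm1⟩ : ∃ m1, p + 1 < m1 ∧ m1 ≤ n ∧ II r π m1 = 0 ∧
      ∀ m, p < m → m < m1 → II r π m ≠ 0 := by
    have hex1 : ∃ m, p < m ∧ II r π m = 0 := ⟨n, by omega, II_top π⟩
    refine ⟨Nat.find hex1, ?_, ?_, (Nat.find_spec hex1).2, ?_⟩
    · have h1 := (Nat.find_spec hex1).1
      have h2 : Nat.find hex1 ≠ p + 1 := by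
        intro h
        have := (Nat.find_spec hex1).2
        rw [h] at this
        exact hp1 this
      omega
    · exact Nat.find_min' hex1 ⟨by omega, II_top π⟩
    · intro m h1 h2 h3
      exact Nat.find_min hex1 h2 ⟨h1, h3⟩
  obtain ⟨L, hL⟩ : ∃ L, m1 = m0 + L := ⟨m1 - m0, by omega⟩
  have hL2 : 2 ≤ L := by omega
  have hin : ∀ k, 0 < k → k < L → II r π (m0 + k) ≠ 0 := by
    intro k h1 h2
    rcases Nat.lt_or_ge p (m0 + k) with h3 | h3
    · exact hm1 _ h3 (by omega)
    · exact hm0 _ (by omega) h3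
  rcases Nat.lt_or_ge L 3 with hL3 | hL3
  · -- block of size two
    have hLe : L = 2 := by omega
    have h1 := block_two hr hπ hm0z (hin 1 (by omega) (by omega)) (by
      rw [← hLe, ← hL]; exact hm1z)
    linarith
  -- the increments
  set b : ℕ → ℝ := fun i => if h : m0 + i < n then
    ht r (π.symm ⟨m0 + i, h⟩) - 1 - ((m0 + i : ℕ) : ℝ) else 0 with hb
  have hbv : ∀ i (h : m0 + i < n), b i = ht r (π.symm ⟨m0 + i, h⟩) - 1 - ((m0 + i : ℕ) : ℝ) := by
    intro i h
    rw [hb]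
    simp only [h, dif_pos]
  have hsum : ∀ k, k ≤ L → ∑ i ∈ Finset.range k, b i = II r π (m0 + k) := by
    intro k
    induction k with
    | zero => intro _; simp [hm0z]
    | succ k ih =>
      intro hk
      have hkn : m0 + k < n := by omega
      rw [Finset.sum_range_succ, ih (by omega), hbv k hkn,
        show m0 + (k + 1) = (m0 + k) + 1 by ring, II_succ hr π hkn]
  refine hseq L b hL3 ?_ ?_ ?_ ?_
  · intro k h1 h2
    rw [hsum k (by omega)]
    exact hcpos _ (hin k h1 h2)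
  · intro k h1
    rw [hsum k h1]
    exact hM _
  · rw [hsum L le_rfl, ← hL]
    exact hm1z
  · intro i hi
    have hn0 : m0 + i < n := by omega
    have hn1 : m0 + (i + 1) < n := by omega
    have hn2 : m0 + (i + 2) < n := by omega
    set x : Fin n := π.symm ⟨m0 + i, hn0⟩ with hx
    set y : Fin n := π.symm ⟨m0 + (i + 1), hn1⟩ with hy
    set z : Fin n := π.symm ⟨m0 + (i + 2), hn2⟩ with hz
    have hπx : π x = ⟨m0 + i, hn0⟩ := by rw [hx]; simp
    have hπy : π y = ⟨m0 + (i + 1), hn1⟩ := by rw [hy]; simp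
    have hπz : π z = ⟨m0 + (i + 2), hn2⟩ := by rw [hz]; simp
    have hxy : π x < π y := by rw [hπx, hπy, Fin.lt_def]; simp
    have hyz : π y < π z := by rw [hπy, hπz, Fin.lt_def]; simp
    have hxz : π x < π z := hxy.trans hyz
    have hne : ∀ u v : Fin n, π u < π v → u ≠ v := by
      rintro u v h rfl
      exact lt_irrefl _ h
    have hnr : ∀ u v : Fin n, π u < π v → ¬ r v u := by
      intro u v h h1
      exact absurd (mem_LEs.1 hπ _ _ h1) (not_le.2 h)
    have h1 := htri n r x y z hr (hne _ _ hxy) (hne _ _ hyz) (hne _ _ hxz) (hnr _ _ hxy)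
      (hnr _ _ hyz) (hnr _ _ hxz) ((hmaj _ _ hxy).trans htε) ((hmaj _ _ hyz).trans htε)
      ((hmaj _ _ hxz).trans htε)
    rw [mn_eq_ht] at h1
    rw [hbv i hn0, hbv (i + 2) hn2, ← hx, ← hz]
    push_cast
    linarith

end Pool.Agent.BFT
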