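import Mathlib
import Pool.Agent.BFT.Global
import Pool.Agent.T1K.Done

/-! # Every finite poset that is not a chain has balance constant above the BFT bound -/

set_option autoImplicit false

namespace Pool.Agent.BFT

open Finset Pool.Agent.Helper1.Balance Pool.Agent.Helper8.KS

theorem main : ∃ ε : ℝ, 0 < ε ∧
    (∀ (n : ℕ) (r : Fin n → Fin n → Prop), IsPoset r → (∃ x y : Fin n, ¬ r x y ∧ ¬ r y x) →
      (5 - Real.sqrt 5) / 10 + ε ≤ balance r) ∧
    (∀ w : ℕ, 2 ≤ w → (5 - Real.sqrt 5) / 10 + ε ≤ deltaW w) := by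
  obtain ⟨C, _, _, hthin, _⟩ := Pool.Agent.T1K.t1_final
  obtain ⟨K, hK⟩ := exists_nat_ge ((1 / (0.22 : ℝ)) ^ (C / (0.22 : ℝ) ^ 4))
  obtain ⟨ε, hε, hg⟩ := thin_gap K
  have hs5 : 2.23 < Real.sqrt 5 := by
    rw [Real.lt_sqrt (by norm_num)]; norm_num
  have h1 : ∀ (n : ℕ) (r : Fin n → Fin n → Prop), IsPoset r →
      (∃ x y : Fin n, ¬ r x y ∧ ¬ r y x) →
      (5 - Real.sqrt 5) / 10 + min ε 0.003 ≤ balance r := by
    intro n r hr hex
    rcases le_total (balance r) (1 / 2 - 0.22) with h | h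
    · have h2 := hthin 0.22 (by norm_num) (by norm_num) n r hr h
      have h3 : ∀ x : Fin n, Nat.card {y : Fin n // ¬ r x y ∧ ¬ r y x} ≤ K := by
        intro x
        have := (h2 x).trans hK
        exact_mod_cast this
      have h4 := hg n r hr h3 hex
      have h5 : min ε 0.003 ≤ ε := min_le_left _ _
      linarith
    · have h5 : min ε 0.003 ≤ 0.003 := min_le_right _ _
      linarith
  refine ⟨min ε 0.003, lt_min hε (by norm_num), h1, ?_⟩
  intro w hw
  unfold deltaW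
  apply le_csInf
  · obtain ⟨n, r, h2, h3⟩ := exists_width w
    exact ⟨_, n, r, h2, h3, rfl⟩
  · rintro d ⟨n, r, h2, ⟨⟨s, hs1, hs2⟩, _⟩, rfl⟩
    have h3 : 1 < s.card := by omega
    obtain ⟨x, hx, y, hy, hxy⟩ := Finset.one_lt_card.1 h3
    exact h1 n r h2 ⟨x, y, hs2 x hx y hy hxy, hs2 y hy x hx (Ne.symm hxy)⟩

end Pool.Agent.BFT
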